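import Pool.Agent.TH477.PA.Main4
import Pool.Agent.TH477.PA.Final
import Pool.Agent.TH405.J653
import Pool.Agent.TH480.J677
import Pool.Agent.TH511.J656

/-!
Everything together.
-/

set_option autoImplicit false

namespace Pool.Agent.TH477.PA

open Finset

theorem all
    (hBad : ∀ (k D r p : ℕ) (ℓ : ℝ), Opt k D r ℓ → IsType k D r ℓ p →
    ∃ δ1 δ2 : ℝ, 0 < δ1 ∧ 0 < δ2 ∧ ∀ β : ℝ, 0 < β → β ≤ 1 →
    ∃ δ0 η0 γ : ℝ, 0 < δ0 ∧ 0 < η0 ∧ 0 < γ ∧ ∃ n0 : ℕ, ∀ n, n0 ≤ n →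
    ∀ (G : SimpleGraph (Fin n)) (y : Fin n) (A : Finset (Fin r)) (cls : Fin n → ℕ) (η ε δ : ℝ)
      (ψ : Sym2 (Fin n) → Fin r), A.card = ct k D p → η ≤ η0 → 0 < δ → δ ≤ δ0 →
      Valid G p A cls {y}ᶜ η ε β δ ψ → Good k (k.choose 2 + 1 - D) G {y}ᶜ ψ →
      ∑ b : Fin n → Fin r, ind (Good k (k.choose 2 + 1 - D) G Set.univ (upd y ψ b) ∧
        ¬ GoodStar G p A cls y δ1 (δ1 / 2) δ2 (upd y ψ b)) ≤
        (r : ℝ) ^ (n - Nat.card {v // G.Adj y v}) * Real.exp ((Real.log r - ℓ - γ) * n)) :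
    ∀ k s : ℕ, 3 ≤ k → 3 ≤ s → s ≤ k.choose 2 →
      ∃ rstar : ℕ, ∀ r : ℕ, 2 ≤ r → ∃ n0 : ℕ, ∀ n : ℕ, n0 ≤ n →
        ∀ G : SimpleGraph (Fin n),
          ((∀ H : SimpleGraph (Fin n),
              Nat.card {c : H.edgeSet → Fin r //
                ∀ S : Finset (Fin n), H.IsNClique k S →
                  Set.ncard {i : Fin r | ∃ e : H.edgeSet,
                    (∀ v ∈ (e : Sym2 (Fin n)), v ∈ S) ∧ c e = i} < s}
              ≤ Nat.card {c : G.edgeSet → Fin r //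
                ∀ S : Finset (Fin n), G.IsNClique k S →
                  Set.ncard {i : Fin r | ∃ e : G.edgeSet,
                    (∀ v ∈ (e : Sym2 (Fin n)), v ∈ S) ∧ c e = i} < s}) ↔
            ((r < rstar ∧ Nonempty (G ≃g (⊤ : SimpleGraph (Fin n)))) ∨
              (rstar ≤ r ∧ Nonempty (G ≃g SimpleGraph.turanGraph n (k - 1))))) := by
  apply final_thm
  · intro k D r ℓ hO hT
    exact main_thm k D r ℓ hO hT (fun p hp => hBad k D r p ℓ hO hp)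
  · exact fun k s hk hs hsk => Pool.Agent.TH480.J677.J18_cases k s hk hs hsk
  · exact fun k D r p c h1 h2 h3 h4 h5 h6 =>
      Pool.Agent.TH405.J653.J14_lower_tie k D r p c h1 h2 h3 h4 h5 h6
  · exact Pool.Agent.TH830.J644.J5_norm
  · exact fun k s r n hk => Pool.Agent.TH511.J655.J15_turan_value k s r n hk
  · exact fun k s r n hk hs hsr hsk => Pool.Agent.TH511.J656.J15_value_le k s r n hk hs hsr hsk

end Pool.Agent.TH477.PA
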