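import Pool.Agent.TH477.PA.Defs
import Pool.Agent.TH477.RB.Palette

/-!
Deficiency version of Hall's theorem, loss of a palette.
-/

set_option autoImplicit false

namespace Pool.Agent.TH477.PA

open Finset

theorem exists_violator {k r s D : ℕ} (hk : 2 ≤ k) (hs : s + D = k.choose 2 + 1) (hD : 1 ≤ D)
    (Q : Fin k → Fin k → Finset (Fin r)) (hne : ∀ i j, i < j → (Q i j).Nonempty)
    (h : ¬ SCol s Q) :
    ∃ S : Finset (Fin k × Fin k), (∀ p ∈ S, p.1 < p.2) ∧
      (S.biUnion (fun p => Q p.1 p.2)).card + D ≤ S.card := by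
  classical
  by_contra hcon
  push Not at hcon
  apply h
  let t : {p : Fin k × Fin k // p.1 < p.2} → Finset (Fin r ⊕ Fin (D - 1)) :=
    fun p => (Q p.1.1 p.1.2).disjSum univ
  have hall : ∀ s' : Finset {p : Fin k × Fin k // p.1 < p.2}, s'.card ≤ (s'.biUnion t).card := by
    intro s'
    rcases s'.eq_empty_or_nonempty with rfl | ⟨p0, hp0⟩
    · simp
    · have h1 := hcon (s'.map (Function.Embedding.subtype _)) (by
        intro p hp
        rw [Finset.mem_map] at hp
        obtain ⟨a, _, rfl⟩ := hp
        exact a.2)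
      rw [Finset.card_map] at h1
      have h2 : ((s'.map (Function.Embedding.subtype _)).biUnion
          (fun p : Fin k × Fin k => Q p.1 p.2)).disjSum (univ : Finset (Fin (D - 1))) ⊆
          s'.biUnion t := by
        intro c hc
        rw [Finset.mem_biUnion]
        rcases c with c | c
        · rw [Finset.inl_mem_disjSum, Finset.mem_biUnion] at hc
          obtain ⟨p, hp, hcp⟩ := hc
          rw [Finset.mem_map] at hp
          obtain ⟨a, ha, rfl⟩ := hp
          exact ⟨a, ha, Finset.inl_mem_disjSum.mpr hcp⟩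
        · exact ⟨p0, hp0, Finset.inr_mem_disjSum.mpr (Finset.mem_univ _)⟩
      have h3 := Finset.card_le_card h2
      rw [Finset.card_disjSum, Finset.card_univ, Fintype.card_fin] at h3
      omega
  obtain ⟨f, hf, hft⟩ := (Finset.all_card_le_biUnion_card_iff_exists_injective t).mp hall
  have p0 : {p : Fin k × Fin k // p.1 < p.2} :=
    ⟨(⟨0, by omega⟩, ⟨1, by omega⟩), by simp [Fin.lt_def]⟩
  obtain ⟨a0, _⟩ := hne p0.1.1 p0.1.2 p0.2
  -- colour of a pair
  let g : {p : Fin k × Fin k // p.1 < p.2} → Fin r := fun p =>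
    Sum.elim id (fun _ => (hne p.1.1 p.1.2 p.2).choose) (f p)
  have hg1 : ∀ p a, f p = Sum.inl a → g p = a := by
    intro p a h1
    simp only [g, h1, Sum.elim_inl, id]
  have hg2 : ∀ p, g p ∈ Q p.1.1 p.1.2 := by
    intro p
    rcases h1 : f p with a | b
    · rw [hg1 p a h1]
      have h2 := hft p
      rw [h1] at h2
      exact Finset.inl_mem_disjSum.mp h2
    · simp only [g, h1, Sum.elim_inr]
      exact (hne p.1.1 p.1.2 p.2).choose_spec
  refine ⟨fun i j => if hij : i < j then g ⟨(i, j), hij⟩ else a0, ?_, ?_⟩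
  · intro i j hij
    simp only [hij, dif_pos]
    exact hg2 _
  · -- number of pairs with a real colour
    let L : Finset {p : Fin k × Fin k // p.1 < p.2} := univ.filter (fun p => (f p).isLeft)
    let R : Finset {p : Fin k × Fin k // p.1 < p.2} := univ.filter (fun p => ¬ (f p).isLeft)
    have hLR : L.card + R.card = k.choose 2 := by
      have := Finset.card_filter_add_card_filter_not (s := (univ : Finset {p : Fin k × Fin k //
        p.1 < p.2})) (p := fun p => ((f p).isLeft : Prop))
      rw [this, Finset.card_univ, Fintype.card_subtype, RB.card_pairs]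
    have hR : R.card ≤ D - 1 := by
      have h1 : (R.image f).card = R.card := Finset.card_image_of_injective _ hf
      have h2 : R.image f ⊆ (univ : Finset (Fin (D - 1))).map Function.Embedding.inr := by
        intro x hx
        rw [Finset.mem_image] at hx
        obtain ⟨p, hp, rfl⟩ := hx
        rw [Finset.mem_filter] at hp
        rcases h3 : f p with a | b
        · rw [h3] at hp; simp at hp
        · rw [Finset.mem_map]
          exact ⟨b, Finset.mem_univ _, rfl⟩
      have h3 := Finset.card_le_card h2
      rw [Finset.card_map, Finset.card_univ, Fintype.card_fin, h1] at h3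
      exact h3
    have hLs : s ≤ L.card := by omega
    refine hLs.trans ?_
    have hinj : Set.InjOn g L := by
      intro p hp p' hp' heq
      have hp := (Finset.mem_filter.mp hp).2
      have hp' := (Finset.mem_filter.mp hp').2
      rcases h1 : f p with a | b
      · rcases h2 : f p' with a' | b'
        · rw [hg1 p a h1, hg1 p' a' h2] at heq
          apply hf
          rw [h1, h2, heq]
        · rw [h2] at hp'; simp at hp'
      · rw [h1] at hp; simp at hp
    rw [← Finset.card_image_of_injOn hinj]
    apply Finset.card_le_card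
    intro x hx
    rw [Finset.mem_image] at hx ⊢
    obtain ⟨p, _, rfl⟩ := hx
    refine ⟨p.1, Finset.mem_filter.mpr ⟨Finset.mem_univ _, p.2⟩, ?_⟩
    simp only [p.2, dif_pos]

/-- loss of a palette -/
noncomputable def ls {r : ℕ} (R : Finset (Fin r)) : ℝ := Real.log r - Real.log (R.card : ℝ)

theorem ls_eq_loss {V : Type} {r : ℕ} (P : V → V → Finset (Fin r)) (x y : V) :
    RB.loss P x y = ls (P x y) := rfl

theorem ls_nonneg {r : ℕ} (R : Finset (Fin r)) : 0 ≤ ls R :=
  RB.loss_nonneg (V := Unit) (fun _ _ => R) () ()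

theorem ls_le {r : ℕ} (R : Finset (Fin r)) : ls R ≤ Real.log r :=
  RB.loss_le (V := Unit) (fun _ _ => R) () ()

theorem ls_empty {r : ℕ} : ls (∅ : Finset (Fin r)) = Real.log r := by
  unfold ls; simp

theorem ls_univ {r : ℕ} : ls (univ : Finset (Fin r)) = 0 := by
  unfold ls; simp

theorem log_lt {a b : ℕ} (ha : 1 ≤ a) (hab : a < b) : Real.log a < Real.log b :=
  Real.log_lt_log (by exact_mod_cast (by omega : 0 < a)) (by exact_mod_cast hab)

theorem log_le {a b : ℕ} (ha : 1 ≤ a) (hab : a ≤ b) : Real.log a ≤ Real.log b :=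
  Real.log_le_log (by exact_mod_cast (by omega : 0 < a)) (by exact_mod_cast hab)

/-- no loss means full palette (two colours at least) -/
theorem eq_univ_of_ls {r : ℕ} (hr : 2 ≤ r) (R : Finset (Fin r)) (h : ls R ≤ 0) : R = univ := by
  rw [← Finset.card_eq_iff_eq_univ, Fintype.card_fin]
  by_contra hne
  have hlt : R.card < r := lt_of_le_of_ne (by
    have := Finset.card_le_univ R
    rwa [Fintype.card_fin] at this) hne
  unfold ls at h
  rcases Nat.eq_zero_or_pos R.card with h0 | h0
  · rw [h0] at h
    simp only [Nat.cast_zero, Real.log_zero, sub_zero] at h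
    have := Real.log_pos (by exact_mod_cast (by omega : 1 < r) : (1 : ℝ) < r)
    linarith
  · have := log_lt h0 hlt
    linarith

theorem card_of_ls {r c : ℕ} (hc : 2 ≤ c) (R : Finset (Fin r))
    (h : ls R = Real.log r - Real.log c) : R.card = c := by
  unfold ls at h
  have h1 : Real.log (R.card : ℝ) = Real.log c := by linarith
  rcases lt_trichotomy R.card c with h2 | h2 | h2
  · rcases Nat.eq_zero_or_pos R.card with h0 | h0
    · rw [h0] at h1
      simp only [Nat.cast_zero, Real.log_zero] at h1
      have := Real.log_pos (by exact_mod_cast (by omega : 1 < c) : (1 : ℝ) < c)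
      linarith
    · have := log_lt h0 h2
      linarith
  · exact h2
  · have := log_lt (by omega : 1 ≤ c) h2
    linarith

theorem Opt.r3 {k D r : ℕ} {ℓ : ℝ} (hO : Opt k D r ℓ) : 3 ≤ r := by
  have h1 := hO.hr
  have h2 := hO.hDC
  omega

theorem Opt.logpos {k D r : ℕ} {ℓ : ℝ} (hO : Opt k D r ℓ) : 0 < Real.log r :=
  Real.log_pos (by
    have := hO.r3
    exact_mod_cast (by omega : 1 < r))

end Pool.Agent.TH477.PA
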