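import Pool.Agent.TH477.PA.Arith
import Pool.Agent.TH477.PA.Hall

/-!
Classification of the tight greedy tuples.
-/

set_option autoImplicit false

namespace Pool.Agent.TH477.PA

open Finset

/-- classification of the greedy tuples which cannot be coloured -/
theorem tuple {k D r : ℕ} {ℓ : ℝ} (hO : Opt k D r ℓ) (Q : Fin k → Fin k → Finset (Fin r))
    (hQ : ¬ SCol (k.choose 2 + 1 - D) Q)
    (hg : ∀ j : Fin k, ∑ i ∈ univ.filter (fun i => i < j), ls (Q i j) ≤ (j.val : ℝ) * ℓ) :
    (((k - 1 : ℕ) : ℝ) * ℓ = Real.log r ∧ ∃ i j : Fin k, i < j ∧ j.val = k - 1 ∧ Q i j = ∅ ∧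
      ∀ i', i' < j → i' ≠ i → Q i' j = univ) ∨
    (ℓ = Real.log r - Real.log ((k.choose 2 - D : ℕ) : ℝ) ∧
      ∃ U : Finset (Fin r), U.card = k.choose 2 - D ∧ ∀ i j, i < j → Q i j ⊆ U) ∨
    (∃ p c : ℕ, k ≤ 2 * p ∧ p + c + D = k ∧ 2 ≤ c ∧ (p : ℝ) * ℓ = Real.log r - Real.log c ∧
      ∃ i j : Fin k, i < j ∧ j.val = p ∧ (Q i j).card = c ∧
        ∀ i', i' < j → i' ≠ i → Q i' j = univ) := by
  classical
  have hk := hO.hk
  have hD := hO.hD
  have hDC := hO.hDC
  have hr := hO.hr
  have hr3 := hO.r3
  have hLpos := hO.logpos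
  set L := Real.log r with hL
  have hk0 : (0 : ℝ) < ((k - 1 : ℕ) : ℝ) := by exact_mod_cast (by omega : 0 < k - 1)
  have hsplit : ∀ i j : Fin k, i < j → ∑ i' ∈ univ.filter (fun i => i < j), ls (Q i' j) =
      ls (Q i j) + ∑ i' ∈ (univ.filter (fun i => i < j)).erase i, ls (Q i' j) := by
    intro i j hij
    have hmem : i ∈ univ.filter (fun i => i < j) := by simp [hij]
    exact (Finset.add_sum_erase _ (fun i' => ls (Q i' j)) hmem).symm
  -- if one palette already has the full allowed loss the others are full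
  have hothers : ∀ i j : Fin k, i < j → (j.val : ℝ) * ℓ ≤ ls (Q i j) →
      (ls (Q i j) = (j.val : ℝ) * ℓ ∧ ∀ i', i' < j → i' ≠ i → Q i' j = univ) := by
    intro i j hij h1
    have h2 := hg j
    rw [hsplit i j hij] at h2
    have h3 : 0 ≤ ∑ i' ∈ (univ.filter (fun i => i < j)).erase i, ls (Q i' j) :=
      Finset.sum_nonneg fun i' _ => ls_nonneg _
    refine ⟨by linarith, ?_⟩
    intro i' hi' hne
    apply eq_univ_of_ls (by omega)
    have hmem : i' ∈ (univ.filter (fun i => i < j)).erase i := by simp [hi', hne]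
    have h4 := Finset.single_le_sum (f := fun i' => ls (Q i' j)) (fun i' _ => ls_nonneg (Q i' j))
      hmem
    linarith
  by_cases hne : ∀ i j, i < j → (Q i j).Nonempty
  swap
  · -- an empty palette
    left
    push Not at hne
    obtain ⟨i, j, hij, hempty⟩ := hne
    have hjk : j.val ≤ k - 1 := by omega
    have h1 : ls (Q i j) = L := by rw [hempty]; exact ls_empty
    have h2 : (j.val : ℝ) * ℓ ≤ ((k - 1 : ℕ) : ℝ) * ℓ := by
      apply mul_le_mul_of_nonneg_right _ hO.pos.le
      exact_mod_cast hjk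
    have h3 := hO.o1
    obtain ⟨h4, h5⟩ := hothers i j hij (by rw [h1]; linarith)
    have h6 : (j.val : ℝ) * ℓ = ((k - 1 : ℕ) : ℝ) * ℓ := by
      rw [h1] at h4; linarith
    have h7 : j.val = k - 1 := by
      have := mul_right_cancel₀ hO.pos.ne' h6
      exact_mod_cast this
    exact ⟨by rw [← h6, ← h4, h1], i, j, hij, h7, hempty, h5⟩
  · right
    obtain ⟨S, hS, hScard⟩ := exists_violator (s := k.choose 2 + 1 - D) (D := D) (by omega)
      (by omega) hD Q hne hQ
    set Un := S.biUnion (fun p => Q p.1 p.2) with hUn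
    have hSne : S.Nonempty := by
      rw [← Finset.card_pos]; omega
    obtain ⟨p0, hp0⟩ := hSne
    have hsub : ∀ p ∈ S, Q p.1 p.2 ⊆ Un := fun p hp =>
      Finset.subset_biUnion_of_mem (fun p : Fin k × Fin k => Q p.1 p.2) hp
    have hq1 : 1 ≤ Un.card := by
      have := Finset.card_le_card (hsub p0 hp0)
      have h2 := (hne _ _ (hS p0 hp0)).card_pos
      omega
    have hlossS : ∀ p ∈ S, L - Real.log (Un.card : ℝ) ≤ ls (Q p.1 p.2) := by
      intro p hp
      unfold ls
      have := log_le (hne _ _ (hS p hp)).card_pos (Finset.card_le_card (hsub p hp))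
      linarith
    let m : ℕ → ℕ := fun j => (S.filter (fun p => p.2.val = j)).card
    have himg : ∀ j : Fin k, ∑ p ∈ S.filter (fun p => p.2.val = j.val), ls (Q p.1 p.2) =
        ∑ i ∈ (S.filter (fun p => p.2.val = j.val)).image Prod.fst, ls (Q i j) := by
      intro j
      rw [Finset.sum_image]
      · refine Finset.sum_congr rfl fun p hp => ?_
        have : p.2 = j := Fin.ext (Finset.mem_filter.mp hp).2
        rw [this]
      · intro p hp p' hp' heq
        have h5 : p.2 = p'.2 := Fin.ext
          ((Finset.mem_filter.mp hp).2.trans (Finset.mem_filter.mp hp').2.symm)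
        exact Prod.ext heq h5
    have himgsub : ∀ j : Fin k, (S.filter (fun p => p.2.val = j.val)).image Prod.fst ⊆
        univ.filter (fun i => i < j) := by
      intro j i hi
      rw [Finset.mem_image] at hi
      obtain ⟨p, hp, rfl⟩ := hi
      rw [Finset.mem_filter] at hp ⊢
      refine ⟨Finset.mem_univ _, ?_⟩
      have := hS p hp.1
      rw [Fin.lt_def] at this ⊢
      rw [hp.2] at this
      exact this
    have hm : ∀ j, 1 ≤ j → j ≤ k - 1 → (m j : ℝ) * (Real.log r - Real.log (Un.card : ℝ)) ≤ j * ℓ := by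
      intro j hj1 hjk
      have hjk' : j < k := by omega
      refine le_trans ?_ (hg ⟨j, hjk'⟩)
      have h3 : ∑ p ∈ S.filter (fun p => p.2.val = j), (L - Real.log (Un.card : ℝ))
          ≤ ∑ p ∈ S.filter (fun p => p.2.val = j), ls (Q p.1 p.2) :=
        Finset.sum_le_sum fun p hp => hlossS p (Finset.mem_filter.mp hp).1
      rw [Finset.sum_const, nsmul_eq_mul] at h3
      refine h3.trans ?_
      rw [himg ⟨j, hjk'⟩]
      exact Finset.sum_le_sum_of_subset_of_nonneg (himgsub ⟨j, hjk'⟩) (fun i _ _ => ls_nonneg _)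
    have hmj : ∀ j, m j ≤ j := by
      intro j
      by_cases hjk : j < k
      · have h1 : m j = ((S.filter (fun p => p.2.val = j)).image Prod.fst).card := by
          rw [Finset.card_image_of_injOn]
          intro p hp p' hp' heq
          have h5 : p.2 = p'.2 := Fin.ext
            ((Finset.mem_filter.mp hp).2.trans (Finset.mem_filter.mp hp').2.symm)
          exact Prod.ext heq h5
        rw [h1]
        refine (Finset.card_le_card (himgsub ⟨j, hjk⟩)).trans ?_
        have : univ.filter (fun i : Fin k => i < ⟨j, hjk⟩) = Finset.Iio ⟨j, hjk⟩ := by ext; simp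
        rw [this, Fin.card_Iio]
      · have : m j = 0 := by
          simp only [m]
          rw [Finset.card_eq_zero, Finset.filter_eq_empty_iff]
          intro p _ hpj
          have := p.2.isLt
          omega
        omega
    have hsum : ∑ j ∈ Finset.Icc 1 (k - 1), m j = S.card := by
      rw [Finset.card_eq_sum_card_fiberwise (f := fun p : Fin k × Fin k => p.2.val)
        (t := Finset.Icc 1 (k - 1))]
      intro p hp
      have := hS p hp
      rw [Fin.lt_def] at this
      have h2 := p.2.isLt
      simp only [Finset.coe_Icc, Set.mem_Icc]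
      omega
    rcases AC k D r ℓ hO Un.card hq1 m hm hmj (by rw [hsum]; exact hScard) with
      ⟨h1, h2, h3⟩ | ⟨p, h1, h2, h3, h4, h5⟩
    · -- all pairs
      left
      have hUc : Un.card = k.choose 2 - D := by omega
      refine ⟨by rw [h2, hUc], Un, hUc, ?_⟩
      have hSall : S = univ.filter (fun p : Fin k × Fin k => p.1 < p.2) := by
        apply Finset.eq_of_subset_of_card_le
        · intro p hp
          exact Finset.mem_filter.mpr ⟨Finset.mem_univ _, hS p hp⟩
        · rw [RB.card_pairs]; omega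
      intro i j hij
      apply hsub (i, j)
      rw [hSall]
      exact Finset.mem_filter.mpr ⟨Finset.mem_univ _, hij⟩
    · right
      refine ⟨p, Un.card, h1, h2, h3, h4, ?_⟩
      have hpk : p < k := by omega
      have hmp : m p = 1 := by
        rw [h5 p (by omega) (by omega)]
        simp
      obtain ⟨q, hq⟩ := Finset.card_eq_one.mp hmp
      have hqS : q ∈ S.filter (fun p' => p'.2.val = p) := by rw [hq]; simp
      rw [Finset.mem_filter] at hqS
      have hq2 : q.1 < q.2 := hS q hqS.1
      have h6 : ((q.2).val : ℝ) * ℓ ≤ ls (Q q.1 q.2) := by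
        rw [hqS.2, h4]
        exact hlossS q hqS.1
      obtain ⟨h7, h8⟩ := hothers q.1 q.2 hq2 h6
      refine ⟨q.1, q.2, hq2, hqS.2, ?_, h8⟩
      apply card_of_ls h3
      rw [h7, hqS.2, h4]

end Pool.Agent.TH477.PA
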