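import Pool.Agent.TH477.PA.Tuple
import Pool.Agent.TH477.RB.Tree

/-!
Greedy counting; upper bound for the weight of a palette system with few colourable tuples.
-/

set_option autoImplicit false

namespace Pool.Agent.TH477.PA

open Finset
open Pool.Agent.TH477.RB (tup sum_update tree_count)

theorem mem_tup {V : Type} {J : ℕ} {W : Finset V} {x : Fin J → V} :
    x ∈ tup J W ↔ ∀ i, x i ∈ W := by
  simp [tup]

theorem card_tup {V : Type} {J : ℕ} (W : Finset V) : (tup J W).card = W.card ^ J := by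
  simp [tup]

theorem tree_ind {V : Type} {J : ℕ} (W : Finset V) (t0 : ℕ) (C : (Fin J → V) → Prop)
    (R : Fin J → (Fin J → V) → V → Prop) (δ : ℝ) (hδ : 0 ≤ δ)
    (hC : ∀ x (t : Fin J) y, t0 ≤ t.val → (C (Function.update x t y) ↔ C x))
    (hR : ∀ (j : Fin J) x (t : Fin J) y z, j ≤ t → (R j (Function.update x t y) z ↔ R j x z))
    (t1 : ℕ) (ht01 : t0 ≤ t1) (ht1 : t1 ≤ J)
    (hext : ∀ x ∈ tup J W, C x → ∀ t : Fin J, t0 ≤ t.val → t.val < t1 →
      (∀ j : Fin J, t0 ≤ j.val → j < t → R j x (x j)) →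
      δ * (W.card : ℝ) ≤ ∑ y ∈ W, ind (R t x y)) :
    δ ^ (t1 - t0) * ∑ x ∈ tup J W, ind (C x) ≤
      ∑ x ∈ tup J W, ind (C x ∧ ∀ j : Fin J, t0 ≤ j.val → j.val < t1 → R j x (x j)) := by
  classical
  have h := tree_count W t0 C R δ hδ hC hR t1 ht01 ht1 (by
    intro x hx hCx t ht0 ht1' hprev
    have := hext x hx hCx t ht0 ht1' hprev
    rw [card_filter_ind]
    exact this)
  rw [card_filter_ind, card_filter_ind] at h
  exact h

theorem finite_gap {ι : Type} [Finite ι] (f : ι → ℝ) :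
    ∃ γ : ℝ, 0 < γ ∧ ∀ i, f i ≤ 0 ∨ γ ≤ f i := by
  classical
  have := Fintype.ofFinite ι
  by_cases h : (univ.filter (fun i => 0 < f i)).Nonempty
  · refine ⟨(univ.filter (fun i => 0 < f i)).inf' h f, ?_, ?_⟩
    · rw [Finset.lt_inf'_iff]
      intro i hi
      exact (Finset.mem_filter.mp hi).2
    · intro i
      rcases le_or_gt (f i) 0 with h1 | h1
      · exact Or.inl h1
      · right
        exact Finset.inf'_le f (Finset.mem_filter.mpr ⟨Finset.mem_univ i, h1⟩)
  · refine ⟨1, one_pos, fun i => ?_⟩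
    left
    by_contra h1
    exact h ⟨i, Finset.mem_filter.mpr ⟨Finset.mem_univ _, not_le.mp h1⟩⟩

theorem dense_subset {V : Type} (w : V → V → ℝ) (hsymm : ∀ x y, w x y = w y x)
    (hdiag : ∀ x, w x x = 0) (W : Finset V) (α : ℝ) :
    ∃ W' ⊆ W, (∑ x ∈ W, ∑ y ∈ W, w x y) - α * (W.card : ℝ) ^ 2 + α * (W'.card : ℝ) ^ 2 ≤
      ∑ x ∈ W', ∑ y ∈ W', w x y ∧
      ∀ x ∈ W', α * (W'.card : ℝ) - α / 2 ≤ ∑ y ∈ W', w x y := by
  classical
  obtain ⟨W', hW', hmax⟩ := Finset.exists_max_image W.powerset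
    (fun U => (∑ x ∈ U, ∑ y ∈ U, w x y) - α * (U.card : ℝ) ^ 2) ⟨∅, by simp⟩
  refine ⟨W', Finset.mem_powerset.mp hW', ?_, ?_⟩
  · have := hmax W (by simp)
    linarith
  · intro x hx
    have h1 := hmax (W'.erase x) (by
      rw [Finset.mem_powerset]
      exact (Finset.erase_subset _ _).trans (Finset.mem_powerset.mp hW'))
    have hcard : ((W'.erase x).card : ℝ) = (W'.card : ℝ) - 1 := by
      rw [Finset.card_erase_of_mem hx]
      have : 1 ≤ W'.card := Finset.card_pos.mpr ⟨x, hx⟩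
      push_cast [this]
      ring
    have e1 : ∀ z, ∑ y ∈ W', w z y = w z x + ∑ y ∈ W'.erase x, w z y := fun z =>
      (Finset.add_sum_erase W' (w z) hx).symm
    have e2 : ∑ z ∈ W', ∑ y ∈ W', w z y
        = (∑ y ∈ W', w x y) + ∑ z ∈ W'.erase x, ∑ y ∈ W', w z y :=
      (Finset.add_sum_erase W' (fun z => ∑ y ∈ W', w z y) hx).symm
    have e3 : ∑ z ∈ W'.erase x, ∑ y ∈ W', w z y
        = (∑ z ∈ W'.erase x, w z x) + ∑ z ∈ W'.erase x, ∑ y ∈ W'.erase x, w z y := by
      rw [← Finset.sum_add_distrib]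
      exact Finset.sum_congr rfl fun z _ => e1 z
    have e4 : ∑ z ∈ W'.erase x, w z x = ∑ y ∈ W', w x y := by
      rw [e1 x, hdiag x, zero_add]
      exact Finset.sum_congr rfl fun z _ => hsymm z x
    rw [hcard] at h1
    have e5 : α * ((W'.card : ℝ) - 1) ^ 2 = α * (W'.card : ℝ) ^ 2 - 2 * (α * W'.card) + α := by ring
    rw [e5] at h1
    linarith

/-- loss of `y` towards the coordinates before `t` -/
noncomputable def fs {V : Type} {k r : ℕ} (P : V → V → Finset (Fin r)) (t : Fin k) (x : Fin k → V)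
    (y : V) : ℝ := ∑ i ∈ univ.filter (fun i => i < t), ls (P (x i) y)

theorem fs_nonneg {V : Type} {k r : ℕ} (P : V → V → Finset (Fin r)) (t : Fin k) (x : Fin k → V)
    (y : V) : 0 ≤ fs P t x y := Finset.sum_nonneg fun _ _ => ls_nonneg _

theorem update_lt {V : Type} {k : ℕ} (x : Fin k → V) (t : Fin k) (y : V) (j i : Fin k)
    (hjt : j ≤ t) (hi : i < j) : Function.update x t y i = x i := by
  apply Function.update_of_ne
  intro h
  rw [h] at hi
  exact absurd (lt_of_lt_of_le hi hjt) (lt_irrefl _)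

theorem fs_update {V : Type} {k r : ℕ} (P : V → V → Finset (Fin r)) (j : Fin k)
    (x : Fin k → V) (t : Fin k) (y z : V) (hjt : j ≤ t) :
    fs P j (Function.update x t y) z = fs P j x z := by
  unfold fs
  refine Finset.sum_congr rfl fun i hi => ?_
  rw [update_lt x t y j i hjt (Finset.mem_filter.mp hi).2]

theorem fs_zero {V : Type} {k r : ℕ} (P : V → V → Finset (Fin r)) (t : Fin k) (ht : t.val = 0)
    (x : Fin k → V) (y : V) : fs P t x y = 0 := by
  unfold fs
  apply Finset.sum_eq_zero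
  intro i hi
  have := (Finset.mem_filter.mp hi).2
  rw [Fin.lt_def] at this
  omega

theorem sum_fs {V : Type} {k r : ℕ} (P : V → V → Finset (Fin r)) (t : Fin k) (x : Fin k → V)
    (W : Finset V) (c : ℝ) (h : ∀ i, i < t → ∑ y ∈ W, ls (P (x i) y) ≤ c) :
    ∑ y ∈ W, fs P t x y ≤ (t.val : ℝ) * c := by
  unfold fs
  rw [Finset.sum_comm]
  calc ∑ i ∈ univ.filter (fun i => i < t), ∑ y ∈ W, ls (P (x i) y)
      ≤ ∑ i ∈ univ.filter (fun i => i < t), c :=
        Finset.sum_le_sum fun i hi => h i (Finset.mem_filter.mp hi).2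
    _ = (t.val : ℝ) * c := by
        rw [Finset.sum_const, nsmul_eq_mul]
        have : univ.filter (fun i => i < t) = Finset.Iio t := by ext; simp
        rw [this, Fin.card_Iio]

/-- single loss is at most the loss towards the previous coordinates -/
theorem ls_le_fs {V : Type} {k r : ℕ} (P : V → V → Finset (Fin r)) (t i : Fin k) (hi : i < t)
    (x : Fin k → V) (y : V) : ls (P (x i) y) ≤ fs P t x y := by
  unfold fs
  exact Finset.single_le_sum (f := fun i => ls (P (x i) y)) (fun i _ => ls_nonneg _)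
    (by simp [hi] : i ∈ univ.filter (fun i => i < t))

/-- strict greedy tuples can be coloured -/
theorem tuple_strict {k D r : ℕ} {ℓ : ℝ} (hO : Opt k D r ℓ) (Q : Fin k → Fin k → Finset (Fin r))
    (hg : ∀ j : Fin k, 1 ≤ j.val →
      ∑ i ∈ univ.filter (fun i => i < j), ls (Q i j) < (j.val : ℝ) * ℓ) :
    SCol (k.choose 2 + 1 - D) Q := by
  by_contra hcon
  have hk := hO.hk
  have hsing : ∀ i j : Fin k, i < j → ls (Q i j) ≤ ∑ i ∈ univ.filter (fun i => i < j), ls (Q i j) := by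
    intro i j hij
    exact Finset.single_le_sum (f := fun i => ls (Q i j)) (fun i _ => ls_nonneg _)
      (by simp [hij] : i ∈ univ.filter (fun i => i < j))
  have hpos : ∀ i j : Fin k, i < j → 1 ≤ j.val := by
    intro i j hij
    rw [Fin.lt_def] at hij
    omega
  rcases tuple hO Q hcon (by
      intro j
      rcases Nat.eq_zero_or_pos j.val with h | h
      · rw [h, Finset.sum_eq_zero]
        · simp
        · intro i hi
          have := (Finset.mem_filter.mp hi).2
          rw [Fin.lt_def] at this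
          omega
      · exact (hg j h).le) with ⟨h1, i, j, hij, hj, he, _⟩ | ⟨h1, U, hU, hsub⟩ |
        ⟨p, c, _, _, hc2, h4, i, j, hij, hj, hcard, _⟩
  · have h2 := hg j (hpos i j hij)
    have h3 := hsing i j hij
    rw [he, ls_empty, ← h1] at h3
    rw [hj] at h2
    linarith
  · have hlt : (⟨0, by omega⟩ : Fin k) < ⟨1, by omega⟩ := by simp [Fin.lt_def]
    have h2 := hg ⟨1, by omega⟩ le_rfl
    have h3 := hsing _ _ hlt
    have h4 : Real.log r - Real.log ((k.choose 2 - D : ℕ) : ℝ) ≤ ls (Q ⟨0, by omega⟩ ⟨1, by omega⟩) := by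
      unfold ls
      have h5 := Finset.card_le_card (hsub _ _ hlt)
      rw [hU] at h5
      rcases Nat.eq_zero_or_pos (Q ⟨0, by omega⟩ ⟨1, by omega⟩).card with h6 | h6
      · rw [h6]
        simp only [Nat.cast_zero, Real.log_zero]
        have := Real.log_natCast_nonneg (k.choose 2 - D)
        linarith
      · have := log_le h6 h5
        linarith
    simp only [Nat.cast_one, one_mul] at h2
    linarith
  · have h2 := hg j (hpos i j hij)
    have h3 := hsing i j hij
    have h5 : ls (Q i j) = (p : ℝ) * ℓ := by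
      unfold ls; rw [hcard, h4]
    rw [h5] at h3
    rw [hj] at h2
    linarith

/-- number of colourable tuples -/
noncomputable def sc {V : Type} {r : ℕ} (k s : ℕ) (P : V → V → Finset (Fin r)) (W : Finset V) : ℝ :=
  ∑ x ∈ tup k W, ind (SCol s (fun i j => P (x i) (x j)))

theorem sc_nonneg {V : Type} {r : ℕ} (k s : ℕ) (P : V → V → Finset (Fin r)) (W : Finset V) :
    0 ≤ sc k s P W := Finset.sum_nonneg fun _ _ => ind_nonneg _

theorem sc_mono {V : Type} {r : ℕ} (k s : ℕ) (P : V → V → Finset (Fin r)) (W W' : Finset V)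
    (h : W ⊆ W') : sc k s P W ≤ sc k s P W' := by
  unfold sc
  apply Finset.sum_le_sum_of_subset_of_nonneg
  · intro x hx
    rw [mem_tup] at hx ⊢
    exact fun i => h (hx i)
  · intro _ _ _
    exact ind_nonneg _

theorem sum_ind_compl {V : Type} (W : Finset V) (R : V → Prop) :
    ∑ y ∈ W, ind (R y) + ∑ y ∈ W, ind (¬ R y) = W.card := by
  rw [← Finset.sum_add_distrib]
  have : ∀ y ∈ W, ind (R y) + ind (¬ R y) = 1 := fun y _ => by rw [ind_not]; ring
  rw [Finset.sum_congr rfl this]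
  simp

/-- weighted Markov: `c` times the number of bad vertices is at most the sum of `f` -/
theorem mul_sum_ind_le {V : Type} (W : Finset V) (R : V → Prop) (f : V → ℝ) (c : ℝ)
    (h0 : ∀ y ∈ W, 0 ≤ f y) (h : ∀ y ∈ W, R y → c ≤ f y) :
    c * ∑ y ∈ W, ind (R y) ≤ ∑ y ∈ W, f y := by
  rw [Finset.mul_sum]
  refine Finset.sum_le_sum fun y hy => ?_
  by_cases hR : R y
  · rw [ind_pos hR, mul_one]; exact h y hy hR
  · rw [ind_neg hR, mul_zero]; exact h0 y hy

theorem upper (k D r : ℕ) (ℓ : ℝ) (hO : Opt k D r ℓ) (ε : ℝ) (hε : 0 < ε) :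
    ∃ ε' : ℝ, 0 < ε' ∧ ∃ n0 : ℕ, ∀ (V : Type) (P : V → V → Finset (Fin r)),
      (∀ x y, P x y = P y x) → (∀ x, P x x = ∅) → ∀ W : Finset V, n0 ≤ W.card →
      sc k (k.choose 2 + 1 - D) P W ≤ ε' * (W.card : ℝ) ^ k →
      (ℓ - ε) * (W.card : ℝ) ^ 2 ≤ ∑ x ∈ W, ∑ y ∈ W, ls (P x y) := by
  have hk := hO.hk
  have hℓ := hO.pos
  have hLpos := hO.logpos
  set L := Real.log r with hL
  have hℓL : ℓ ≤ L := by
    have h1 := hO.o1
    have h2 : (1 : ℝ) ≤ ((k - 1 : ℕ) : ℝ) := by exact_mod_cast (by omega : 1 ≤ k - 1)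
    nlinarith
  set δ : ℝ := min 1 (ε / (4 * ℓ)) with hδ
  have hδ0 : 0 < δ := lt_min one_pos (by positivity)
  have hδ1 : δ ≤ 1 := min_le_left _ _
  have hδ2 : δ * ℓ ≤ ε / 4 := by
    have := min_le_right 1 (ε / (4 * ℓ))
    rw [← hδ] at this
    rw [le_div_iff₀ (by positivity)] at this
    linarith
  set s : ℝ := Real.sqrt (ε / (2 * L)) with hs
  have hs0 : 0 < s := Real.sqrt_pos.mpr (by positivity)
  have hs2 : s ^ 2 * (2 * L) = ε := by
    rw [hs, Real.sq_sqrt (by positivity)]; field_simp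
  refine ⟨δ ^ k * s ^ k / 2, by positivity, ⌈2 * (L + ε) / (ε * s)⌉₊ + 1, ?_⟩
  intro V P hsymm hdiag W hWn hsc
  by_contra hcon
  push Not at hcon
  set α : ℝ := L - ℓ + ε / 2 with hα
  have hα0 : 0 < α := by linarith
  have hαL : α ≤ L + ε := by linarith
  obtain ⟨W', hW'W, hval, hdeg⟩ := dense_subset (fun x y => L - ls (P x y))
    (fun x y => by rw [hsymm]) (fun x => by rw [hdiag, ls_empty]; ring) W α
  set n : ℝ := (W.card : ℝ) with hn
  set n' : ℝ := (W'.card : ℝ) with hn'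
  have hn1 : (1 : ℝ) ≤ n := by
    rw [hn]; exact_mod_cast (by omega : 1 ≤ W.card)
  have hsumW : ∀ W'' : Finset V, ∑ x ∈ W'', ∑ y ∈ W'', (L - ls (P x y)) =
      L * (W''.card : ℝ) ^ 2 - ∑ x ∈ W'', ∑ y ∈ W'', ls (P x y) := by
    intro W''
    simp only [Finset.sum_sub_distrib, Finset.sum_const, nsmul_eq_mul]
    ring
  rw [hsumW, hsumW, ← hn, ← hn'] at hval
  have hnonneg : 0 ≤ ∑ x ∈ W', ∑ y ∈ W', ls (P x y) :=
    Finset.sum_nonneg fun _ _ => Finset.sum_nonneg fun _ _ => ls_nonneg _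
  -- `n'` is large
  have hn's : s * n ≤ n' := by
    have h1 : ε / 2 * n ^ 2 ≤ L * n' ^ 2 := by
      have h2 : 0 ≤ α * n' ^ 2 := by positivity
      have h3 : α * n ^ 2 = (L - ℓ + ε / 2) * n ^ 2 := rfl
      nlinarith
    have h3 : (s * n) ^ 2 * (2 * L) ≤ n' ^ 2 * (2 * L) := by
      calc (s * n) ^ 2 * (2 * L) = (s ^ 2 * (2 * L)) * n ^ 2 := by ring
        _ = ε * n ^ 2 := by rw [hs2]
        _ ≤ _ := by linarith
    have h4 := le_of_mul_le_mul_right h3 (by positivity)
    exact (abs_le_of_sq_le_sq' h4 (by positivity)).2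
  have hn'0 : 0 < n' := lt_of_lt_of_le (by positivity) hn's
  have hnbig : 2 * (L + ε) ≤ n' * ε := by
    have h1 : 2 * (L + ε) / (ε * s) ≤ n := by
      refine (Nat.le_ceil _).trans ?_
      rw [hn]
      exact_mod_cast (by omega : ⌈2 * (L + ε) / (ε * s)⌉₊ ≤ W.card)
    rw [div_le_iff₀ (by positivity)] at h1
    calc 2 * (L + ε) ≤ n * (ε * s) := h1
      _ = (s * n) * ε := by ring
      _ ≤ n' * ε := mul_le_mul_of_nonneg_right hn's hε.le
  -- losses
  have hloss : ∀ x ∈ W', ∑ y ∈ W', ls (P x y) ≤ (ℓ - ε / 4) * n' := by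
    intro x hx
    have h1 := hdeg x hx
    have h2 : ∑ y ∈ W', (L - ls (P x y)) = L * n' - ∑ y ∈ W', ls (P x y) := by
      rw [Finset.sum_sub_distrib]
      simp only [Finset.sum_const, nsmul_eq_mul]
      rw [hn']; ring
    rw [h2] at h1
    have h4 : α * n' = L * n' - ℓ * n' + ε / 2 * n' := by
      rw [hα]; ring
    rw [h4] at h1
    linarith
  let R : Fin k → (Fin k → V) → V → Prop := fun j x y => j.val = 0 ∨ fs P j x y < (j.val : ℝ) * ℓ
  -- extension
  have htree := tree_ind (J := k) W' 0 (fun _ => True) R δ hδ0.le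
    (fun _ _ _ _ => Iff.rfl) (fun j x t y z hjt => by
      simp only [R]; rw [fs_update P j x t y z hjt]) k (Nat.zero_le _)
    le_rfl (by
      intro x hx _ t _ _ _
      rcases Nat.eq_zero_or_pos t.val with ht | ht
      · have : ∀ y ∈ W', ind (R t x y) = 1 := fun y _ => ind_pos (Or.inl ht)
        rw [Finset.sum_congr rfl this, Finset.sum_const, nsmul_eq_mul, mul_one]
        exact mul_le_of_le_one_left hn'0.le hδ1
      · have htr : (1 : ℝ) ≤ (t.val : ℝ) := by exact_mod_cast ht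
        have h1 := sum_fs P t x W' ((ℓ - ε / 4) * n') (fun i _ => hloss (x i) (mem_tup.mp hx i))
        have h2 := mul_sum_ind_le W' (fun y => ¬ R t x y) (fun y => fs P t x y)
          ((t.val : ℝ) * ℓ) (fun y _ => fs_nonneg P t x y) (fun y _ hy => by
            by_contra hlt
            exact hy (Or.inr (not_le.mp hlt)))
        have h3 := sum_ind_compl W' (fun y => R t x y)
        rw [← hn'] at h3 ⊢
        set g := ∑ y ∈ W', ind (R t x y)
        set b := ∑ y ∈ W', ind (¬ R t x y)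
        have h4 : (t.val : ℝ) * (ℓ * b) ≤ (t.val : ℝ) * ((ℓ - ε / 4) * n') := by
          calc (t.val : ℝ) * (ℓ * b) = (t.val : ℝ) * ℓ * b := by ring
            _ ≤ _ := h2.trans h1
        have h5 := le_of_mul_le_mul_left h4 (by linarith)
        have hb : b = n' - g := by linarith
        rw [hb] at h5
        have h6 : ε / 4 * n' ≤ ℓ * g := by
          have e1 : ℓ * (n' - g) = ℓ * n' - ℓ * g := by ring
          have e2 : (ℓ - ε / 4) * n' = ℓ * n' - ε / 4 * n' := by ring
          rw [e1, e2] at h5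
          linarith
        have h7 : ℓ * (δ * n') ≤ ℓ * g := by
          calc ℓ * (δ * n') = (δ * ℓ) * n' := by ring
            _ ≤ ε / 4 * n' := mul_le_mul_of_nonneg_right hδ2 hn'0.le
            _ ≤ _ := h6
        exact le_of_mul_le_mul_left h7 hℓ)
  have hcount : ∑ x ∈ tup k W', ind True = n' ^ k := by
    rw [Finset.sum_congr rfl (fun x _ => ind_pos trivial), Finset.sum_const, card_tup]
    simp [hn']
  rw [hcount, Nat.sub_zero] at htree
  have hsub : ∑ x ∈ tup k W', ind (True ∧ ∀ j : Fin k, 0 ≤ j.val → j.val < k → R j x (x j)) ≤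
      sc k (k.choose 2 + 1 - D) P W := by
    refine le_trans ?_ (sc_mono k _ P W' W hW'W)
    unfold sc
    refine Finset.sum_le_sum fun x _ => ind_mono ?_
    rintro ⟨_, hR⟩
    apply tuple_strict hO
    intro j hj
    rcases hR j (Nat.zero_le _) j.isLt with h | h
    · omega
    · exact h
  have hfin : δ ^ k * (s * n) ^ k ≤ δ ^ k * s ^ k / 2 * n ^ k := by
    calc δ ^ k * (s * n) ^ k ≤ δ ^ k * n' ^ k := by
          apply mul_le_mul_of_nonneg_left _ (by positivity)
          exact pow_le_pow_left₀ (by positivity) hn's k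
      _ ≤ _ := htree.trans (hsub.trans hsc)
  rw [mul_pow] at hfin
  have hpos : 0 < δ ^ k * s ^ k * n ^ k := by positivity
  have e : δ ^ k * s ^ k / 2 * n ^ k = (δ ^ k * s ^ k * n ^ k) / 2 := by ring
  have e2 : δ ^ k * (s ^ k * n ^ k) = δ ^ k * s ^ k * n ^ k := by ring
  rw [e, e2] at hfin
  linarith

end Pool.Agent.TH477.PA
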