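import Pool.Agent.TH402.J640
import Pool.Agent.TH883.J641

set_option autoImplicit false

namespace Pool.Agent.TH477.PA

open Finset

theorem AC (k D r : ℕ) (ℓ : ℝ) (hO : Opt k D r ℓ) (q : ℕ) (hq : 1 ≤ q) (m : ℕ → ℕ)
    (hm : ∀ j, 1 ≤ j → j ≤ k - 1 → (m j : ℝ) * (Real.log r - Real.log q) ≤ j * ℓ)
    (hmj : ∀ j, m j ≤ j) (hN : q + D ≤ ∑ j ∈ Icc 1 (k - 1), m j) :
    (q + D = k.choose 2 ∧ ℓ = Real.log r - Real.log q ∧ ∀ j, 1 ≤ j → j ≤ k - 1 → m j = j) ∨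
    (∃ p, k ≤ 2 * p ∧ p + q + D = k ∧ 2 ≤ q ∧ (p : ℝ) * ℓ = Real.log r - Real.log q ∧
      ∀ j, 1 ≤ j → j ≤ k - 1 → m j = if j < p then 0 else 1) :=
  Pool.Agent.TH883.J641.J2_AC (fun u hu y h1 h2 N hN m hm hNm =>
    Pool.Agent.TH402.J640.J1_AR u hu y h1 h2 N hN m hm hNm) k D r ℓ hO q hq m hm hmj hN

end Pool.Agent.TH477.PA
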