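import Mathlib

/-!
Colour-rich cliques (Property A): common definitions.
-/

set_option autoImplicit false

namespace Pool.Agent.TH477.PA

open Finset

/-- real valued indicator (no decidability needed) -/
noncomputable def ind (p : Prop) : ℝ := by classical exact if p then 1 else 0

theorem ind_pos {p : Prop} (h : p) : ind p = 1 := by
  classical
  unfold ind; exact if_pos h

theorem ind_neg {p : Prop} (h : ¬ p) : ind p = 0 := by
  classical
  unfold ind; exact if_neg h

theorem ind_nonneg (p : Prop) : 0 ≤ ind p := by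
  by_cases h : p
  · rw [ind_pos h]; norm_num
  · rw [ind_neg h]

theorem ind_le_one (p : Prop) : ind p ≤ 1 := by
  by_cases h : p
  · rw [ind_pos h]
  · rw [ind_neg h]; norm_num

theorem ind_mono {p q : Prop} (h : p → q) : ind p ≤ ind q := by
  by_cases hp : p
  · rw [ind_pos hp, ind_pos (h hp)]
  · rw [ind_neg hp]; exact ind_nonneg q

theorem ind_congr {p q : Prop} (h : p ↔ q) : ind p = ind q := by
  rw [propext h]

theorem ind_or_le (p q : Prop) : ind (p ∨ q) ≤ ind p + ind q := by
  by_cases hp : p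
  · rw [ind_pos (Or.inl hp), ind_pos hp]; linarith [ind_nonneg q]
  · by_cases hq : q
    · rw [ind_pos (Or.inr hq), ind_pos hq]; linarith [ind_nonneg p]
    · rw [ind_neg (by tauto), ind_neg hp, ind_neg hq]; norm_num

theorem ind_and (p q : Prop) : ind (p ∧ q) = ind p * ind q := by
  by_cases hp : p
  · by_cases hq : q
    · rw [ind_pos ⟨hp, hq⟩, ind_pos hp, ind_pos hq]; norm_num
    · rw [ind_neg (fun h => hq h.2), ind_neg hq]; norm_num
  · rw [ind_neg (fun h => hp h.1), ind_neg hp]; norm_num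

theorem ind_not (p : Prop) : ind (¬ p) = 1 - ind p := by
  by_cases hp : p
  · rw [ind_neg (not_not.mpr hp), ind_pos hp]; norm_num
  · rw [ind_pos hp, ind_neg hp]; norm_num

theorem card_filter_ind {α : Type} (s : Finset α) (p : α → Prop) [DecidablePred p] :
    ((s.filter p).card : ℝ) = ∑ x ∈ s, ind (p x) := by
  rw [Finset.card_filter]
  push_cast
  refine Finset.sum_congr rfl fun x _ => ?_
  by_cases h : p x
  · rw [if_pos h, ind_pos h]
  · rw [if_neg h, ind_neg h]

theorem natCard_ind {α : Type} [Fintype α] (p : α → Prop) :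
    (Nat.card {x : α // p x} : ℝ) = ∑ x : α, ind (p x) := by
  classical
  rw [Nat.card_eq_fintype_card, Fintype.card_subtype, card_filter_ind]

/-- number of `r`-colourings of the edges of `G` such that no `k`-clique sees `s` or more colours -/
noncomputable def F {V : Type} (r k s : ℕ) (G : SimpleGraph V) : ℕ :=
  Nat.card {c : G.edgeSet → Fin r //
    ∀ S : Finset V, G.IsNClique k S →
      Set.ncard {i : Fin r | ∃ e : G.edgeSet, (∀ v ∈ (e : Sym2 V), v ∈ S) ∧ c e = i} < s}

/-- maximum of `F` over the graphs with `n` vertices -/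
noncomputable def Fmax (r k s n : ℕ) : ℕ := ⨆ G : SimpleGraph (Fin n), F r k s G

open Classical in
/-- colours of the pairs inside `S` (for a colouring of all pairs, loops included) -/
noncomputable def cols {V : Type} {r : ℕ} (ψ : Sym2 V → Fin r) (S : Finset V) : Finset (Fin r) :=
  S.offDiag.image (fun p => ψ s(p.1, p.2))

/-- the colouring `ψ` of all pairs is good for `G` on the vertex set `U`: no `k`-clique of `G`
inside `U` sees `s` colours -/
def Good {V : Type} {r : ℕ} (k s : ℕ) (G : SimpleGraph V) (U : Set V) (ψ : Sym2 V → Fin r) : Prop :=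
  ∀ S : Finset V, G.IsNClique k S → (∀ v ∈ S, v ∈ U) → (cols ψ S).card < s

/-- the pairs of a `k`-tuple with palettes `Q i j` (`i < j`) can be coloured from the palettes with
at least `s` different colours -/
def SCol {k r : ℕ} (s : ℕ) (Q : Fin k → Fin k → Finset (Fin r)) : Prop :=
  ∃ c : Fin k → Fin k → Fin r, (∀ i j, i < j → c i j ∈ Q i j) ∧
    s ≤ ((univ.filter (fun p : Fin k × Fin k => p.1 < p.2)).image (fun p => c p.1 p.2)).card

/-- density condition: between large subsets (inside `U`) of the classes `i` and `j` the colour `a`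
has density at least `β` -/
def PR {n r : ℕ} (G : SimpleGraph (Fin n)) (A : Finset (Fin r)) (cls : Fin n → ℕ)
    (U : Set (Fin n)) (β δ : ℝ) (ψ : Sym2 (Fin n) → Fin r) : Prop :=
  ∀ i j : ℕ, ∀ X Y : Finset (Fin n), (∀ x ∈ X, x ∈ U ∧ cls x = i) →
    (∀ y ∈ Y, y ∈ U ∧ cls y = j) → δ * n ≤ (X.card : ℝ) → δ * n ≤ (Y.card : ℝ) →
    ∀ a : Fin r, (i ≠ j ∨ a ∈ A) →
    β * X.card * Y.card ≤ ∑ x ∈ X, ∑ y ∈ Y, ind (G.Adj x y ∧ ψ s(x, y) = a)

/-- `ψ` is structured on `U`: `p` classes of nearly equal sizes, nearly all colours inside the classes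
are in `A`, and the density condition holds -/
structure Valid {n r : ℕ} (G : SimpleGraph (Fin n)) (p : ℕ) (A : Finset (Fin r))
    (cls : Fin n → ℕ) (U : Set (Fin n)) (η ε β δ : ℝ) (ψ : Sym2 (Fin n) → Fin r) : Prop where
  lt : ∀ x, cls x < p
  size : ∀ i, i < p → |(∑ x, ind (cls x = i)) - n / p| ≤ η * n
  inside : ∑ x, ∑ y, ind (x ∈ U ∧ y ∈ U ∧ cls x = cls y ∧ G.Adj x y ∧ ψ s(x, y) ∉ A) ≤ ε * n ^ 2
  rich : PR G A cls U β δ ψ

/-- replace the colours of the pairs containing `y` -/
noncomputable def upd {V : Type} {r : ℕ} (y : V) (ψ : Sym2 V → Fin r) (b : V → Fin r) (e : Sym2 V) :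
    Fin r := by
  classical exact if h : y ∈ e then b (Sym2.Mem.other h) else ψ e

/-- `ψ` is perfect of type `(p, A)`: the vertices can be partitioned into `p` classes such that all
edges inside the classes have colours in `A` -/
def Perf {n r : ℕ} (G : SimpleGraph (Fin n)) (p : ℕ) (A : Finset (Fin r))
    (ψ : Sym2 (Fin n) → Fin r) : Prop :=
  ∃ κ : Fin n → ℕ, (∀ x, κ x < p) ∧ ∀ x y, G.Adj x y → κ x = κ y → ψ s(x, y) ∈ A

/-- number of colours inside the classes for `p` classes -/
def ct (k D p : ℕ) : ℕ := if p = 1 then k.choose 2 - D else k - p - D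

/-- `ℓ` is at most the loss of every structure -/
structure Opt (k D r : ℕ) (ℓ : ℝ) : Prop where
  hk : 3 ≤ k
  hD : 1 ≤ D
  hDC : D + 2 ≤ k.choose 2
  hr : k.choose 2 < r + D
  pos : 0 < ℓ
  o1 : ((k - 1 : ℕ) : ℝ) * ℓ ≤ Real.log r
  o2 : ℓ ≤ Real.log r - Real.log ((k.choose 2 - D : ℕ) : ℝ)
  o3 : ∀ p c : ℕ, k ≤ 2 * p → p + c + D = k → 2 ≤ c → (p : ℝ) * ℓ ≤ Real.log r - Real.log (c : ℝ)

/-- the structures whose loss is exactly `ℓ` -/
def IsType (k D r : ℕ) (ℓ : ℝ) (p : ℕ) : Prop :=
  1 ≤ p ∧ p ≤ k - 1 ∧ (p = 1 ∨ (k ≤ 2 * p ∧ (p = k - 1 ∨ 2 ≤ ct k D p))) ∧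
    (p : ℝ) * ℓ = Real.log r - Real.log ((ct k D p : ℕ) : ℝ)

end Pool.Agent.TH477.PA
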