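import Pool.Agent.TH477.PA.Defs

/-!
Good stars.
-/

set_option autoImplicit false

namespace Pool.Agent.TH477.PA

open Finset

/-- the star of `y` is good with respect to the class structure `(p, A, cls)`: there is an own class
`i` such that towards all other classes (towards the only class if `p = 1`) every colour (every
colour of `A` if `p = 1`) occurs often, also inside the large monochromatic neighbourhoods of the
other vertices -/
def GoodStar {n r : ℕ} (G : SimpleGraph (Fin n)) (p : ℕ) (A : Finset (Fin r)) (cls : Fin n → ℕ)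
    (y : Fin n) (a1 a2 a3 : ℝ) (ψ : Sym2 (Fin n) → Fin r) : Prop :=
  ∃ i, i < p ∧ ∀ j, j < p → (p = 1 ∨ j ≠ i) → ∀ a : Fin r, (p = 1 → a ∈ A) →
    a1 * n ≤ ∑ v, ind (cls v = j ∧ G.Adj y v ∧ ψ s(y, v) = a) ∧
    ∀ x, x ≠ y → ∀ c : Fin r,
      a2 * n ≤ ∑ v, ind (cls v = j ∧ v ≠ y ∧ G.Adj x v ∧ ψ s(x, v) = c) →
      a3 * n ≤ ∑ v, ind (cls v = j ∧ G.Adj x v ∧ ψ s(x, v) = c ∧ G.Adj y v ∧ ψ s(y, v) = a)

end Pool.Agent.TH477.PA
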