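import Pool.Agent.TH477.PA.Upper

/-!
Passing to a large subset in which all vertices have almost average loss.
-/

set_option autoImplicit false

namespace Pool.Agent.TH477.PA

open Finset
open Pool.Agent.TH477.RB (tup)

theorem large_subset (k D r : ℕ) (ℓ : ℝ) (hO : Opt k D r ℓ) (η ε3 : ℝ)
    (hη : 0 < η) (hη1 : η ≤ 1) (hε3 : 0 < ε3) (N : ℕ) :
    ∃ ε : ℝ, 0 < ε ∧ ∃ n0 : ℕ, ∀ (V : Type) (P : V → V → Finset (Fin r)),
      (∀ x y, P x y = P y x) → (∀ x, P x x = ∅) → ∀ W0 : Finset V, n0 ≤ W0.card →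
      sc k (k.choose 2 + 1 - D) P W0 ≤ ε * (W0.card : ℝ) ^ k →
      ∑ x ∈ W0, ∑ y ∈ W0, ls (P x y) ≤ (ℓ + ε) * (W0.card : ℝ) ^ 2 →
      ∃ W, W ⊆ W0 ∧ N ≤ W.card ∧ (1 - η) * (W0.card : ℝ) ≤ (W.card : ℝ) ∧
        (∀ x ∈ W, ∑ y ∈ W, ls (P x y) ≤ (ℓ + ε3) * (W.card : ℝ)) ∧
        (ℓ - ε3) * (W.card : ℝ) ^ 2 ≤ ∑ x ∈ W, ∑ y ∈ W, ls (P x y) ∧
        sc k (k.choose 2 + 1 - D) P W ≤ ε3 * (W.card : ℝ) ^ k := by
  have hk := hO.hk
  have hℓ := hO.pos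
  have hLpos := hO.logpos
  set L := Real.log r with hL
  obtain ⟨ε', hε', n1, hU⟩ := upper k D r ℓ hO (ε3 * η / 8) (by positivity)
  set Dn : ℝ := ℓ + ε3 / 2 with hDn
  have hDn0 : 0 < Dn := by positivity
  set c0 : ℝ := Real.sqrt ((ε3 / 4) / Dn) with hc0
  have hc00 : 0 < c0 := Real.sqrt_pos.mpr (by positivity)
  have hc02 : c0 ^ 2 * Dn = ε3 / 4 := by
    rw [hc0, Real.sq_sqrt (by positivity)]
    field_simp
  refine ⟨min (ε3 / 4) (min (ε3 * η / 8) (min (ε' * c0 ^ k) (ε3 * c0 ^ k))), by positivity,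
    ⌈((n1 : ℝ) + N + L / ε3) / c0⌉₊ + 1, ?_⟩
  set ε := min (ε3 / 4) (min (ε3 * η / 8) (min (ε' * c0 ^ k) (ε3 * c0 ^ k))) with hε
  have he1 : ε ≤ ε3 / 4 := min_le_left _ _
  have he2 : ε ≤ ε3 * η / 8 := (min_le_right _ _).trans (min_le_left _ _)
  have he3 : ε ≤ ε' * c0 ^ k := (min_le_right _ _).trans ((min_le_right _ _).trans (min_le_left _ _))
  have he4 : ε ≤ ε3 * c0 ^ k := (min_le_right _ _).trans ((min_le_right _ _).trans (min_le_right _ _))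
  have he0 : 0 < ε := by positivity
  intro V P hsymm hdiag W0 hWn hsc hwt
  set α : ℝ := L - Dn with hα
  obtain ⟨W, hWW, hval, hdeg⟩ := dense_subset (fun x y => L - ls (P x y))
    (fun x y => by rw [hsymm]) (fun x => by rw [hdiag, ls_empty]; ring) W0 α
  set n : ℝ := (W0.card : ℝ) with hn
  set n' : ℝ := (W.card : ℝ) with hn'
  have hn'00 : 0 ≤ n' := by positivity
  have hn1 : (1 : ℝ) ≤ n := by
    rw [hn]; exact_mod_cast (by omega : 1 ≤ W0.card)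
  have hn2 : 0 < n ^ 2 := by positivity
  have hsumW : ∀ W'' : Finset V, ∑ x ∈ W'', ∑ y ∈ W'', (L - ls (P x y)) =
      L * (W''.card : ℝ) ^ 2 - ∑ x ∈ W'', ∑ y ∈ W'', ls (P x y) := by
    intro W''
    simp only [Finset.sum_sub_distrib, Finset.sum_const, nsmul_eq_mul]
    ring
  rw [hsumW, hsumW, ← hn, ← hn'] at hval
  have hnonneg : 0 ≤ ∑ x ∈ W, ∑ y ∈ W, ls (P x y) :=
    Finset.sum_nonneg fun _ _ => Finset.sum_nonneg fun _ _ => ls_nonneg _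
  have hkey : (ε3 / 2 - ε) * n ^ 2 + ∑ x ∈ W, ∑ y ∈ W, ls (P x y) ≤ Dn * n' ^ 2 := by
    have e1 : L * n ^ 2 - (ℓ + ε) * n ^ 2 - α * n ^ 2 = (ε3 / 2 - ε) * n ^ 2 := by
      rw [hα, hDn]; ring
    have e2 : L * n' ^ 2 - α * n' ^ 2 = Dn * n' ^ 2 := by rw [hα]; ring
    linarith
  have hn's : c0 * n ≤ n' := by
    have h1 : ε3 / 4 * n ^ 2 ≤ (ε3 / 2 - ε) * n ^ 2 :=
      mul_le_mul_of_nonneg_right (by linarith) hn2.le
    have h3 : Dn * (c0 * n) ^ 2 ≤ Dn * n' ^ 2 := by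
      calc Dn * (c0 * n) ^ 2 = (c0 ^ 2 * Dn) * n ^ 2 := by ring
        _ = ε3 / 4 * n ^ 2 := by rw [hc02]
        _ ≤ _ := by linarith
    exact (abs_le_of_sq_le_sq' (le_of_mul_le_mul_left h3 hDn0) hn'00).2
  have hn'0 : 0 < n' := lt_of_lt_of_le (by positivity) hn's
  have hnbig : (n1 : ℝ) + N + L / ε3 ≤ n' := by
    have h1 : ((n1 : ℝ) + N + L / ε3) / c0 ≤ n := by
      refine (Nat.le_ceil _).trans ?_
      rw [hn]
      exact_mod_cast (by omega : ⌈((n1 : ℝ) + N + L / ε3) / c0⌉₊ ≤ W0.card)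
    refine le_trans ?_ hn's
    rw [div_le_iff₀ hc00] at h1
    linarith
  have hLe : 0 < L / ε3 := by positivity
  have hn10 : (0 : ℝ) ≤ (n1 : ℝ) := by positivity
  have hN0 : (0 : ℝ) ≤ (N : ℝ) := by positivity
  have hn1' : n1 ≤ W.card := by
    have : (n1 : ℝ) ≤ n' := by linarith
    rw [hn'] at this
    exact_mod_cast this
  have hN' : N ≤ W.card := by
    have : (N : ℝ) ≤ n' := by linarith
    rw [hn'] at this
    exact_mod_cast this
  have hpow : (c0 * n) ^ k ≤ n' ^ k := pow_le_pow_left₀ (by positivity) hn's k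
  have hscW : sc k (k.choose 2 + 1 - D) P W ≤ ε * n ^ k := (sc_mono k _ P W W0 hWW).trans hsc
  have hcond : sc k (k.choose 2 + 1 - D) P W ≤ ε' * n' ^ k := by
    calc _ ≤ ε * n ^ k := hscW
      _ ≤ (ε' * c0 ^ k) * n ^ k := mul_le_mul_of_nonneg_right he3 (by positivity)
      _ = ε' * (c0 * n) ^ k := by rw [mul_pow]; ring
      _ ≤ ε' * n' ^ k := mul_le_mul_of_nonneg_left hpow hε'.le
  have h2 := hU V P hsymm hdiag W hn1' hcond
  rw [← hn'] at h2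
  refine ⟨W, hWW, hN', ?_, ?_, ?_, ?_⟩
  · -- size
    have h3 : (ε3 / 2 - ε3 * η / 8) * n ^ 2 ≤ (ε3 / 2 + ε3 * η / 8) * n' ^ 2 := by
      have h4 : (ε3 / 2 - ε3 * η / 8) * n ^ 2 ≤ (ε3 / 2 - ε) * n ^ 2 :=
        mul_le_mul_of_nonneg_right (by linarith) hn2.le
      have e1 : (ε3 / 2 + ε3 * η / 8) * n' ^ 2 = Dn * n' ^ 2 - (ℓ - ε3 * η / 8) * n' ^ 2 := by
        rw [hDn]; ring
      rw [e1]
      linarith
    have h5 : (1 - η / 4) * n ^ 2 ≤ (1 + η / 4) * n' ^ 2 := by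
      have h6 : ε3 / 2 * ((1 - η / 4) * n ^ 2) ≤ ε3 / 2 * ((1 + η / 4) * n' ^ 2) := by
        calc ε3 / 2 * ((1 - η / 4) * n ^ 2) = (ε3 / 2 - ε3 * η / 8) * n ^ 2 := by ring
          _ ≤ _ := h3
          _ = _ := by ring
      exact le_of_mul_le_mul_left h6 (by positivity)
    have h7 : ((1 - η) * n) ^ 2 ≤ n' ^ 2 := by
      have h8 : (1 + η / 4) * ((1 - η) * n) ^ 2 ≤ (1 + η / 4) * n' ^ 2 := by
        refine le_trans ?_ h5
        have e : (1 + η / 4) * ((1 - η) * n) ^ 2 = ((1 + η / 4) * (1 - η) ^ 2) * n ^ 2 := by ring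
        rw [e]
        apply mul_le_mul_of_nonneg_right _ hn2.le
        nlinarith [mul_nonneg hη.le (sub_nonneg.mpr hη1), mul_nonneg (mul_nonneg hη.le hη.le) (sub_nonneg.mpr hη1)]
      exact le_of_mul_le_mul_left h8 (by positivity)
    exact (abs_le_of_sq_le_sq' h7 hn'00).2
  · intro x hx
    have h1 := hdeg x hx
    have h2 : ∑ y ∈ W, (L - ls (P x y)) = L * n' - ∑ y ∈ W, ls (P x y) := by
      rw [Finset.sum_sub_distrib]
      simp only [Finset.sum_const, nsmul_eq_mul]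
      rw [hn']; ring
    rw [h2] at h1
    have h3 : L ≤ n' * ε3 := by
      have : L / ε3 ≤ n' := by linarith
      rwa [div_le_iff₀ hε3] at this
    have h4 : α * n' = L * n' - (ℓ + ε3 / 2) * n' := by rw [hα, hDn]; ring
    rw [h4] at h1
    have h5 : α ≤ L := by rw [hα]; linarith
    have e1 : (ℓ + ε3) * n' = (ℓ + ε3 / 2) * n' + n' * ε3 / 2 := by ring
    rw [e1]
    linarith
  · refine le_trans ?_ h2
    apply mul_le_mul_of_nonneg_right _ (by positivity)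
    have : ε3 * η / 8 ≤ ε3 := by nlinarith
    linarith
  · calc _ ≤ ε * n ^ k := hscW
      _ ≤ (ε3 * c0 ^ k) * n ^ k := mul_le_mul_of_nonneg_right he4 (by positivity)
      _ = ε3 * (c0 * n) ^ k := by rw [mul_pow]; ring
      _ ≤ ε3 * n' ^ k := mul_le_mul_of_nonneg_left hpow hε3.le

end Pool.Agent.TH477.PA
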