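import Pool.Agent.TH477.PA.Stab
import Pool.Agent.TH477.PA.Defs2
import Pool.Agent.TH114.J642
import Pool.Agent.TH830.J643
import Pool.Agent.TH241.J652
import Pool.Agent.TH511.J678
import Pool.Agent.TH75.J812

/-!
Growth of the maximum number of colourings.
-/

set_option autoImplicit false

namespace Pool.Agent.TH477.PA

open Finset
open Pool.Agent.TH477.RB (tup)

theorem goodStar_mono {n r p : ℕ} {G : SimpleGraph (Fin n)} {A : Finset (Fin r)} {cls : Fin n → ℕ}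
    {y : Fin n} {a1 a2 a3 b1 b2 b3 : ℝ} {ψ : Sym2 (Fin n) → Fin r} (h1 : b1 ≤ a1) (h2 : a2 ≤ b2)
    (h3 : b3 ≤ a3) (h : GoodStar G p A cls y a1 a2 a3 ψ) : GoodStar G p A cls y b1 b2 b3 ψ := by
  have hn : (0 : ℝ) ≤ n := Nat.cast_nonneg n
  obtain ⟨i, hi, H⟩ := h
  refine ⟨i, hi, fun j hj hji a ha => ?_⟩
  obtain ⟨H1, H2⟩ := H j hj hji a ha
  refine ⟨(mul_le_mul_of_nonneg_right h1 hn).trans H1, fun x hx c hc => ?_⟩
  exact (mul_le_mul_of_nonneg_right h3 hn).trans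
    (H2 x hx c ((mul_le_mul_of_nonneg_right h2 hn).trans hc))

theorem pr_mono {n r : ℕ} {G : SimpleGraph (Fin n)} {A : Finset (Fin r)} {cls : Fin n → ℕ}
    {U U' : Set (Fin n)} {β δ : ℝ} {ψ : Sym2 (Fin n) → Fin r} (hU : U ⊆ U')
    (h : PR G A cls U' β δ ψ) : PR G A cls U β δ ψ := by
  intro i j X Y hX hY hX1 hY1 a ha
  exact h i j X Y (fun x hx => ⟨hU (hX x hx).1, (hX x hx).2⟩)
    (fun x hx => ⟨hU (hY x hx).1, (hY x hx).2⟩) hX1 hY1 a ha

theorem valid_mono {n r p : ℕ} {G : SimpleGraph (Fin n)} {A : Finset (Fin r)} {cls : Fin n → ℕ}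
    {U U' : Set (Fin n)} {η ε β δ : ℝ} {ψ : Sym2 (Fin n) → Fin r} (hU : U ⊆ U')
    (h : Valid G p A cls U' η ε β δ ψ) : Valid G p A cls U η ε β δ ψ where
  lt := h.lt
  size := h.size
  inside := by
    refine le_trans (Finset.sum_le_sum fun x _ => Finset.sum_le_sum fun y _ => ind_mono ?_) h.inside
    rintro ⟨h1, h2, h3⟩
    exact ⟨hU h1, hU h2, h3⟩
  rich := pr_mono hU h.rich

theorem upd_pair {n r : ℕ} (y : Fin n) (ψ : Sym2 (Fin n) → Fin r) (b : Fin n → Fin r)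
    {u v : Fin n} (hu : u ≠ y) (hv : v ≠ y) : upd y ψ b s(u, v) = ψ s(u, v) := by
  apply Pool.Agent.TH830.J644.upd_of_notMem
  rw [Sym2.mem_iff]
  rintro (h | h)
  · exact hu h.symm
  · exact hv h.symm

theorem valid_upd {n r p : ℕ} {G : SimpleGraph (Fin n)} {A : Finset (Fin r)} {cls : Fin n → ℕ}
    {η ε β δ : ℝ} {ψ : Sym2 (Fin n) → Fin r} {y : Fin n} (b : Fin n → Fin r) :
    Valid G p A cls {y}ᶜ η ε β δ (upd y ψ b) ↔ Valid G p A cls {y}ᶜ η ε β δ ψ := by
  have key : ∀ φ1 φ2 : Sym2 (Fin n) → Fin r,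
      (∀ u v : Fin n, u ≠ y → v ≠ y → φ1 s(u, v) = φ2 s(u, v)) →
      Valid G p A cls {y}ᶜ η ε β δ φ1 → Valid G p A cls {y}ᶜ η ε β δ φ2 := by
    intro φ1 φ2 he h
    refine ⟨h.lt, h.size, ?_, ?_⟩
    · refine le_trans (le_of_eq ?_) h.inside
      refine Finset.sum_congr rfl fun u _ => Finset.sum_congr rfl fun v _ => ?_
      apply ind_congr
      constructor
      · rintro ⟨h1, h2, h3, h4, h5⟩
        exact ⟨h1, h2, h3, h4, by rw [he u v h1 h2]; exact h5⟩
      · rintro ⟨h1, h2, h3, h4, h5⟩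
        exact ⟨h1, h2, h3, h4, by rw [← he u v h1 h2]; exact h5⟩
    · intro i j X Y hX hY hX1 hY1 a ha
      refine (h.rich i j X Y hX hY hX1 hY1 a ha).trans (le_of_eq ?_)
      refine Finset.sum_congr rfl fun u hu => Finset.sum_congr rfl fun v hv => ?_
      rw [he u v (hX u hu).1 (hY v hv).1]
  constructor
  · exact key _ _ (fun u v hu hv => upd_pair y ψ b hu hv)
  · exact key _ _ (fun u v hu hv => (upd_pair y ψ b hu hv).symm)

/-- lower bound for the maximum from one structure -/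
theorem lower {k D r p : ℕ} {ℓ : ℝ} (hO : Opt k D r ℓ) (hp : IsType k D r ℓ p) :
    ∃ K : ℝ, 0 ≤ K ∧ ∀ n : ℕ, 1 ≤ n →
      Real.exp ((Real.log r - ℓ) / 2 * (n : ℝ) ^ 2 - K * n) ≤
        (Fmax r k (k.choose 2 + 1 - D) n : ℝ) := by
  have hk := hO.hk
  have hr3 := hO.r3
  have hL := hO.logpos
  have hr0 : (0 : ℝ) < r := by exact_mod_cast (by omega : 0 < r)
  by_cases hc : 2 ≤ ct k D p
  · refine ⟨Real.log r / 2, by linarith, fun n hn => ?_⟩
    have hct := hp.ct_lt hO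
    have hp0 : (0 : ℝ) < p := by exact_mod_cast hp.1
    have h1 := Pool.Agent.TH241.J652.J13_lower k D r p (ct k D p) n hk hO.hD (by omega)
      (by omega) (by have := hO.hDC; omega) (by
        rcases Nat.lt_or_ge p 2 with h5 | h5
        · left
          have h6 : p = 1 := by have := hp.1; omega
          refine ⟨h6, ?_⟩
          rw [h6, ct_one]; have := hO.hDC; omega
        · right
          have h6 := ct_of_two_le (k := k) (D := D) h5
          refine ⟨h5, ?_, by omega⟩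
          rcases hp.2.2.1 with h7 | h7
          · omega
          · exact h7.1)
    have h2 : (F r k (k.choose 2 + 1 - D) (⊤ : SimpleGraph (Fin n)) : ℝ) ≤
        (Fmax r k (k.choose 2 + 1 - D) n : ℝ) := by
      exact_mod_cast Pool.Agent.TH830.J644.F_le_Fmax r k _ n ⊤
    refine le_trans (le_of_eq ?_) (h1.trans h2)
    congr 1
    rw [← hp.2.2.2]
    field_simp
    ring
  · have hpk : p = k - 1 := by
      rcases hp.2.2.1 with h7 | ⟨_, h7 | h7⟩
      · exfalso; apply hc; rw [h7, ct_one]; have := hO.hDC; omega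
      · exact h7
      · exact absurd h7 hc
    have hct0 : ct k D p = 0 := by
      rw [ct_of_two_le (by omega)]; have := hO.hD; omega
    have hpl := hp.2.2.2
    rw [hct0, Nat.cast_zero, Real.log_zero, sub_zero] at hpl
    have hp0 : (0 : ℝ) < p := by exact_mod_cast hp.1
    refine ⟨Real.log r * ((p : ℝ) ^ 2 + 2) / 2, by positivity, fun n hn => ?_⟩
    have h1 := Pool.Agent.TH511.J678.turan_lower p n hp.1
    have h2 : (F r k (k.choose 2 + 1 - D) (SimpleGraph.turanGraph n (k - 1)) : ℝ) ≤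
        (Fmax r k (k.choose 2 + 1 - D) n : ℝ) := by
      exact_mod_cast Pool.Agent.TH830.J644.F_le_Fmax r k _ n _
    rw [Pool.Agent.TH511.J655.J15_turan_value k _ r n hk, ← hpk] at h2
    refine le_trans ?_ h2
    push_cast
    rw [← Real.exp_log (pow_pos hr0 _), Real.log_pow]
    apply Real.exp_le_exp.2
    have h3 := mul_le_mul_of_nonneg_right h1 hL.le
    have hn1 : (1 : ℝ) ≤ n := by exact_mod_cast hn
    have h4 : Real.log r * ((p : ℝ) ^ 2 + 2) / 2 * 1 ≤ Real.log r * ((p : ℝ) ^ 2 + 2) / 2 * n :=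
      mul_le_mul_of_nonneg_left hn1 (by positivity)
    have h5 : ℓ = Real.log r / p := by
      rw [eq_div_iff hp0.ne']; linarith
    have h6 : (1 - 1 / (p : ℝ)) * (n : ℝ) ^ 2 * Real.log r =
        (Real.log r - ℓ) * (n : ℝ) ^ 2 := by
      rw [h5]; ring
    nlinarith [h3, h4, h6]

theorem upper' (k D r : ℕ) (ℓ : ℝ) (hO : Opt k D r ℓ) (ε : ℝ) (hε : 0 < ε) :
    ∃ n0 : ℕ, ∀ n, n0 ≤ n →
      (Fmax r k (k.choose 2 + 1 - D) n : ℝ) ≤
        Real.exp (((Real.log r - ℓ) / 2 + ε) * (n : ℝ) ^ 2) := by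
  have hr3 := hO.r3
  have hr0 : (0 : ℝ) < r := by exact_mod_cast (by omega : 0 < r)
  obtain ⟨n0, h⟩ := Pool.Agent.TH75.J812.J23_count_upper k D r ℓ hO
    (fun ε hε => upper k D r ℓ hO ε hε) ε hε
  refine ⟨n0, fun n hn => ?_⟩
  obtain ⟨G, hG⟩ := Pool.Agent.TH830.J643.exists_Fmax r k (k.choose 2 + 1 - D) n
  have h1 := h n hn G
  rw [Pool.Agent.TH830.J644.J5_norm, hG, mul_comm] at h1
  exact le_of_mul_le_mul_left h1 (pow_pos hr0 _)

theorem opt_alpha {k D r : ℕ} {ℓ : ℝ} (hO : Opt k D r ℓ) : 0 ≤ Real.log r - ℓ := by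
  have h1 := hO.o1
  have h2 := hO.pos
  have h3 : (1 : ℝ) ≤ ((k - 1 : ℕ) : ℝ) := by
    have := hO.hk
    exact_mod_cast (by omega : 1 ≤ k - 1)
  have h4 := mul_le_mul_of_nonneg_right h3 h2.le
  linarith

theorem growth (k D r p : ℕ) (ℓ : ℝ) (hO : Opt k D r ℓ) (hp : IsType k D r ℓ p) (γ : ℝ)
    (hγ : 0 < γ) :
    ∃ n0 : ℕ, ∀ n, n0 ≤ n →
      (Fmax r k (k.choose 2 + 1 - D) (n - 1) : ℝ) * Real.exp ((Real.log r - ℓ - γ) * n) ≤
        (Fmax r k (k.choose 2 + 1 - D) n : ℝ) := by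
  have hr3 := hO.r3
  have hk := hO.hk
  have hpos : ∀ n, (0 : ℝ) < (Fmax r k (k.choose 2 + 1 - D) n : ℝ) := by
    intro n
    have := Pool.Agent.TH830.J643.Fmax_pos r k (k.choose 2 + 1 - D) n (Or.inl (by omega))
    exact_mod_cast this
  obtain ⟨K, hK, hlow⟩ := lower hO hp
  obtain ⟨n0, h⟩ := Pool.Agent.TH114.J642.J3_growth
    (fun n => Real.log (Fmax r k (k.choose 2 + 1 - D) n : ℝ)) (by
      intro n hn
      have h1 := Pool.Agent.TH830.J643.J4_convex r k (k.choose 2 + 1 - D) n hn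
      have h2 : ((Fmax r k (k.choose 2 + 1 - D) n : ℝ)) ^ 2 ≤
          (Fmax r k (k.choose 2 + 1 - D) (n - 1) : ℝ) *
            (Fmax r k (k.choose 2 + 1 - D) (n + 1) : ℝ) := by exact_mod_cast h1
      have h3 := Real.log_le_log (pow_pos (hpos n) 2) h2
      rw [Real.log_pow, Real.log_mul (hpos _).ne' (hpos _).ne'] at h3
      push_cast at h3
      exact h3) (Real.log r - ℓ) K (opt_alpha hO) (by
      intro ε hε
      obtain ⟨n1, h1⟩ := upper' k D r ℓ hO ε hε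
      refine ⟨n1, fun n hn => ?_⟩
      have h2 := Real.log_le_log (hpos n) (h1 n hn)
      rwa [Real.log_exp] at h2) ⟨1, fun n hn => by
      have h2 := Real.log_le_log (Real.exp_pos _) (hlow n hn)
      rwa [Real.log_exp] at h2⟩ γ hγ
  refine ⟨n0, fun n hn => ?_⟩
  have h1 := h n hn
  rw [← Real.log_le_log_iff (mul_pos (hpos _) (Real.exp_pos _)) (hpos _),
    Real.log_mul (hpos _).ne' (Real.exp_pos _).ne', Real.log_exp]
  linarith

end Pool.Agent.TH477.PA
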