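import Pool.Agent.TH477.PA.Main1
import Pool.Agent.TH75.J813
import Pool.Agent.TH499.J810
import Pool.Agent.TH830.J811
import Pool.Agent.TH830.J654
import Pool.Agent.TH883.J646

/-!
The main theorem.
-/

set_option autoImplicit false

namespace Pool.Agent.TH477.PA

open Finset

/-- The canonical structure specification -/
def Spec {n : ℕ} (k D r : ℕ) (ℓ : ℝ) (G : SimpleGraph (Fin n)) (U : Set (Fin n)) (η ε β δ : ℝ)
    (ψ : Sym2 (Fin n) → Fin r) (t : ℕ × Finset (Fin r) × (Fin n → ℕ)) : Prop :=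
  IsType k D r ℓ t.1 ∧ t.2.1.card = ct k D t.1 ∧ Valid G t.1 t.2.1 t.2.2 U η ε β δ ψ

theorem spec_upd {n k D r : ℕ} {ℓ : ℝ} {G : SimpleGraph (Fin n)} {y : Fin n} {η ε β δ : ℝ}
    {ψ : Sym2 (Fin n) → Fin r} {t : ℕ × Finset (Fin r) × (Fin n → ℕ)} (b : Fin n → Fin r) :
    Spec k D r ℓ G {y}ᶜ η ε β δ (upd y ψ b) t ↔ Spec k D r ℓ G {y}ᶜ η ε β δ ψ t := by
  unfold Spec
  rw [valid_upd]

/-- constants -/
theorem consts (k D r : ℕ) (ℓ : ℝ) (hO : Opt k D r ℓ)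
    (hBad : ∀ p, IsType k D r ℓ p →
    ∃ δ1 δ2 : ℝ, 0 < δ1 ∧ 0 < δ2 ∧ ∀ β : ℝ, 0 < β → β ≤ 1 →
    ∃ δ0 η0 γ : ℝ, 0 < δ0 ∧ 0 < η0 ∧ 0 < γ ∧ ∃ n0 : ℕ, ∀ n, n0 ≤ n →
    ∀ (G : SimpleGraph (Fin n)) (y : Fin n) (A : Finset (Fin r)) (cls : Fin n → ℕ) (η ε δ : ℝ)
      (ψ : Sym2 (Fin n) → Fin r), A.card = ct k D p → η ≤ η0 → 0 < δ → δ ≤ δ0 →
      Valid G p A cls {y}ᶜ η ε β δ ψ → Good k (k.choose 2 + 1 - D) G {y}ᶜ ψ →
      ∑ b : Fin n → Fin r, ind (Good k (k.choose 2 + 1 - D) G Set.univ (upd y ψ b) ∧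
        ¬ GoodStar G p A cls y δ1 (δ1 / 2) δ2 (upd y ψ b)) ≤
        (r : ℝ) ^ (n - Nat.card {v // G.Adj y v}) * Real.exp ((Real.log r - ℓ - γ) * n))
    (β : ℝ) (hβ : 0 < β) (hβ1 : β ≤ 1) :
    ∃ (d1 d2 : ℕ → ℝ) (η δ γ : ℝ), (∀ p, 0 < d1 p ∧ 0 < d2 p) ∧ 0 < η ∧ 0 < δ ∧ 0 < γ ∧
      η ≤ 1 / (8 * k) ∧ δ ≤ 1 / (8 * k ^ 2) ∧
      (∀ p, p < k → 2 * k * δ ≤ d1 p / 8 ∧ 2 * k * δ ≤ d2 p / 2) ∧
      ∃ n0 : ℕ, ∀ n, n0 ≤ n → ∀ p, IsType k D r ℓ p → ∀ (G : SimpleGraph (Fin n))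
        (A : Finset (Fin r)) (cls : Fin n → ℕ) (ε : ℝ) (ψ : Sym2 (Fin n) → Fin r),
        A.card = ct k D p →
        (∀ y : Fin n, Valid G p A cls {y}ᶜ η ε β δ ψ → Good k (k.choose 2 + 1 - D) G {y}ᶜ ψ →
        ∑ b : Fin n → Fin r, ind (Good k (k.choose 2 + 1 - D) G Set.univ (upd y ψ b) ∧
        ¬ GoodStar G p A cls y (d1 p) (d1 p / 2) (d2 p) (upd y ψ b)) ≤
        (r : ℝ) ^ (n - Nat.card {v // G.Adj y v}) * Real.exp ((Real.log r - ℓ - γ) * n)) ∧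
        ((∀ x, cls x < p) → Good k (k.choose 2 + 1 - D) G Set.univ ψ →
          PR G A cls Set.univ β δ ψ →
          (∀ y, GoodStar G p A cls y (7 / 8 * d1 p) (5 / 8 * d1 p) (d2 p / 2) ψ) →
          Perf G p A ψ) := by
  have hk3 := hO.hk
  have hk0 : (0 : ℝ) < k := by exact_mod_cast (by omega : 0 < k)
  have h1 : ∀ p : ℕ, ∃ δ1 δ2 : ℝ, 0 < δ1 ∧ 0 < δ2 ∧ ∃ δ0 η0 γ : ℝ, 0 < δ0 ∧ 0 < η0 ∧ 0 < γ ∧
      ∃ n0 : ℕ, IsType k D r ℓ p → ∀ n, n0 ≤ n →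
      ∀ (G : SimpleGraph (Fin n)) (A : Finset (Fin r)) (cls : Fin n → ℕ) (η ε δ : ℝ)
      (ψ : Sym2 (Fin n) → Fin r), A.card = ct k D p → η ≤ η0 → 0 < δ → δ ≤ δ0 →
      (∀ y : Fin n, Valid G p A cls {y}ᶜ η ε β δ ψ → Good k (k.choose 2 + 1 - D) G {y}ᶜ ψ →
        ∑ b : Fin n → Fin r, ind (Good k (k.choose 2 + 1 - D) G Set.univ (upd y ψ b) ∧
        ¬ GoodStar G p A cls y δ1 (δ1 / 2) δ2 (upd y ψ b)) ≤
        (r : ℝ) ^ (n - Nat.card {v // G.Adj y v}) * Real.exp ((Real.log r - ℓ - γ) * n)) ∧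
        ((∀ x, cls x < p) → Good k (k.choose 2 + 1 - D) G Set.univ ψ →
          PR G A cls Set.univ β δ ψ →
          (∀ y, GoodStar G p A cls y (7 / 8 * δ1) (5 / 8 * δ1) (δ2 / 2) ψ) → Perf G p A ψ) := by
    intro p
    by_cases hp : IsType k D r ℓ p
    · obtain ⟨δ1, δ2, hδ1, hδ2, H⟩ := hBad p hp
      obtain ⟨δ0, η0, γ, hδ0, hη0, hγ, n0, H⟩ := H β hβ hβ1
      obtain ⟨δE, hδE, nE, HE⟩ := Pool.Agent.TH499.J810.J21_exact k D r p ℓ hO hp β (7 / 8 * δ1)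
        (5 / 8 * δ1) (δ2 / 2) hβ hβ1 (by linarith) (by linarith) (by linarith)
      refine ⟨δ1, δ2, hδ1, hδ2, min δ0 δE, η0, γ, lt_min hδ0 hδE, hη0, hγ, max n0 nE, ?_⟩
      intro _ n hn G A cls η ε δ ψ hA hη hδ hδ'
      constructor
      · intro y hV hG
        exact H n ((le_max_left _ _).trans hn) G y A cls η ε δ ψ hA hη hδ
          (hδ'.trans (min_le_left _ _)) hV hG
      · intro hc hG hPR hst
        exact HE n ((le_max_right _ _).trans hn) G A cls δ ψ hA hc hδ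
          (hδ'.trans (min_le_right _ _)) hG hPR hst
    · exact ⟨1, 1, one_pos, one_pos, 1, 1, 1, one_pos, one_pos, one_pos, 0, fun h => absurd h hp⟩
  choose d1 d2 hd1 hd2 e0 η0 γ0 he0 hη0 hγ0 m0 H using h1
  obtain ⟨δ, hδ, hδle⟩ := exists_pos_le k
    (fun p => min (min (e0 p) (1 / (8 * (k : ℝ) ^ 2))) (min (d1 p / 8) (d2 p / 2) / (2 * k)))
    (fun p => lt_min (lt_min (he0 p) (by positivity))
      (div_pos (lt_min (by linarith [hd1 p]) (by linarith [hd2 p])) (by positivity)))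
  obtain ⟨η, hη, hηle⟩ := exists_pos_le k (fun p => min (η0 p) (1 / (8 * (k : ℝ))))
    (fun p => lt_min (hη0 p) (by positivity))
  obtain ⟨γ, hγ, hγle⟩ := exists_pos_le k γ0 hγ0
  have hk' : 0 < k := by omega
  refine ⟨d1, d2, η, δ, γ, fun p => ⟨hd1 p, hd2 p⟩, hη, hδ, hγ,
    (hηle 0 hk').trans (min_le_right _ _),
    (hδle 0 hk').trans ((min_le_left _ _).trans (min_le_right _ _)), ?_,
    (Finset.range k).sup m0, ?_⟩
  · intro p hp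
    have h1 := (hδle p hp).trans (min_le_right _ _)
    rw [le_div_iff₀ (by positivity)] at h1
    have h2 : 2 * (k : ℝ) * δ ≤ min (d1 p / 8) (d2 p / 2) := by linarith
    exact ⟨h2.trans (min_le_left _ _), h2.trans (min_le_right _ _)⟩
  · intro n hn p hp G A cls ε ψ hA
    have hpk : p < k := by have := hp.2.1; omega
    have hm : m0 p ≤ n := (Finset.le_sup (f := m0) (Finset.mem_range.mpr hpk)).trans hn
    obtain ⟨Ha, Hb⟩ := H p hp n hm G A cls η ε δ ψ hA ((hηle p hpk).trans (min_le_left _ _)) hδ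
      ((hδle p hpk).trans ((min_le_left _ _).trans (min_le_left _ _)))
    refine ⟨?_, Hb⟩
    intro y hV hG
    refine (Ha y hV hG).trans ?_
    refine mul_le_mul_of_nonneg_left ?_ (pow_nonneg (Nat.cast_nonneg _) _)
    apply Real.exp_le_exp.2
    refine mul_le_mul_of_nonneg_right ?_ (Nat.cast_nonneg _)
    linarith [hγle p hpk]

end Pool.Agent.TH477.PA
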