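import Pool.Agent.TH477.PA.Main2

/-!
The main theorem.
-/

set_option autoImplicit false

namespace Pool.Agent.TH477.PA

open Finset

theorem agree {n k D r p : ℕ} {ℓ : ℝ} (hO : Opt k D r ℓ) (hp : IsType k D r ℓ p)
    {G : SimpleGraph (Fin n)} {A : Finset (Fin r)} {cls : Fin n → ℕ} {η ε β δ : ℝ}
    {ψ : Sym2 (Fin n) → Fin r} {y : Fin n} {t : ℕ × Finset (Fin r) × (Fin n → ℕ)}
    {d1 d2 : ℕ → ℝ} (hβ : 0 < β) (hδ : 0 < δ) (hη : η ≤ 1 / (8 * k))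
    (hδ1 : δ ≤ 1 / (8 * k ^ 2))
    (hd : ∀ p, p < k → 2 * k * δ ≤ d1 p / 8 ∧ 2 * k * δ ≤ d2 p / 2)
    (hε : ε < β * δ ^ 2) (hn : 2 ≤ δ * n) (hA : A.card = ct k D p)
    (hV : Valid G p A cls Set.univ η ε β δ ψ) (ht : Spec k D r ℓ G {y}ᶜ η ε β δ ψ t)
    (hst : GoodStar G t.1 t.2.1 t.2.2 y (d1 t.1) (d1 t.1 / 2) (d2 t.1) ψ) :
    GoodStar G p A cls y (7 / 8 * d1 p) (5 / 8 * d1 p) (d2 p / 2) ψ := by
  have hk3 := hO.hk
  obtain ⟨p', A', cls'⟩ := t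
  obtain ⟨hp', hA', hV'⟩ := ht
  have hAu : A ≠ univ := by
    intro h
    rw [h, Finset.card_univ, Fintype.card_fin] at hA
    have := hp.ct_lt hO
    omega
  have hAu' : A' ≠ univ := by
    intro h
    change A'.card = ct k D p' at hA'
    rw [h, Finset.card_univ, Fintype.card_fin] at hA'
    have := IsType.ct_lt hO hp'
    change ct k D p' < r at this
    omega
  have hU : ∑ x : Fin n, ind (x ∉ ({y}ᶜ : Set (Fin n))) ≤ 1 := by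
    rw [Finset.sum_eq_single y]
    · exact ind_le_one _
    · intro x _ hx
      apply ind_neg
      rw [not_not]
      exact hx
    · intro h; exact absurd (Finset.mem_univ y) h
  obtain ⟨h1, h2, π, h3, h4, h5⟩ := Pool.Agent.TH883.J646.J7_agree k (by omega) hp.1
    (by have := hp.2.1; omega) hp'.1 (by have := hp'.2.1; change p' ≤ k - 1 at this; omega) G A A'
    hAu hAu' cls cls' {y}ᶜ hU η ε β δ hβ hδ hη hδ1 hε hn ψ (valid_mono (Set.subset_univ _) hV) hV'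
  change GoodStar G p' A' cls' y (d1 p') (d1 p' / 2) (d2 p') ψ at hst
  subst h1
  subst h2
  have h6 := Pool.Agent.TH830.J811.J22_transfer G A cls cls' π y (d1 p) (d1 p / 2) (d2 p)
    (2 * k * δ) ψ h3 h4 h5 hst
  obtain ⟨h7, h8⟩ := hd p (by have := hp.2.1; omega)
  exact goodStar_mono (by linarith) (by linarith) (by linarith) h6

/-- The star of `y` is bad with respect to the canonical structure -/
def BadS {n : ℕ} (k D r : ℕ) (ℓ : ℝ) (G : SimpleGraph (Fin n)) (η ε β δ : ℝ) (d1 d2 : ℕ → ℝ)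
    (b0 : Fin n → Fin r)
    (st : Fin n → (Sym2 (Fin n) → Fin r) → ℕ × Finset (Fin r) × (Fin n → ℕ)) (y : Fin n)
    (ψ : Sym2 (Fin n) → Fin r) : Prop :=
  (∃ t, Spec k D r ℓ G {y}ᶜ η ε β δ ψ t) ∧ Good k (k.choose 2 + 1 - D) G Set.univ ψ ∧
    ¬ GoodStar G (st y (upd y ψ b0)).1 (st y (upd y ψ b0)).2.1 (st y (upd y ψ b0)).2.2 y
      (d1 (st y (upd y ψ b0)).1) (d1 (st y (upd y ψ b0)).1 / 2) (d2 (st y (upd y ψ b0)).1) ψ

theorem bad_count {n k D r : ℕ} {ℓ : ℝ} (hO : Opt k D r ℓ) (G : SimpleGraph (Fin n))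
    (η ε β δ γ : ℝ) (d1 d2 : ℕ → ℝ) (b0 : Fin n → Fin r)
    (st : Fin n → (Sym2 (Fin n) → Fin r) → ℕ × Finset (Fin r) × (Fin n → ℕ))
    (hst : ∀ y ψ, (∃ t, Spec k D r ℓ G {y}ᶜ η ε β δ ψ t) → Spec k D r ℓ G {y}ᶜ η ε β δ ψ (st y ψ))
    (H : ∀ p, IsType k D r ℓ p → ∀ (G : SimpleGraph (Fin n))
        (A : Finset (Fin r)) (cls : Fin n → ℕ) (ε : ℝ) (ψ : Sym2 (Fin n) → Fin r),
        A.card = ct k D p →
        (∀ y : Fin n, Valid G p A cls {y}ᶜ η ε β δ ψ → Good k (k.choose 2 + 1 - D) G {y}ᶜ ψ →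
        ∑ b : Fin n → Fin r, ind (Good k (k.choose 2 + 1 - D) G Set.univ (upd y ψ b) ∧
        ¬ GoodStar G p A cls y (d1 p) (d1 p / 2) (d2 p) (upd y ψ b)) ≤
        (r : ℝ) ^ (n - Nat.card {v // G.Adj y v}) * Real.exp ((Real.log r - ℓ - γ) * n)))
    (y : Fin n) :
    ∑ ψ : Sym2 (Fin n) → Fin r, ind (Good k (k.choose 2 + 1 - D) G Set.univ ψ ∧
      BadS k D r ℓ G η ε β δ d1 d2 b0 st y ψ) ≤
      (Fmax r k (k.choose 2 + 1 - D) (n - 1) : ℝ) * Real.exp ((Real.log r - ℓ - γ) * n) *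
        (r : ℝ) ^ (Fintype.card (Sym2 (Fin n)) - Nat.card G.edgeSet) := by
  have hr3 := hO.r3
  refine Pool.Agent.TH830.J644.J5_del r k (k.choose 2 + 1 - D) n (by omega) G y _
    (Real.exp ((Real.log r - ℓ - γ) * n)) (Real.exp_pos _).le ?_
  intro ψ hψ
  by_cases hC : ∃ t, Spec k D r ℓ G {y}ᶜ η ε β δ ψ t
  · have hC' : ∃ t, Spec k D r ℓ G {y}ᶜ η ε β δ (upd y ψ b0) t := by
      obtain ⟨t, ht⟩ := hC
      exact ⟨t, (spec_upd b0).mpr ht⟩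
    obtain ⟨h1, h2, h3⟩ := hst y _ hC'
    refine le_trans (Finset.sum_le_sum fun b _ => ?_) (H _ h1 G _ _ ε ψ h2 y (valid_upd b0 |>.mp h3) hψ)
    apply ind_mono
    rintro ⟨_, h5, h6⟩
    refine ⟨h5, ?_⟩
    rw [Pool.Agent.TH830.J644.upd_upd] at h6
    exact h6
  · rw [Finset.sum_eq_zero]
    · exact mul_nonneg (pow_nonneg (Nat.cast_nonneg _) _) (Real.exp_pos _).le
    · intro b _
      apply ind_neg
      rintro ⟨⟨t, ht⟩, _⟩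
      exact hC ⟨t, (spec_upd b).mp ht⟩

/-- all good colourings are accounted for -/
theorem cover {n k D r : ℕ} {ℓ : ℝ} (hO : Opt k D r ℓ) (G : SimpleGraph (Fin n))
    (η ε β δ : ℝ) (d1 d2 : ℕ → ℝ) (b0 : Fin n → Fin r)
    (st : Fin n → (Sym2 (Fin n) → Fin r) → ℕ × Finset (Fin r) × (Fin n → ℕ))
    (hst : ∀ y ψ, (∃ t, Spec k D r ℓ G {y}ᶜ η ε β δ ψ t) → Spec k D r ℓ G {y}ᶜ η ε β δ ψ (st y ψ))
    (hβ : 0 < β) (hδ : 0 < δ) (hη : η ≤ 1 / (8 * k))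
    (hδ1 : δ ≤ 1 / (8 * k ^ 2))
    (hd : ∀ p, p < k → 2 * k * δ ≤ d1 p / 8 ∧ 2 * k * δ ≤ d2 p / 2)
    (hε : ε < β * δ ^ 2) (hn : 2 ≤ δ * n)
    (H : ∀ p, IsType k D r ℓ p → ∀ (G : SimpleGraph (Fin n))
        (A : Finset (Fin r)) (cls : Fin n → ℕ) (ψ : Sym2 (Fin n) → Fin r),
        A.card = ct k D p → (∀ x, cls x < p) → Good k (k.choose 2 + 1 - D) G Set.univ ψ →
          PR G A cls Set.univ β δ ψ →
          (∀ y, GoodStar G p A cls y (7 / 8 * d1 p) (5 / 8 * d1 p) (d2 p / 2) ψ) →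
          Perf G p A ψ)
    (ψ : Sym2 (Fin n) → Fin r) (hg : Good k (k.choose 2 + 1 - D) G Set.univ ψ)
    (hv : ∃ (p : ℕ) (A : Finset (Fin r)) (cls : Fin n → ℕ), IsType k D r ℓ p ∧
          A.card = ct k D p ∧ Valid G p A cls Set.univ η ε β δ ψ)
    (hb : ∀ y, ¬ BadS k D r ℓ G η ε β δ d1 d2 b0 st y ψ) :
    ∃ (p : ℕ) (A : Finset (Fin r)), IsType k D r ℓ p ∧ A.card = ct k D p ∧ Perf G p A ψ := by
  obtain ⟨p, A, cls, hp, hA, hV⟩ := hv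
  refine ⟨p, A, hp, hA, H p hp G A cls ψ hA hV.lt hg hV.rich ?_⟩
  intro y
  have hC : ∃ t, Spec k D r ℓ G {y}ᶜ η ε β δ ψ t :=
    ⟨(p, A, cls), hp, hA, valid_mono (Set.subset_univ _) hV⟩
  have hC' : ∃ t, Spec k D r ℓ G {y}ᶜ η ε β δ (upd y ψ b0) t := by
    obtain ⟨t, ht⟩ := hC
    exact ⟨t, (spec_upd b0).mpr ht⟩
  have hs := (spec_upd b0).mp (hst y _ hC')
  have h1 := hb y
  unfold BadS at h1
  have h2 : GoodStar G (st y (upd y ψ b0)).1 (st y (upd y ψ b0)).2.1 (st y (upd y ψ b0)).2.2 y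
      (d1 (st y (upd y ψ b0)).1) (d1 (st y (upd y ψ b0)).1 / 2) (d2 (st y (upd y ψ b0)).1) ψ := by
    by_contra h3
    exact h1 ⟨hC, hg, h3⟩
  exact agree hO hp hβ hδ hη hδ1 hd hε hn hA hV hs h2

/-- elementary estimates -/
theorem small1 (γ : ℝ) (hγ : 0 < γ) : ∃ n0 : ℕ, ∀ n : ℕ, n0 ≤ n →
    (n : ℝ) * Real.exp (-(γ * n)) ≤ 1 / 4 := by
  refine ⟨⌈8 / γ ^ 2⌉₊ + 1, fun n hn => ?_⟩
  have h1 : (8 / γ ^ 2 : ℝ) ≤ n := by
    have h2 : (8 / γ ^ 2 : ℝ) ≤ ((⌈8 / γ ^ 2⌉₊ : ℕ) : ℝ) := Nat.le_ceil _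
    have h3 : ((⌈8 / γ ^ 2⌉₊ : ℕ) : ℝ) + 1 ≤ n := by exact_mod_cast hn
    linarith
  rw [div_le_iff₀ (by positivity)] at h1
  have h2 : (γ * n) ^ 2 / 2 ≤ Real.exp (γ * n) := by
    have h3 := Real.quadratic_le_exp_of_nonneg (x := γ * n) (by positivity)
    have h4 : 0 ≤ γ * n := by positivity
    linarith
  rw [Real.exp_neg, ← div_eq_mul_inv, div_le_div_iff₀ (Real.exp_pos _) (by norm_num)]
  have h3 : (0 : ℝ) ≤ n := Nat.cast_nonneg n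
  nlinarith [mul_le_mul_of_nonneg_left h1 h3]

theorem small2 (c K : ℝ) (hc : 0 < c) : ∃ n0 : ℕ, ∀ n : ℕ, n0 ≤ n →
    Real.exp (-(c * (n : ℝ) ^ 2) + K * n) < 1 / 4 := by
  refine ⟨⌈(K + 3) / c⌉₊ + 1, fun n hn => ?_⟩
  have h1 : ((K + 3) / c : ℝ) ≤ n := by
    have h2 : ((K + 3) / c : ℝ) ≤ ((⌈(K + 3) / c⌉₊ : ℕ) : ℝ) := Nat.le_ceil _
    have h3 : ((⌈(K + 3) / c⌉₊ : ℕ) : ℝ) + 1 ≤ n := by exact_mod_cast hn
    linarith
  have hn1 : (1 : ℝ) ≤ n := by exact_mod_cast (by omega : 1 ≤ n)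
  rw [div_le_iff₀ hc] at h1
  have h2 : -(c * (n : ℝ) ^ 2) + K * n ≤ -3 := by nlinarith
  have h3 : Real.exp (-(c * (n : ℝ) ^ 2) + K * n) ≤ Real.exp (-3) := Real.exp_le_exp.2 h2
  refine lt_of_le_of_lt h3 ?_
  rw [Real.exp_neg, one_div]
  apply inv_strictAnti₀ (by norm_num)
  have h4 := Real.quadratic_le_exp_of_nonneg (x := 3) (by norm_num)
  norm_num at h4
  linarith

end Pool.Agent.TH477.PA
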