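import Pool.Agent.TH477.PA.Main3

/-!
The main theorem.
-/

set_option autoImplicit false

namespace Pool.Agent.TH477.PA

open Finset

theorem main_thm (k D r : ℕ) (ℓ : ℝ) (hO : Opt k D r ℓ) (hT : ∃ p, IsType k D r ℓ p)
    (hBad : ∀ p, IsType k D r ℓ p →
    ∃ δ1 δ2 : ℝ, 0 < δ1 ∧ 0 < δ2 ∧ ∀ β : ℝ, 0 < β → β ≤ 1 →
    ∃ δ0 η0 γ : ℝ, 0 < δ0 ∧ 0 < η0 ∧ 0 < γ ∧ ∃ n0 : ℕ, ∀ n, n0 ≤ n →
    ∀ (G : SimpleGraph (Fin n)) (y : Fin n) (A : Finset (Fin r)) (cls : Fin n → ℕ) (η ε δ : ℝ)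
      (ψ : Sym2 (Fin n) → Fin r), A.card = ct k D p → η ≤ η0 → 0 < δ → δ ≤ δ0 →
      Valid G p A cls {y}ᶜ η ε β δ ψ → Good k (k.choose 2 + 1 - D) G {y}ᶜ ψ →
      ∑ b : Fin n → Fin r, ind (Good k (k.choose 2 + 1 - D) G Set.univ (upd y ψ b) ∧
        ¬ GoodStar G p A cls y δ1 (δ1 / 2) δ2 (upd y ψ b)) ≤
        (r : ℝ) ^ (n - Nat.card {v // G.Adj y v}) * Real.exp ((Real.log r - ℓ - γ) * n)) :
    ∃ n0 : ℕ, ∀ n, n0 ≤ n → ∀ G : SimpleGraph (Fin n),
      (∀ H : SimpleGraph (Fin n), F r k (k.choose 2 + 1 - D) H ≤ F r k (k.choose 2 + 1 - D) G) →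
      (G = ⊤ ∧ ∑ ψ : Sym2 (Fin n) → Fin r, ind (Good k (k.choose 2 + 1 - D) G Set.univ ψ) <
        2 * ∑ ψ : Sym2 (Fin n) → Fin r, ind (∃ (p : ℕ) (A : Finset (Fin r)),
          IsType k D r ℓ p ∧ p ≠ k - 1 ∧ A.card = ct k D p ∧ Perf G p A ψ)) ∨
      (Nonempty (G ≃g SimpleGraph.turanGraph n (k - 1)) ∧
        ((k - 1 : ℕ) : ℝ) * ℓ = Real.log r) := by
  have hk3 := hO.hk
  have hr3 := hO.r3
  have hD1 := hO.hD
  have hDC := hO.hDC
  have hr0 : (0 : ℝ) < r := by exact_mod_cast (by omega : 0 < r)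
  obtain ⟨p0, hp0⟩ := hT
  obtain ⟨β, hβ, hβ1, hVal⟩ := Pool.Agent.TH75.J813.J24_valid_count k D r ℓ hO
    (fun η hη => stability k D r ℓ hO η hη) (fun ε hε => upper k D r ℓ hO ε hε)
  obtain ⟨d1, d2, η, δ, γ, hd12, hη, hδ, hγ, hη8, hδ8, hd, n1, Hc⟩ :=
    consts k D r ℓ hO hBad β hβ hβ1
  obtain ⟨ε, hεdef⟩ : ∃ ε : ℝ, ε = β * δ ^ 2 / 2 := ⟨_, rfl⟩
  have hε : 0 < ε := by rw [hεdef]; positivity
  have hεlt : ε < β * δ ^ 2 := by
    have : 0 < β * δ ^ 2 := by positivity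
    rw [hεdef]; linarith
  obtain ⟨c, hc, n2, HV⟩ := hVal η ε δ hη hε hδ
  obtain ⟨n3, Hgr⟩ := growth k D r p0 ℓ hO hp0 (γ / 2) (by linarith)
  obtain ⟨K, hK, Hlow⟩ := lower hO hp0
  obtain ⟨n4, Hs1⟩ := small1 (γ / 2) (by linarith)
  obtain ⟨n5, Hs2⟩ := small2 c K hc
  refine ⟨max (max (max n1 n2) (max n3 n4)) (max (max n5 1) (⌈2 / δ⌉₊)), ?_⟩
  intro n hn G hmax
  have hn1 : n1 ≤ n := by
    exact ((le_max_left _ _).trans ((le_max_left _ _).trans (le_max_left _ _))).trans hn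
  have hn2 : n2 ≤ n := by
    exact ((le_max_right _ _).trans ((le_max_left _ _).trans (le_max_left _ _))).trans hn
  have hn3 : n3 ≤ n := by
    exact ((le_max_left _ _).trans ((le_max_right _ _).trans (le_max_left _ _))).trans hn
  have hn4 : n4 ≤ n := by
    exact ((le_max_right _ _).trans ((le_max_right _ _).trans (le_max_left _ _))).trans hn
  have hn5 : n5 ≤ n := by
    exact ((le_max_left _ _).trans ((le_max_left _ _).trans (le_max_right _ _))).trans hn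
  have hn6 : 1 ≤ n := by
    exact ((le_max_right _ _).trans ((le_max_left _ _).trans (le_max_right _ _))).trans hn
  have hn7 : 2 ≤ δ * n := by
    have h1 : ⌈2 / δ⌉₊ ≤ n := ((le_max_right _ _).trans (le_max_right _ _)).trans hn
    have h2 : (2 / δ : ℝ) ≤ n := (Nat.le_ceil _).trans (by exact_mod_cast h1)
    rw [div_le_iff₀ hδ] at h2
    linarith
  clear hn
  obtain ⟨s, hs⟩ : ∃ s : ℕ, s = k.choose 2 + 1 - D := ⟨_, rfl⟩
  obtain ⟨T, hTdef⟩ : ∃ T : ℝ, T = (r : ℝ) ^ (Fintype.card (Sym2 (Fin n)) - Nat.card G.edgeSet) :=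
    ⟨_, rfl⟩
  have hT0 : 0 < T := by rw [hTdef]; exact pow_pos hr0 _
  have hFG : F r k s G = Fmax r k s n := by
    apply le_antisymm (Pool.Agent.TH830.J644.F_le_Fmax r k s n G)
    obtain ⟨G0, hG0⟩ := Pool.Agent.TH830.J643.exists_Fmax r k s n
    rw [← hG0, hs]
    exact hmax G0
  obtain ⟨f, hf⟩ : ∃ f : ℝ, f = (Fmax r k s n : ℝ) := ⟨_, rfl⟩
  have hf0 : 0 < f := by
    rw [hf]
    exact_mod_cast Pool.Agent.TH830.J643.Fmax_pos r k s n (Or.inl (by omega))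
  have hN : ∑ ψ : Sym2 (Fin n) → Fin r, ind (Good k s G Set.univ ψ) = f * T := by
    rw [Pool.Agent.TH830.J644.J5_norm, hFG, hf, hTdef]
  -- the canonical structures
  have hr' : 0 < r := by omega
  obtain ⟨st, hst⟩ : ∃ st : Fin n → (Sym2 (Fin n) → Fin r) → ℕ × Finset (Fin r) × (Fin n → ℕ),
      ∀ y ψ, (∃ t, Spec k D r ℓ G {y}ᶜ η ε β δ ψ t) →
        Spec k D r ℓ G {y}ᶜ η ε β δ ψ (st y ψ) := by
    have h1 : ∀ (y : Fin n) (ψ : Sym2 (Fin n) → Fin r),
        ∃ t : ℕ × Finset (Fin r) × (Fin n → ℕ), (∃ t, Spec k D r ℓ G {y}ᶜ η ε β δ ψ t) →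
        Spec k D r ℓ G {y}ᶜ η ε β δ ψ t := by
      intro y ψ
      by_cases h : ∃ t, Spec k D r ℓ G {y}ᶜ η ε β δ ψ t
      · obtain ⟨t, ht⟩ := h
        exact ⟨t, fun _ => ht⟩
      · exact ⟨(0, ∅, fun _ => 0), fun h' => absurd h' h⟩
    choose st hst using h1
    exact ⟨st, hst⟩
  obtain ⟨b0, -⟩ : ∃ b0 : Fin n → Fin r, True := ⟨fun _ => ⟨0, hr'⟩, trivial⟩
  -- bad stars
  have hB : ∀ y : Fin n, ∑ ψ : Sym2 (Fin n) → Fin r, ind (Good k s G Set.univ ψ ∧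
      BadS k D r ℓ G η ε β δ d1 d2 b0 st y ψ) ≤ Real.exp (-(γ / 2 * n)) * (f * T) := by
    intro y
    have h1 := bad_count hO G η ε β δ γ d1 d2 b0 st hst
      (fun p hp G A cls ε ψ hA => (Hc n hn1 p hp G A cls ε ψ hA).1) y
    rw [← hs, ← hTdef] at h1
    refine h1.trans ?_
    have h2 := Hgr n hn3
    rw [← hs, ← hf] at h2
    have h3 : Real.exp ((Real.log r - ℓ - γ) * n) =
        Real.exp ((Real.log r - ℓ - γ / 2) * n) * Real.exp (-(γ / 2 * n)) := by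
      rw [← Real.exp_add]; congr 1; ring
    rw [h3]
    calc (Fmax r k s (n - 1) : ℝ) *
          (Real.exp ((Real.log r - ℓ - γ / 2) * n) * Real.exp (-(γ / 2 * n))) * T
        = ((Fmax r k s (n - 1) : ℝ) * Real.exp ((Real.log r - ℓ - γ / 2) * n)) *
            (Real.exp (-(γ / 2 * n)) * T) := by ring
      _ ≤ f * (Real.exp (-(γ / 2 * n)) * T) :=
          mul_le_mul_of_nonneg_right h2 (mul_nonneg (Real.exp_pos _).le hT0.le)
      _ = _ := by ring
  have hB2 : ∑ y : Fin n, ∑ ψ : Sym2 (Fin n) → Fin r, ind (Good k s G Set.univ ψ ∧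
      BadS k D r ℓ G η ε β δ d1 d2 b0 st y ψ) ≤ 1 / 4 * (f * T) := by
    refine (Finset.sum_le_sum fun y _ => hB y).trans ?_
    rw [Finset.sum_const, Finset.card_univ, Fintype.card_fin, nsmul_eq_mul, ← mul_assoc]
    exact mul_le_mul_of_nonneg_right (Hs1 n hn4) (mul_pos hf0 hT0).le
  -- invalid colourings
  have hI : ∑ ψ : Sym2 (Fin n) → Fin r, ind (Good k s G Set.univ ψ ∧
        ¬ ∃ (p : ℕ) (A : Finset (Fin r)) (cls : Fin n → ℕ), IsType k D r ℓ p ∧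
          A.card = ct k D p ∧ Valid G p A cls Set.univ η ε β δ ψ) < 1 / 4 * (f * T) := by
    have h1 := HV n hn2 G
    rw [← hs, ← hTdef] at h1
    refine lt_of_le_of_lt h1 ?_
    have h2 := Hlow n hn6
    rw [← hs, ← hf] at h2
    have h3 : Real.exp (((Real.log r - ℓ) / 2 - c) * (n : ℝ) ^ 2) =
        Real.exp ((Real.log r - ℓ) / 2 * (n : ℝ) ^ 2 - K * n) *
          Real.exp (-(c * (n : ℝ) ^ 2) + K * n) := by
      rw [← Real.exp_add]; congr 1; ring
    rw [h3]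
    have h4 : Real.exp ((Real.log r - ℓ) / 2 * (n : ℝ) ^ 2 - K * n) *
          Real.exp (-(c * (n : ℝ) ^ 2) + K * n) < f * (1 / 4) := by
      calc _ ≤ f * Real.exp (-(c * (n : ℝ) ^ 2) + K * n) :=
            mul_le_mul_of_nonneg_right h2 (Real.exp_pos _).le
        _ < f * (1 / 4) := mul_lt_mul_of_pos_left (Hs2 n hn5) hf0
    calc _ < T * (f * (1 / 4)) := mul_lt_mul_of_pos_left h4 hT0
      _ = _ := by ring
  -- all good colourings
  have hcov : ∀ ψ : Sym2 (Fin n) → Fin r, ind (Good k s G Set.univ ψ) ≤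
      ind (Good k s G Set.univ ψ ∧
        ¬ ∃ (p : ℕ) (A : Finset (Fin r)) (cls : Fin n → ℕ), IsType k D r ℓ p ∧
          A.card = ct k D p ∧ Valid G p A cls Set.univ η ε β δ ψ) +
      (∑ y : Fin n, ind (Good k s G Set.univ ψ ∧ BadS k D r ℓ G η ε β δ d1 d2 b0 st y ψ)) +
      ind (∃ (p : ℕ) (A : Finset (Fin r)), IsType k D r ℓ p ∧ A.card = ct k D p ∧
        Perf G p A ψ) := by
    intro ψ
    have hs0 : 0 ≤ ∑ y : Fin n, ind (Good k s G Set.univ ψ ∧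
        BadS k D r ℓ G η ε β δ d1 d2 b0 st y ψ) := Finset.sum_nonneg fun y _ => ind_nonneg _
    by_cases hg : Good k s G Set.univ ψ
    · by_cases hv : ∃ (p : ℕ) (A : Finset (Fin r)) (cls : Fin n → ℕ), IsType k D r ℓ p ∧
          A.card = ct k D p ∧ Valid G p A cls Set.univ η ε β δ ψ
      · by_cases hb : ∃ y, BadS k D r ℓ G η ε β δ d1 d2 b0 st y ψ
        · obtain ⟨y, hy⟩ := hb
          have h1 := Finset.single_le_sum (f := fun y => ind (Good k s G Set.univ ψ ∧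
            BadS k D r ℓ G η ε β δ d1 d2 b0 st y ψ)) (fun y _ => ind_nonneg _)
            (Finset.mem_univ y)
          rw [ind_pos (⟨hg, hy⟩ : Good k s G Set.univ ψ ∧
            BadS k D r ℓ G η ε β δ d1 d2 b0 st y ψ)] at h1
          have h2 := ind_le_one (Good k s G Set.univ ψ)
          have h3 := ind_nonneg (Good k s G Set.univ ψ ∧
            ¬ ∃ (p : ℕ) (A : Finset (Fin r)) (cls : Fin n → ℕ), IsType k D r ℓ p ∧
            A.card = ct k D p ∧ Valid G p A cls Set.univ η ε β δ ψ)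
          have h4 := ind_nonneg (∃ (p : ℕ) (A : Finset (Fin r)), IsType k D r ℓ p ∧
            A.card = ct k D p ∧ Perf G p A ψ)
          linarith
        · have h1 := cover hO G η ε β δ d1 d2 b0 st hst hβ hδ hη8 hδ8 hd hεlt hn7
            (fun p hp G A cls ψ hA => (Hc n hn1 p hp G A cls ε ψ hA).2) ψ (by rw [← hs]; exact hg)
            hv (fun y hy => hb ⟨y, hy⟩)
          rw [ind_pos h1]
          have h2 := ind_le_one (Good k s G Set.univ ψ)
          have h3 := ind_nonneg (Good k s G Set.univ ψ ∧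
            ¬ ∃ (p : ℕ) (A : Finset (Fin r)) (cls : Fin n → ℕ), IsType k D r ℓ p ∧
            A.card = ct k D p ∧ Valid G p A cls Set.univ η ε β δ ψ)
          linarith
      · rw [ind_pos (⟨hg, hv⟩ : Good k s G Set.univ ψ ∧
            ¬ ∃ (p : ℕ) (A : Finset (Fin r)) (cls : Fin n → ℕ), IsType k D r ℓ p ∧
            A.card = ct k D p ∧ Valid G p A cls Set.univ η ε β δ ψ)]
        have h2 := ind_le_one (Good k s G Set.univ ψ)
        have h4 := ind_nonneg (∃ (p : ℕ) (A : Finset (Fin r)), IsType k D r ℓ p ∧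
            A.card = ct k D p ∧ Perf G p A ψ)
        linarith
    · rw [ind_neg hg]
      have h3 := ind_nonneg (Good k s G Set.univ ψ ∧
            ¬ ∃ (p : ℕ) (A : Finset (Fin r)) (cls : Fin n → ℕ), IsType k D r ℓ p ∧
            A.card = ct k D p ∧ Valid G p A cls Set.univ η ε β δ ψ)
      have h4 := ind_nonneg (∃ (p : ℕ) (A : Finset (Fin r)), IsType k D r ℓ p ∧
            A.card = ct k D p ∧ Perf G p A ψ)
      linarith
  have hsum := Finset.sum_le_sum (s := (univ : Finset (Sym2 (Fin n) → Fin r)))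
    (fun ψ _ => hcov ψ)
  rw [Finset.sum_add_distrib, Finset.sum_add_distrib, Finset.sum_comm (s := univ)
    (t := (univ : Finset (Fin n))), hN] at hsum
  have hmany : f * T < 2 * ∑ ψ : Sym2 (Fin n) → Fin r, ind (∃ (p : ℕ) (A : Finset (Fin r)),
      IsType k D r ℓ p ∧ A.card = ct k D p ∧ Perf G p A ψ) := by
    have h1 : 0 < f * T := mul_pos hf0 hT0
    linarith
  by_cases hTu : ∃ ψ : Sym2 (Fin n) → Fin r, ∃ A : Finset (Fin r), IsType k D r ℓ (k - 1) ∧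
      A.card = ct k D (k - 1) ∧ Perf G (k - 1) A ψ
  · right
    obtain ⟨ψ, A, h1, h2, h3⟩ := hTu
    have hct0 : ct k D (k - 1) = 0 := by
      rw [ct_of_two_le (by omega)]; omega
    rw [hct0] at h2
    rw [Finset.card_eq_zero.mp h2] at h3
    refine ⟨Pool.Agent.TH511.J655.J15_turan k s r n hk3 (by omega) (by omega) G ψ h3 ?_, ?_⟩
    · rw [hs]; exact hmax
    · have h4 := h1.2.2.2
      rw [hct0, Nat.cast_zero, Real.log_zero, sub_zero] at h4
      exact h4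
  · left
    have heq : ∀ ψ : Sym2 (Fin n) → Fin r, (∃ (p : ℕ) (A : Finset (Fin r)),
        IsType k D r ℓ p ∧ A.card = ct k D p ∧ Perf G p A ψ) ↔ (∃ (p : ℕ) (A : Finset (Fin r)),
        IsType k D r ℓ p ∧ p ≠ k - 1 ∧ A.card = ct k D p ∧ Perf G p A ψ) := by
      intro ψ
      constructor
      · rintro ⟨p, A, h1, h2, h3⟩
        refine ⟨p, A, h1, ?_, h2, h3⟩
        intro hp
        subst hp
        exact hTu ⟨ψ, A, h1, h2, h3⟩
      · rintro ⟨p, A, h1, _, h2, h3⟩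
        exact ⟨p, A, h1, h2, h3⟩
    have hmany' : ∑ ψ : Sym2 (Fin n) → Fin r, ind (Good k s G Set.univ ψ) <
        2 * ∑ ψ : Sym2 (Fin n) → Fin r, ind (∃ (p : ℕ) (A : Finset (Fin r)),
          IsType k D r ℓ p ∧ p ≠ k - 1 ∧ A.card = ct k D p ∧ Perf G p A ψ) := by
      rw [hN]
      refine lt_of_lt_of_le hmany (le_of_eq ?_)
      congr 1
      exact Finset.sum_congr rfl fun ψ _ => ind_congr (heq ψ)
    rw [← hs]
    refine ⟨?_, hmany'⟩
    refine Pool.Agent.TH830.J654.J15_complete k D r n hk3 hD1 hDC hO.hr G _ ?_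
      (by rw [← hs]; exact hmany') hmax
    rintro ψ ⟨p, A, h1, h2, h3, h4⟩
    refine ⟨p, A, ?_, ?_, h4⟩
    · rcases Nat.lt_or_ge p 2 with h5 | h5
      · left
        have h6 : p = 1 := by have := h1.1; omega
        refine ⟨h6, ?_⟩
        rw [h3, h6, ct_one]; omega
      · right
        rcases h1.2.2.1 with h7 | ⟨h7, h8 | h8⟩
        · omega
        · exact absurd h8 h2
        · refine ⟨h5, h7, ?_⟩
          rw [h3]
          rw [ct_of_two_le h5] at h8 ⊢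
          omega
    · rw [h3]
      rcases h1.2.2.1 with h7 | ⟨h7, h8 | h8⟩
      · rw [h7, ct_one]; omega
      · exact absurd h8 h2
      · exact h8

end Pool.Agent.TH477.PA
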