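import Pool.Agent.TH477.PA.Types

/-!
Almost all pairs have palettes of one single type.
-/

set_option autoImplicit false

namespace Pool.Agent.TH477.PA

open Finset
open Pool.Agent.TH477.RB (tup)

theorem tup_sum_one {V : Type} {k : ℕ} (hk : 1 ≤ k) (W : Finset V) (z : Fin k) (f : V → ℝ) :
    ∑ x ∈ tup k W, f (x z) = (W.card : ℝ) ^ (k - 1) * ∑ v ∈ W, f v := by
  classical
  rcases Finset.eq_empty_or_nonempty W with rfl | hW
  · have : tup k (∅ : Finset V) = ∅ := by
      rw [Finset.eq_empty_iff_forall_notMem]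
      intro x hx
      exact absurd (mem_tup.mp hx z) (Finset.notMem_empty _)
    rw [this]; simp
  · have hc : (0 : ℝ) < W.card := by exact_mod_cast hW.card_pos
    have h := RB.sum_update W z (fun x => f (x z))
    simp only [Function.update_self] at h
    rw [Finset.sum_const, card_tup, nsmul_eq_mul] at h
    push_cast at h
    have e : (W.card : ℝ) ^ k = W.card * (W.card : ℝ) ^ (k - 1) := by
      rw [← pow_succ']; congr 1; omega
    rw [e, mul_assoc] at h
    exact (mul_left_cancel₀ hc.ne' h).symm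

theorem tup_sum_two {V : Type} {k : ℕ} (hk : 2 ≤ k) (W : Finset V) (z w : Fin k) (hzw : z ≠ w)
    (f : V → V → ℝ) :
    ∑ x ∈ tup k W, f (x z) (x w) = (W.card : ℝ) ^ (k - 2) * ∑ u ∈ W, ∑ v ∈ W, f u v := by
  classical
  rcases Finset.eq_empty_or_nonempty W with rfl | hW
  · have : tup k (∅ : Finset V) = ∅ := by
      rw [Finset.eq_empty_iff_forall_notMem]
      intro x hx
      exact absurd (mem_tup.mp hx z) (Finset.notMem_empty _)
    rw [this]; simp
  · have hc : (0 : ℝ) < W.card := by exact_mod_cast hW.card_pos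
    have h := RB.sum_update W z (fun x => f (x z) (x w))
    simp only [Function.update_self, Function.update_of_ne hzw.symm] at h
    have h2 := tup_sum_one (by omega : 1 ≤ k) W w (fun v => ∑ u ∈ W, f u v)
    rw [h2] at h
    have e : (W.card : ℝ) ^ (k - 1) = W.card * (W.card : ℝ) ^ (k - 2) := by
      rw [← pow_succ']; congr 1; omega
    rw [e, mul_assoc, Finset.sum_comm] at h
    exact (mul_left_cancel₀ hc.ne' h).symm

theorem okp_of_Fm {V : Type} {k r D p : ℕ} (P : V → V → Finset (Fin r)) (x : Fin k → V) (y : V)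
    (h : Fm D P p x y) (i : Fin k) (hi : i.val < p) : okp k D p (P (x i) y) := by
  obtain ⟨i0, hi0, hc, hj⟩ := h
  by_cases hii : i = i0
  · left; rw [hii]; exact hc
  · right
    refine ⟨?_, hj i hi hii⟩
    have : i.val ≠ i0.val := fun h => hii (Fin.ext h)
    omega

/-- almost all palettes at `x` are of type `p` -/
def Xp {V : Type} {r : ℕ} (k D : ℕ) (P : V → V → Finset (Fin r)) (W : Finset V) (ε6 : ℝ) (p : ℕ)
    (x : V) : Prop := ∑ y ∈ W, ind (¬ okp k D p (P x y)) ≤ ε6 * (W.card : ℝ)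

theorem sum_add_ind_le {V : Type} (W : Finset V) (R S T : V → Prop) (h : ∀ y ∈ W, R y → S y ∨ T y) :
    ∑ y ∈ W, ind (R y) ≤ ∑ y ∈ W, ind (S y) + ∑ y ∈ W, ind (T y) := by
  rw [← Finset.sum_add_distrib]
  refine Finset.sum_le_sum fun y hy => ?_
  refine le_trans (ind_mono (h y hy)) (ind_or_le _ _)

theorem low_of_two {V : Type} {k D r : ℕ} {ℓ : ℝ} (hO : Opt k D r ℓ) (P : V → V → Finset (Fin r))
    (W : Finset V) (hW : 1 ≤ W.card) (ε6 : ℝ) (hε6 : 4 * Real.log r * ε6 < ℓ) (p q : ℕ)
    (hp : IsType k D r ℓ p) (hq : IsType k D r ℓ q) (hpq : p ≠ q) (x : V)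
    (h1 : Xp k D P W ε6 p x) (h2 : Xp k D P W ε6 q x) :
    ∑ y ∈ W, ls (P x y) < ℓ / 2 * (W.card : ℝ) := by
  have hL := hO.logpos
  set n : ℝ := (W.card : ℝ) with hn
  have hn0 : 0 < n := by rw [hn]; exact_mod_cast hW
  have h3 : ∑ y ∈ W, ls (P x y) ≤ ∑ y ∈ W, Real.log r * (ind (¬ okp k D p (P x y)) +
      ind (¬ okp k D q (P x y))) := by
    refine Finset.sum_le_sum fun y _ => ?_
    by_cases a : okp k D p (P x y)
    · by_cases b : okp k D q (P x y)
      · rw [okp_two hO hp hq hpq _ a b, ls_univ]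
        have := ind_nonneg (¬ okp k D p (univ : Finset (Fin r)))
        have := ind_nonneg (¬ okp k D q (univ : Finset (Fin r)))
        positivity
      · rw [ind_pos b]
        have := ls_le (P x y)
        have := ind_nonneg (¬ okp k D p (P x y))
        nlinarith
    · rw [ind_pos a]
      have := ls_le (P x y)
      have := ind_nonneg (¬ okp k D q (P x y))
      nlinarith
  rw [← Finset.mul_sum, Finset.sum_add_distrib] at h3
  unfold Xp at h1 h2
  have h4 : Real.log r * (∑ y ∈ W, ind (¬ okp k D p (P x y)) + ∑ y ∈ W, ind (¬ okp k D q (P x y))) ≤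
      Real.log r * (2 * ε6 * n) := by
    apply mul_le_mul_of_nonneg_left _ hL.le
    linarith
  have h5 : Real.log r * (2 * ε6 * n) < ℓ / 2 * n := by
    have : Real.log r * (2 * ε6 * n) = (4 * Real.log r * ε6) / 2 * n := by ring
    rw [this]
    apply mul_lt_mul_of_pos_right _ hn0
    linarith
  linarith

theorem single_type (k D r : ℕ) (ℓ : ℝ) (hO : Opt k D r ℓ) (ε6 ε8 : ℝ) (hε6 : 0 < ε6)
    (hε8 : 0 < ε8) (hε8' : ε8 ≤ 1) (h1 : 4 * Real.log r * ε6 < ℓ) (h2 : 32 * k * ε6 ≤ ε8) :
    ∃ ε3 : ℝ, 0 < ε3 ∧ ∀ ε3' : ℝ, 0 ≤ ε3' → ε3' ≤ ε3 → ∀ (V : Type) (P : V → V → Finset (Fin r))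
      (W : Finset V), (∀ x y, P x y = P y x) → 1 ≤ W.card →
      (∀ x ∈ W, ∑ y ∈ W, ls (P x y) ≤ (ℓ + ε3') * (W.card : ℝ)) →
      (ℓ - ε3') * (W.card : ℝ) ^ 2 ≤ ∑ x ∈ W, ∑ y ∈ W, ls (P x y) →
      sc k (k.choose 2 + 1 - D) P W ≤ ε3' * (W.card : ℝ) ^ k →
      ∃ p, IsType k D r ℓ p ∧ ∑ x ∈ W, ind (¬ Xp k D P W ε6 p x) ≤ ε8 * (W.card : ℝ) := by
  have hk := hO.hk
  have hℓ := hO.pos
  have hLpos := hO.logpos
  have hk0 : (0 : ℝ) < k := by exact_mod_cast (by omega : 0 < k)
  have hk3 : (3 : ℝ) ≤ k := by exact_mod_cast hk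
  obtain ⟨γ, hγ, hgap⟩ := fs_gap k r ℓ
  set δ : ℝ := γ * ε6 / (2 * (k * ℓ + γ)) with hδ
  have hkl : 0 < k * ℓ + γ := by positivity
  have hδ0 : 0 < δ := by positivity
  have hδ1 : (k * ℓ + γ) * δ ≤ γ * ε6 / 2 := by
    rw [hδ]; apply le_of_eq; field_simp
  have hε61 : ε6 ≤ 1 := by nlinarith
  set ε3 : ℝ := min (γ * ε6 / (4 * k)) (min (δ ^ (k - 1) * (ε8 / 16)) (min (δ ^ (k - 2) * (ε8 / 16))
    (ℓ * ε8 / 32))) with hε3
  have a1 : ε3 ≤ γ * ε6 / (4 * k) := min_le_left _ _
  have a2 : ε3 ≤ δ ^ (k - 1) * (ε8 / 16) := (min_le_right _ _).trans (min_le_left _ _)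
  have a3 : ε3 ≤ δ ^ (k - 2) * (ε8 / 16) :=
    (min_le_right _ _).trans ((min_le_right _ _).trans (min_le_left _ _))
  have a4 : ε3 ≤ ℓ * ε8 / 32 :=
    (min_le_right _ _).trans ((min_le_right _ _).trans (min_le_right _ _))
  have a0 : 0 < ε3 := by positivity
  refine ⟨ε3, a0, ?_⟩
  intro ε3' h30 h3le V P W hsymm hW hloss hlow hsc
  have a1' : k * ε3' < γ * ε6 / 2 := by
    have : k * ε3' ≤ k * (γ * ε6 / (4 * k)) := mul_le_mul_of_nonneg_left (h3le.trans a1) hk0.le
    have e : k * (γ * ε6 / (4 * k)) = γ * ε6 / 4 := by field_simp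
    have : 0 < γ * ε6 := by positivity
    linarith
  set n : ℝ := (W.card : ℝ) with hn
  have hn0 : 0 < n := by rw [hn]; exact_mod_cast hW
  let X : ℕ → V → Prop := fun p x => Xp k D P W ε6 p x
  let B1 : V → Prop := fun x => ∀ p, IsType k D r ℓ p → ¬ X p x
  let Low : V → Prop := fun x => ∑ y ∈ W, ls (P x y) < ℓ / 2 * n
  have hFX : ∀ (x : Fin k → V) (p : ℕ) (i : Fin k), i.val < p → ¬ X p (x i) →
      ε6 * n ≤ ∑ y ∈ W, ind (¬ Fm D P p x y) := by
    intro x p i hi hX
    have h3 : ε6 * n < ∑ y ∈ W, ind (¬ okp k D p (P (x i) y)) := not_le.mp hX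
    refine h3.le.trans (Finset.sum_le_sum fun y _ => ind_mono ?_)
    exact fun h hF => h (okp_of_Fm P x y hF i hi)
  -- Claim 1
  have c1 : ∑ x ∈ W, ind (B1 x) ≤ ε8 / 16 * n := by
    let z0 : Fin k := ⟨0, by omega⟩
    have htb := tree_bad hO γ ε3' ε6 δ hγ hδ0 hδ1 hε61 a1' h30 P W hW
      (fun t x y => hgap V P t x y) hloss 1 (by omega) (fun x => B1 (x z0))
      (by
        intro x t y ht
        have : z0 ≠ t := by
          intro h; rw [← h] at ht; simp [z0] at ht
        rw [Function.update_of_ne this])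
      (by
        intro x hx hC p hp hp1
        exact hFX x p z0 (by simp only [z0]; omega) (hC p hp))
      (by
        intro x hx hC j hj1 hj2
        omega)
    rw [tup_sum_one (by omega) W z0 (fun v => ind (B1 v)), ← hn] at htb
    have hnk : n ^ k = n ^ (k - 1) * n := by
      rw [← pow_succ]; congr 1; omega
    have h3 : δ ^ (k - 1) * (n ^ (k - 1) * ∑ v ∈ W, ind (B1 v)) ≤
        δ ^ (k - 1) * (ε8 / 16) * (n ^ (k - 1) * n) := by
      refine htb.trans (hsc.trans ?_)
      rw [hnk]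
      exact mul_le_mul_of_nonneg_right (h3le.trans a2) (by positivity)
    have h4 : (δ ^ (k - 1) * n ^ (k - 1)) * ∑ v ∈ W, ind (B1 v) ≤
        (δ ^ (k - 1) * n ^ (k - 1)) * (ε8 / 16 * n) := by
      calc (δ ^ (k - 1) * n ^ (k - 1)) * ∑ v ∈ W, ind (B1 v) =
          δ ^ (k - 1) * (n ^ (k - 1) * ∑ v ∈ W, ind (B1 v)) := by ring
        _ ≤ _ := h3
        _ = _ := by ring
    exact le_of_mul_le_mul_left h4 (by positivity)
  -- Claim 2
  let C2 : V → V → Prop := fun x x' => P x x' = univ ∧ ∀ q, IsType k D r ℓ q → 2 ≤ q →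
    (¬ X q x ∨ ¬ X q x')
  have c2 : ∑ x ∈ W, ∑ x' ∈ W, ind (C2 x x') ≤ ε8 / 16 * n ^ 2 := by
    let z0 : Fin k := ⟨0, by omega⟩
    let z1 : Fin k := ⟨1, by omega⟩
    have hz : z0 ≠ z1 := by simp [z0, z1]
    have hz01 : z0 < z1 := by simp [z0, z1, Fin.lt_def]
    have htb := tree_bad hO γ ε3' ε6 δ hγ hδ0 hδ1 hε61 a1' h30 P W hW
      (fun t x y => hgap V P t x y) hloss 2 (by omega) (fun x => C2 (x z0) (x z1))
      (by
        intro x t y ht
        have h3 : z0 ≠ t := by
          intro h; rw [← h] at ht; simp [z0] at ht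
        have h4 : z1 ≠ t := by
          intro h; rw [← h] at ht; simp [z1] at ht
        rw [Function.update_of_ne h3, Function.update_of_ne h4])
      (by
        intro x hx hC p hp hp2
        rcases hC.2 p hp hp2 with h | h
        · exact hFX x p z0 (by simp only [z0]; omega) h
        · exact hFX x p z1 (by simp only [z1]; omega) h)
      (by
        intro x hx hC j hj1 hj2
        have hj : j = z1 := Fin.ext (by simp only [z1]; omega)
        subst hj
        have hfil : univ.filter (fun i : Fin k => i < z1) = {z0} := by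
          ext i
          simp only [Finset.mem_filter, Finset.mem_univ, true_and, Finset.mem_singleton]
          constructor
          · intro h
            rw [Fin.lt_def] at h
            apply Fin.ext
            simp only [z0, z1] at h ⊢
            omega
          · intro h; rw [h]; exact hz01
        refine ⟨?_, ?_⟩
        · unfold fs
          rw [hfil, Finset.sum_singleton, hC.1, ls_univ]
          positivity
        · intro p hp hp1 hF
          obtain ⟨i, hi, hcard, _⟩ := hF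
          have : i = z0 := by
            apply Fin.ext
            simp only [z0, z1] at hp1 ⊢
            omega
          rw [this, hC.1, Finset.card_univ, Fintype.card_fin] at hcard
          have := IsType.ct_lt hO hp
          omega)
    rw [tup_sum_two (by omega) W z0 z1 hz (fun u v => ind (C2 u v)), ← hn] at htb
    have hnk : n ^ k = n ^ (k - 2) * n ^ 2 := by
      rw [← pow_add]; congr 1; omega
    have h4 : (δ ^ (k - 2) * n ^ (k - 2)) * ∑ x ∈ W, ∑ x' ∈ W, ind (C2 x x') ≤
        (δ ^ (k - 2) * n ^ (k - 2)) * (ε8 / 16 * n ^ 2) := by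
      calc (δ ^ (k - 2) * n ^ (k - 2)) * ∑ x ∈ W, ∑ x' ∈ W, ind (C2 x x') =
          δ ^ (k - 2) * (n ^ (k - 2) * ∑ x ∈ W, ∑ x' ∈ W, ind (C2 x x')) := by ring
        _ ≤ ε3' * n ^ k := htb.trans hsc
        _ = ε3' * (n ^ (k - 2) * n ^ 2) := by rw [hnk]
        _ ≤ δ ^ (k - 2) * (ε8 / 16) * (n ^ (k - 2) * n ^ 2) :=
          mul_le_mul_of_nonneg_right (h3le.trans a3) (by positivity)
        _ = _ := by ring
    exact le_of_mul_le_mul_left h4 (by positivity)
  -- few vertices with low loss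
  have c3 : ∑ x ∈ W, ind (Low x) ≤ ε8 / 8 * n := by
    have hpt : ∀ x ∈ W, ∑ y ∈ W, ls (P x y) ≤ (ℓ + ε3') * n - ℓ / 2 * n * ind (Low x) := by
      intro x hx
      by_cases hl : Low x
      · rw [ind_pos hl]
        have h3 : ∑ y ∈ W, ls (P x y) < ℓ / 2 * n := hl
        have h4 : 0 ≤ ε3' * n := by positivity
        have e : (ℓ + ε3') * n - ℓ / 2 * n * 1 = ℓ / 2 * n + ε3' * n := by ring
        rw [e]; linarith
      · rw [ind_neg hl]
        have := hloss x hx
        linarith
    have hs := Finset.sum_le_sum hpt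
    rw [Finset.sum_sub_distrib, Finset.sum_const, nsmul_eq_mul, ← Finset.mul_sum, ← hn] at hs
    have h3 := hlow.trans hs
    have h4 : ℓ / 2 * n * ∑ x ∈ W, ind (Low x) ≤ ℓ / 2 * n * (ε8 / 8 * n) := by
      have h5 : 2 * ε3' * n ^ 2 ≤ ℓ / 2 * n * (ε8 / 8 * n) := by
        have : ℓ / 2 * n * (ε8 / 8 * n) = 2 * (ℓ * ε8 / 32) * n ^ 2 := by ring
        rw [this]
        apply mul_le_mul_of_nonneg_right _ (by positivity)
        linarith [h3le.trans a4]
      refine le_trans ?_ h5
      have e1 : (ℓ - ε3') * n ^ 2 = ℓ * n ^ 2 - ε3' * n ^ 2 := by ring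
      have e2 : n * ((ℓ + ε3') * n) = ℓ * n ^ 2 + ε3' * n ^ 2 := by ring
      rw [e1, e2] at h3
      linarith
    exact le_of_mul_le_mul_left h4 (by positivity)
  by_contra hcon
  push Not at hcon
  -- pairs of vertices of different types
  let T : V → Prop := fun x => ¬ B1 x ∧ ¬ Low x
  let E : V → V → Prop := fun x x' => T x ∧ T x' ∧ ∃ p, IsType k D r ℓ p ∧ X p x ∧ ¬ X p x'
  have hlower : 3 / 8 * ε8 * n ^ 2 ≤ ∑ x ∈ W, ∑ x' ∈ W, ind (E x x') := by
    have hTn : n / 2 ≤ ∑ x ∈ W, ind (T x) := by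
      have h3 := sum_ind_compl W T
      have h4 := sum_add_ind_le W (fun x => ¬ T x) B1 Low (by
        intro y _ hy
        by_contra hh
        push Not at hh
        exact hy ⟨hh.1, hh.2⟩)
      rw [← hn] at h3
      have h5 : ε8 * n ≤ 1 * n := mul_le_mul_of_nonneg_right hε8' hn0.le
      linarith
    have hrow : ∀ x ∈ W, ind (T x) * (3 / 4 * ε8 * n) ≤ ∑ x' ∈ W, ind (E x x') := by
      intro x hx
      by_cases hT : T x
      · rw [ind_pos hT, one_mul]
        have hnb := hT.1
        simp only [B1] at hnb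
        push Not at hnb
        obtain ⟨p, hp, hXp⟩ := hnb
        have h3 := hcon p hp
        have h4 := sum_add_ind_le W (fun x' => ¬ X p x') (fun x' => E x x')
          (fun x' => B1 x' ∨ Low x') (by
            intro y _ hy
            by_cases h5 : B1 y ∨ Low y
            · exact Or.inr h5
            · left
              push Not at h5
              exact ⟨hT, ⟨h5.1, h5.2⟩, p, hp, hXp, hy⟩)
        have h5 := sum_add_ind_le W (fun x' => B1 x' ∨ Low x') B1 Low (fun y _ h => h)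
        have h6 : ε8 * n < ∑ x' ∈ W, ind (¬ X p x') := h3
        have h7 : 0 < ε8 * n := by positivity
        linarith
      · rw [ind_neg hT, zero_mul]
        exact Finset.sum_nonneg fun _ _ => ind_nonneg _
    have hs := Finset.sum_le_sum hrow
    rw [← Finset.sum_mul] at hs
    refine le_trans ?_ hs
    calc 3 / 8 * ε8 * n ^ 2 = n / 2 * (3 / 4 * ε8 * n) := by ring
      _ ≤ _ := mul_le_mul_of_nonneg_right hTn (by positivity)
  -- upper bound
  have hone : ∀ (p : ℕ), ∑ x ∈ W, ∑ x' ∈ W, ind (X p x ∧ ¬ okp k D p (P x x')) ≤ ε6 * n ^ 2 := by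
    intro p
    have hrow : ∀ x ∈ W, ∑ x' ∈ W, ind (X p x ∧ ¬ okp k D p (P x x')) ≤ ε6 * n := by
      intro x _
      by_cases hX : X p x
      · refine le_trans (Finset.sum_le_sum fun x' _ => ind_mono (fun h => h.2)) ?_
        exact hX
      · rw [Finset.sum_eq_zero (fun x' _ => ind_neg (fun h => hX h.1))]
        positivity
    refine (Finset.sum_le_sum hrow).trans (le_of_eq ?_)
    rw [Finset.sum_const, nsmul_eq_mul, ← hn]; ring
  have hupper : ∑ x ∈ W, ∑ x' ∈ W, ind (E x x') ≤ 2 * k * (ε6 * n ^ 2) + ε8 / 16 * n ^ 2 := by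
    have hpt : ∀ x ∈ W, ∀ x' ∈ W, ind (E x x') ≤
        ∑ p ∈ range k, ind (X p x ∧ ¬ okp k D p (P x x')) +
        ∑ p ∈ range k, ind (X p x' ∧ ¬ okp k D p (P x' x)) + ind (C2 x x') := by
      intro x _ x' _
      have hnn1 : 0 ≤ ∑ p ∈ range k, ind (X p x ∧ ¬ okp k D p (P x x')) :=
        Finset.sum_nonneg fun _ _ => ind_nonneg _
      have hnn2 : 0 ≤ ∑ p ∈ range k, ind (X p x' ∧ ¬ okp k D p (P x' x)) :=
        Finset.sum_nonneg fun _ _ => ind_nonneg _
      by_cases hE : E x x'
      · obtain ⟨hT, hT', p, hp, hXp, hXp'⟩ := hE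
        rw [ind_pos ⟨hT, hT', p, hp, hXp, hXp'⟩]
        have hnb := hT'.1
        simp only [B1] at hnb
        push Not at hnb
        obtain ⟨q, hq, hXq⟩ := hnb
        have hqp : q ≠ p := fun h => hXp' (h ▸ hXq)
        have hpk : p ∈ range k := by
          rw [Finset.mem_range]; have := hp.2.1; omega
        have hqk : q ∈ range k := by
          rw [Finset.mem_range]; have := hq.2.1; omega
        by_cases ho1 : okp k D p (P x x')
        · by_cases ho2 : okp k D q (P x' x)
          · have hC2 : C2 x x' := by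
              refine ⟨okp_two hO hp hq hqp.symm _ ho1 (by rw [hsymm]; exact ho2), ?_⟩
              intro q' hq' _
              by_contra hh
              push Not at hh
              by_cases hqq : q' = p
              · rw [hqq] at hh; exact hXp' hh.2
              · exact hT.2 (low_of_two hO P W hW ε6 h1 q' p hq' hp hqq x hh.1 hXp)
            rw [ind_pos hC2]
            linarith
          · have h3 := Finset.single_le_sum (f := fun q => ind (X q x' ∧ ¬ okp k D q (P x' x)))
              (fun _ _ => ind_nonneg _) hqk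
            have h4 : ind (X q x' ∧ ¬ okp k D q (P x' x)) = 1 := ind_pos ⟨hXq, ho2⟩
            have := ind_nonneg (C2 x x')
            linarith
        · have h3 := Finset.single_le_sum (f := fun p => ind (X p x ∧ ¬ okp k D p (P x x')))
              (fun _ _ => ind_nonneg _) hpk
          have h4 : ind (X p x ∧ ¬ okp k D p (P x x')) = 1 := ind_pos ⟨hXp, ho1⟩
          have := ind_nonneg (C2 x x')
          linarith
      · rw [ind_neg hE]
        have := ind_nonneg (C2 x x')
        linarith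
    have hs := Finset.sum_le_sum fun x hx => Finset.sum_le_sum fun x' hx' => hpt x hx x' hx'
    refine hs.trans ?_
    simp only [Finset.sum_add_distrib]
    have hswap : ∀ f : ℕ → V → V → ℝ, ∑ x ∈ W, ∑ x' ∈ W, ∑ p ∈ range k, f p x x' =
        ∑ p ∈ range k, ∑ x ∈ W, ∑ x' ∈ W, f p x x' := by
      intro f
      calc ∑ x ∈ W, ∑ x' ∈ W, ∑ p ∈ range k, f p x x'
          = ∑ x ∈ W, ∑ p ∈ range k, ∑ x' ∈ W, f p x x' :=
            Finset.sum_congr rfl fun x _ => Finset.sum_comm
        _ = _ := Finset.sum_comm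
    have e1 : ∑ x ∈ W, ∑ x' ∈ W, ∑ p ∈ range k, ind (X p x ∧ ¬ okp k D p (P x x')) ≤
        k * (ε6 * n ^ 2) := by
      rw [hswap]
      refine (Finset.sum_le_sum fun p _ => hone p).trans (le_of_eq ?_)
      rw [Finset.sum_const, Finset.card_range, nsmul_eq_mul]
    have e2 : ∑ x ∈ W, ∑ x' ∈ W, ∑ p ∈ range k, ind (X p x' ∧ ¬ okp k D p (P x' x)) ≤
        k * (ε6 * n ^ 2) := by
      rw [Finset.sum_comm]
      exact e1
    linarith
  have hfin := hlower.trans hupper
  have h3 : 2 * k * (ε6 * n ^ 2) ≤ ε8 / 16 * n ^ 2 := by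
    have : 2 * k * (ε6 * n ^ 2) = (32 * k * ε6) / 16 * n ^ 2 := by ring
    rw [this]
    apply mul_le_mul_of_nonneg_right _ (by positivity)
    linarith
  have h4 : 0 < ε8 * n ^ 2 := by positivity
  linarith

end Pool.Agent.TH477.PA
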