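import Pool.Agent.TH477.PA.StabP

/-!
The stability theorem.
-/

set_option autoImplicit false

namespace Pool.Agent.TH477.PA

open Finset
open Pool.Agent.TH477.RB (tup)

theorem exists_pos_le (k : ℕ) (f : ℕ → ℝ) (hf : ∀ p, 0 < f p) :
    ∃ ε : ℝ, 0 < ε ∧ ∀ p, p < k → ε ≤ f p := by
  induction k with
  | zero => exact ⟨1, one_pos, fun p hp => absurd hp (Nat.not_lt_zero _)⟩
  | succ k ih =>
    obtain ⟨ε, hε, h⟩ := ih
    refine ⟨min ε (f k), lt_min hε (hf k), ?_⟩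
    intro p hp
    rcases Nat.lt_succ_iff_lt_or_eq.mp hp with h1 | h1
    · exact (min_le_left _ _).trans (h p h1)
    · rw [h1]; exact min_le_right _ _

theorem stability (k D r : ℕ) (ℓ : ℝ) (hO : Opt k D r ℓ) (η : ℝ) (hη : 0 < η) :
    ∃ ε : ℝ, 0 < ε ∧ ∃ n0 : ℕ, ∀ (V : Type)
      (P : V → V → Finset (Fin r)), (∀ x y, P x y = P y x) → (∀ x, P x x = ∅) →
      ∀ W : Finset V, n0 ≤ W.card →
      sc k (k.choose 2 + 1 - D) P W ≤ ε * (W.card : ℝ) ^ k →
      ∑ x ∈ W, ∑ y ∈ W, ls (P x y) ≤ (ℓ + ε) * (W.card : ℝ) ^ 2 →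
      ∃ (p : ℕ) (A : Finset (Fin r)) (cls : V → ℕ), IsType k D r ℓ p ∧ A.card = ct k D p ∧
        (∀ x, cls x < p) ∧
        (∀ i, i < p → |∑ x ∈ W, ind (cls x = i) - (W.card : ℝ) / p| ≤ η * W.card) ∧
        ∑ x ∈ W, ∑ y ∈ W, ind (P x y ≠ if cls x = cls y then A else univ) ≤
          η * (W.card : ℝ) ^ 2 := by
  classical
  have hk := hO.hk
  have hℓ := hO.pos
  have hLpos := hO.logpos
  have hk0 : (0 : ℝ) < k := by exact_mod_cast (by omega : 0 < k)
  have hall : ∀ p : ℕ, ∃ ε : ℝ, 0 < ε ∧ ∃ n0 : ℕ, (IsType k D r ℓ p → ∀ ε' : ℝ, ε' ≤ ε →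
      ∀ (V : Type) (P : V → V → Finset (Fin r)),
      (∀ x y, P x y = P y x) → ∀ W : Finset V, n0 ≤ W.card →
      (∀ x ∈ W, ∑ y ∈ W, ls (P x y) ≤ (ℓ + ε') * (W.card : ℝ)) →
      (∀ x ∈ W, ∑ y ∈ W, ind (¬ okp k D p (P x y)) ≤ ε' * (W.card : ℝ)) →
      sc k (k.choose 2 + 1 - D) P W ≤ ε' * (W.card : ℝ) ^ k →
      ∃ (A : Finset (Fin r)) (cls : V → ℕ), A.card = ct k D p ∧ (∀ x, cls x < p) ∧
        (∀ i, i < p → |∑ x ∈ W, ind (cls x = i) - (W.card : ℝ) / p| ≤ η / 4 * W.card) ∧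
        ∑ x ∈ W, ∑ y ∈ W, ind (P x y ≠ if cls x = cls y then A else univ) ≤
          η / 4 * (W.card : ℝ) ^ 2) := by
    intro p
    by_cases hp : IsType k D r ℓ p
    · obtain ⟨ε, hε, n0, h⟩ := stab_p k D r ℓ hO p hp (η / 4) (by positivity)
      exact ⟨ε, hε, n0, fun _ => h⟩
    · exact ⟨1, one_pos, 0, fun h => absurd h hp⟩
  choose εf hεf nf hf using hall
  obtain ⟨εs, hεs, hεs2⟩ := exists_pos_le k εf hεf
  set N : ℕ := ∑ p ∈ range k, nf p with hN
  have hNle : ∀ p, p < k → nf p ≤ N := fun p hp =>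
    Finset.single_le_sum (f := nf) (fun _ _ => Nat.zero_le _) (Finset.mem_range.mpr hp)
  -- constants
  set ε8 : ℝ := min (1 / 2) (min (η / 16) (εs / (2 * (ℓ + εs)))) with hε8
  have d1 : ε8 ≤ 1 / 2 := min_le_left _ _
  have d2 : ε8 ≤ η / 16 := (min_le_right _ _).trans (min_le_left _ _)
  have d3 : ε8 ≤ εs / (2 * (ℓ + εs)) := (min_le_right _ _).trans (min_le_right _ _)
  have d0 : 0 < ε8 := by positivity
  have d3' : ε8 * (ℓ + εs) ≤ εs / 2 := by
    have h := mul_le_mul_of_nonneg_right d3 (by positivity : 0 ≤ ℓ + εs)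
    have e : εs / (2 * (ℓ + εs)) * (ℓ + εs) = εs / 2 := by field_simp
    linarith
  set ε6 : ℝ := min (εs / 2) (min (ε8 / (32 * k)) (ℓ / (8 * Real.log r))) with hε6
  have e1 : ε6 ≤ εs / 2 := min_le_left _ _
  have e2 : ε6 ≤ ε8 / (32 * k) := (min_le_right _ _).trans (min_le_left _ _)
  have e3 : ε6 ≤ ℓ / (8 * Real.log r) := (min_le_right _ _).trans (min_le_right _ _)
  have e0 : 0 < ε6 := by positivity
  have e2' : 32 * k * ε6 ≤ ε8 := by
    have h := mul_le_mul_of_nonneg_left e2 (by positivity : (0 : ℝ) ≤ 32 * k)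
    have e : 32 * (k : ℝ) * (ε8 / (32 * k)) = ε8 := by field_simp
    linarith
  have e3' : 4 * Real.log r * ε6 < ℓ := by
    have h := mul_le_mul_of_nonneg_left e3 (by positivity : (0 : ℝ) ≤ 4 * Real.log r)
    have e : 4 * Real.log r * (ℓ / (8 * Real.log r)) = ℓ / 2 := by field_simp; norm_num
    linarith
  obtain ⟨ε3s, hε3s, hsingle⟩ := single_type k D r ℓ hO ε6 ε8 e0 d0 (by linarith) e3' e2'
  set ε3 : ℝ := min ε3s (min (εs / 2) (εs / 2 ^ k)) with hε3
  have f1 : ε3 ≤ ε3s := min_le_left _ _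
  have f2 : ε3 ≤ εs / 2 := (min_le_right _ _).trans (min_le_left _ _)
  have f3 : ε3 ≤ εs / 2 ^ k := (min_le_right _ _).trans (min_le_right _ _)
  have f0 : 0 < ε3 := by positivity
  set η1 : ℝ := min (1 / 2) (η / 16) with hη1
  have g1 : η1 ≤ 1 / 2 := min_le_left _ _
  have g2 : η1 ≤ η / 16 := min_le_right _ _
  have g0 : 0 < η1 := by positivity
  obtain ⟨ε, hε, n0, hlarge⟩ := large_subset k D r ℓ hO η1 ε3 g0 (by linarith) f0 (2 * N + 1)
  refine ⟨ε, hε, n0, ?_⟩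
  intro V P hsymm hdiag W0 hW0 hsc0 hls0
  obtain ⟨W, hWW, hWN, hWcard, hloss, hlow, hsc⟩ := hlarge V P hsymm hdiag W0 hW0 hsc0 hls0
  have hW1 : 1 ≤ W.card := by omega
  obtain ⟨p, hp, hpX⟩ := hsingle ε3 f0.le f1 V P W hsymm hW1 hloss hlow hsc
  set X : Finset V := W.filter (fun x => Xp k D P W ε6 p x) with hX
  set n : ℝ := (W.card : ℝ) with hn
  set m : ℝ := (X.card : ℝ) with hm
  set nn : ℝ := (W0.card : ℝ) with hnn
  have hn0 : 0 < n := by rw [hn]; exact_mod_cast hW1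
  have hXW : X ⊆ W := Finset.filter_subset _ _
  have hXcard : (1 - ε8) * n ≤ m := by
    have h1 := sum_ind_compl W (fun x => Xp k D P W ε6 p x)
    have h2 : m = ∑ x ∈ W, ind (Xp k D P W ε6 p x) := by rw [hm, hX, card_filter_ind]
    rw [← h2, ← hn] at h1
    have e : (1 - ε8) * n = n - ε8 * n := by ring
    rw [e]; linarith
  have hmn : n / 2 ≤ m := by
    refine le_trans ?_ hXcard
    have := mul_le_mul_of_nonneg_right d1 hn0.le
    have e : (1 - ε8) * n = n - ε8 * n := by ring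
    rw [e]; linarith
  have hm0 : 0 < m := by linarith
  have hmN : N ≤ X.card := by
    have h1 : (2 * N + 1 : ℝ) ≤ n := by rw [hn]; exact_mod_cast hWN
    have h2 : (N : ℝ) ≤ m := by linarith
    rw [hm] at h2
    exact_mod_cast h2
  have hpk : p < k := by have := hp.2.1; omega
  have hmle : m ≤ n := by
    rw [hm, hn]; exact_mod_cast Finset.card_le_card hXW
  obtain ⟨A, cls, hA, hcls, hsize, hpal⟩ := hf p hp εs (hεs2 p hpk) V P hsymm X
    ((hNle p hpk).trans hmN)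
    (by
      intro x hx
      have h1 : ∑ y ∈ X, ls (P x y) ≤ ∑ y ∈ W, ls (P x y) :=
        Finset.sum_le_sum_of_subset_of_nonneg hXW (fun _ _ _ => ls_nonneg _)
      refine (h1.trans (hloss x (hXW hx))).trans ?_
      have h2 : (ℓ + εs) * ((1 - ε8) * n) ≤ (ℓ + εs) * m :=
        mul_le_mul_of_nonneg_left hXcard (by positivity)
      refine le_trans ?_ h2
      have e : (ℓ + εs) * ((1 - ε8) * n) = (ℓ + εs - ε8 * (ℓ + εs)) * n := by ring
      rw [e]
      exact mul_le_mul_of_nonneg_right (by linarith) hn0.le)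
    (by
      intro x hx
      have h1 : ∑ y ∈ X, ind (¬ okp k D p (P x y)) ≤ ∑ y ∈ W, ind (¬ okp k D p (P x y)) :=
        Finset.sum_le_sum_of_subset_of_nonneg hXW (fun _ _ _ => ind_nonneg _)
      have h2 : ∑ y ∈ W, ind (¬ okp k D p (P x y)) ≤ ε6 * n := (Finset.mem_filter.mp hx).2
      have h3 : ε6 * n ≤ εs / 2 * n := mul_le_mul_of_nonneg_right e1 hn0.le
      have h4 : εs * (n / 2) ≤ εs * m := mul_le_mul_of_nonneg_left hmn hεs.le
      have e : εs / 2 * n = εs * (n / 2) := by ring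
      linarith)
    (by
      refine (sc_mono k _ P X W hXW).trans (hsc.trans ?_)
      have h1 : (n / 2) ^ k ≤ m ^ k := pow_le_pow_left₀ (by positivity) hmn k
      calc ε3 * n ^ k ≤ εs / 2 ^ k * n ^ k := mul_le_mul_of_nonneg_right f3 (by positivity)
        _ = εs * (n / 2) ^ k := by rw [div_pow]; ring
        _ ≤ εs * m ^ k := mul_le_mul_of_nonneg_left h1 hεs.le)
  refine ⟨p, A, cls, hp, hA, hcls, ?_, ?_⟩
  -- few vertices outside `X`
  all_goals
    have hsub : X ⊆ W0 := hXW.trans hWW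
    have hout : ((W0 \ X).card : ℝ) ≤ η / 8 * nn := by
      rw [Finset.cast_card_sdiff hsub, ← hm, ← hnn]
      have h1 : (1 - ε8) * ((1 - η1) * nn) ≤ m :=
        (mul_le_mul_of_nonneg_left hWcard (by linarith)).trans hXcard
      have hnn0 : 0 ≤ nn := by positivity
      have e : (1 - ε8) * ((1 - η1) * nn) = nn - (ε8 + η1) * nn + ε8 * η1 * nn := by ring
      rw [e] at h1
      have h2 : 0 ≤ ε8 * η1 * nn := by positivity
      have h3 : (ε8 + η1) * nn ≤ η / 8 * nn := mul_le_mul_of_nonneg_right (by linarith) hnn0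
      linarith
    have hnn0 : 0 ≤ nn := by positivity
    have hmnn : m ≤ nn := by
      rw [hm, hnn]; exact_mod_cast Finset.card_le_card hsub
  · intro i hi
    have h1 : ∑ x ∈ W0, ind (cls x = i) = ∑ x ∈ X, ind (cls x = i) + ∑ x ∈ W0 \ X, ind (cls x = i) := by
      rw [add_comm, Finset.sum_sdiff hsub]
    have h2 : 0 ≤ ∑ x ∈ W0 \ X, ind (cls x = i) := Finset.sum_nonneg fun _ _ => ind_nonneg _
    have h3 : ∑ x ∈ W0 \ X, ind (cls x = i) ≤ η / 8 * nn := by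
      refine le_trans (Finset.sum_le_sum fun x _ => ind_le_one _) ?_
      rw [Finset.sum_const, nsmul_eq_mul, mul_one]
      exact hout
    have h4 := abs_le.mp (hsize i hi)
    rw [← hm] at h4
    have hpr : (1 : ℝ) ≤ p := by exact_mod_cast hp.1
    have h5 : nn / p - m / p ≤ η / 8 * nn := by
      rw [Finset.cast_card_sdiff hsub, ← hm, ← hnn] at hout
      rw [← sub_div]
      refine (div_le_self (by linarith) hpr).trans hout
    have h6 : m / p ≤ nn / p := div_le_div_of_nonneg_right hmnn (by linarith)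
    have h7 : η / 4 * m ≤ η / 4 * nn := mul_le_mul_of_nonneg_left hmnn (by positivity)
    have h8 : 0 ≤ η * nn := by positivity
    rw [h1, abs_le]
    constructor
    · linarith [h4.1]
    · linarith [h4.2]
  · let f : V → V → ℝ := fun x y => ind (P x y ≠ if cls x = cls y then A else univ)
    have hf1 : ∀ x y, f x y ≤ 1 := fun x y => ind_le_one _
    have h1 : ∑ x ∈ W0, ∑ y ∈ W0, f x y = ∑ x ∈ X, ∑ y ∈ X, f x y + ∑ x ∈ X, ∑ y ∈ W0 \ X, f x y +
        ∑ x ∈ W0 \ X, ∑ y ∈ W0, f x y := by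
      rw [← Finset.sum_add_distrib, ← Finset.sum_sdiff hsub, add_comm]
      congr 1
      refine Finset.sum_congr rfl fun x _ => ?_
      rw [← Finset.sum_sdiff hsub, add_comm]
    have h2 : ∑ x ∈ X, ∑ y ∈ W0 \ X, f x y ≤ nn * (η / 8 * nn) := by
      calc ∑ x ∈ X, ∑ y ∈ W0 \ X, f x y ≤ ∑ x ∈ X, ∑ y ∈ W0 \ X, (1 : ℝ) :=
            Finset.sum_le_sum fun x _ => Finset.sum_le_sum fun y _ => hf1 x y
        _ = m * ((W0 \ X).card : ℝ) := by
            simp only [Finset.sum_const, nsmul_eq_mul, mul_one]; rw [hm]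
        _ ≤ nn * (η / 8 * nn) := mul_le_mul hmnn hout (by positivity) hnn0
    have h3 : ∑ x ∈ W0 \ X, ∑ y ∈ W0, f x y ≤ (η / 8 * nn) * nn := by
      calc ∑ x ∈ W0 \ X, ∑ y ∈ W0, f x y ≤ ∑ x ∈ W0 \ X, ∑ y ∈ W0, (1 : ℝ) :=
            Finset.sum_le_sum fun x _ => Finset.sum_le_sum fun y _ => hf1 x y
        _ = ((W0 \ X).card : ℝ) * nn := by
            simp only [Finset.sum_const, nsmul_eq_mul, mul_one]; rw [hnn]
        _ ≤ _ := mul_le_mul_of_nonneg_right hout hnn0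
    have h4 : η / 4 * m ^ 2 ≤ η / 4 * nn ^ 2 := by
      apply mul_le_mul_of_nonneg_left _ (by positivity)
      exact pow_le_pow_left₀ (by positivity) hmnn 2
    have h5 : ∑ x ∈ X, ∑ y ∈ X, f x y ≤ η / 4 * m ^ 2 := hpal
    change ∑ x ∈ W0, ∑ y ∈ W0, f x y ≤ η * nn ^ 2
    rw [h1]
    have h6 : 0 ≤ η * nn ^ 2 := by positivity
    have e : nn * (η / 8 * nn) = η * nn ^ 2 / 8 := by ring
    have e' : η / 8 * nn * nn = η * nn ^ 2 / 8 := by ring
    rw [e] at h2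
    rw [e'] at h3
    linarith

end Pool.Agent.TH477.PA
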