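import Pool.Agent.TH477.PA.Single
import Pool.Agent.TH669.J647
import Pool.Agent.TH75.J648

/-!
Stability for a fixed type.
-/

set_option autoImplicit false

namespace Pool.Agent.TH477.PA

open Finset
open Pool.Agent.TH477.RB (tup)

theorem tup_take {V : Type} (m d : ℕ) (W : Finset V) (f : (Fin m → V) → ℝ) :
    ∑ x ∈ tup (m + d) W, f (fun i => x (Fin.castAdd d i)) =
      (W.card : ℝ) ^ d * ∑ z ∈ tup m W, f z := by
  classical
  have h : ∑ x ∈ tup (m + d) W, f (fun i => x (Fin.castAdd d i)) =
      ∑ p ∈ tup m W ×ˢ tup d W, f p.1 := by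
    refine Finset.sum_bij' (fun x _ => (fun i => x (Fin.castAdd d i), fun i => x (Fin.natAdd m i)))
      (fun p _ => Fin.append p.1 p.2) ?_ ?_ ?_ ?_ ?_
    · intro x hx
      rw [Finset.mem_product, mem_tup, mem_tup]
      exact ⟨fun i => mem_tup.mp hx _, fun i => mem_tup.mp hx _⟩
    · intro p hp
      rw [Finset.mem_product, mem_tup, mem_tup] at hp
      rw [mem_tup]
      intro i
      refine Fin.addCases (fun j => ?_) (fun j => ?_) i
      · rw [Fin.append_left]; exact hp.1 j
      · rw [Fin.append_right]; exact hp.2 j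
    · intro x _
      funext i
      refine Fin.addCases (fun j => ?_) (fun j => ?_) i
      · rw [Fin.append_left]
      · rw [Fin.append_right]
    · intro p _
      ext i
      · simp
      · simp
    · intro x _
      rfl
  rw [h, Finset.sum_product]
  simp only [Finset.sum_const, nsmul_eq_mul, card_tup]
  push_cast
  rw [Finset.mul_sum]

/-- few tuples of `p+1` vertices with full palettes -/
theorem few_full (k D r : ℕ) (ℓ : ℝ) (hO : Opt k D r ℓ) (p : ℕ) (hp : IsType k D r ℓ p)
    (ε : ℝ) (hε : 0 < ε) :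
    ∃ ε' : ℝ, 0 < ε' ∧ ∀ (V : Type) (P : V → V → Finset (Fin r)) (W : Finset V), 1 ≤ W.card →
      (∀ x ∈ W, ∑ y ∈ W, ls (P x y) ≤ (ℓ + ε') * (W.card : ℝ)) →
      (∀ x ∈ W, ∑ y ∈ W, ind (¬ okp k D p (P x y)) ≤ ε' * (W.card : ℝ)) →
      sc k (k.choose 2 + 1 - D) P W ≤ ε' * (W.card : ℝ) ^ k →
      ∑ x ∈ Fintype.piFinset (fun _ : Fin (p + 1) => W),
        ind (∀ i j, i < j → P (x i) (x j) = univ) ≤ ε * (W.card : ℝ) ^ (p + 1) := by
  have hk := hO.hk
  have hℓ := hO.pos
  have hk0 : (0 : ℝ) < k := by exact_mod_cast (by omega : 0 < k)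
  obtain ⟨γ, hγ, hgap⟩ := fs_gap k r ℓ
  set δ : ℝ := γ / (4 * (k * ℓ + γ)) with hδ
  have hkl : 0 < k * ℓ + γ := by positivity
  have hδ0 : 0 < δ := by positivity
  have hδ1 : (k * ℓ + γ) * δ = γ / 4 := by rw [hδ]; field_simp
  obtain ⟨p1, p2, _, _⟩ := hp
  obtain ⟨d, hd⟩ : ∃ d, k = (p + 1) + d := ⟨k - (p + 1), by omega⟩
  set ε' : ℝ := min (γ / (2 * k)) (min (δ / k) (δ ^ d * ε)) with hε'
  have a1 : ε' ≤ γ / (2 * k) := min_le_left _ _
  have a2 : ε' ≤ δ / k := (min_le_right _ _).trans (min_le_left _ _)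
  have a3 : ε' ≤ δ ^ d * ε := (min_le_right _ _).trans (min_le_right _ _)
  have a0 : 0 < ε' := by positivity
  have a1' : k * ε' ≤ γ / 2 := by
    have := mul_le_mul_of_nonneg_left a1 hk0.le
    have e : k * (γ / (2 * k)) = γ / 2 := by field_simp
    linarith
  have a2' : k * ε' ≤ δ := by
    have := mul_le_mul_of_nonneg_left a2 hk0.le
    have e : k * (δ / k) = δ := by field_simp
    linarith
  refine ⟨ε', a0, ?_⟩
  intro V P W hW hloss hok hsc
  set n : ℝ := (W.card : ℝ) with hn
  have hn0 : 0 < n := by rw [hn]; exact_mod_cast hW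
  let C : (Fin k → V) → Prop := fun x => ∀ i j : Fin k, i < j → j.val ≤ p → P (x i) (x j) = univ
  let R : Fin k → (Fin k → V) → V → Prop := fun j x y =>
    fs P j x y ≤ (j.val : ℝ) * ℓ ∧ ∀ i, i < j → okp k D p (P (x i) y)
  have htree := tree_ind (J := k) W (p + 1) C R δ hδ0.le
    (by
      intro x t y ht
      have h : ∀ i : Fin k, i.val ≤ p → Function.update x t y i = x i := by
        intro i hi
        apply Function.update_of_ne
        intro h; rw [h] at hi; omega
      simp only [C]
      constructor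
      · intro hC i j hij hj
        have h1 := hC i j hij hj
        have hip : i.val ≤ p := by rw [Fin.lt_def] at hij; omega
        rw [h i hip, h j hj] at h1
        exact h1
      · intro hC i j hij hj
        have hip : i.val ≤ p := by rw [Fin.lt_def] at hij; omega
        rw [h i hip, h j hj]
        exact hC i j hij hj)
    (by
      intro j x t y z hjt
      simp only [R]
      rw [fs_update P j x t y z hjt]
      constructor
      · rintro ⟨h1, h2⟩
        exact ⟨h1, fun i hi => by rw [← update_lt x t y j i hjt hi]; exact h2 i hi⟩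
      · rintro ⟨h1, h2⟩
        exact ⟨h1, fun i hi => by rw [update_lt x t y j i hjt hi]; exact h2 i hi⟩)
    k (by omega) le_rfl (by
      intro x hx _ t _ _ _
      rw [← hn]
      set T : ℝ := (t.val : ℝ) with hT
      have hT0 : 0 ≤ T := by positivity
      have hTk : T ≤ k := by rw [hT]; exact_mod_cast t.isLt.le
      have h1 : ∑ y ∈ W, fs P t x y ≤ T * ((ℓ + ε') * n) :=
        sum_fs P t x W _ (fun i _ => hloss _ (mem_tup.mp hx i))
      have h2 := mul_sum_ind_le W (fun y => ¬ fs P t x y ≤ T * ℓ) (fun y => fs P t x y)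
        (T * ℓ + γ) (fun y _ => fs_nonneg P t x y) (fun y _ hy => by
          rcases hgap V P t x y with h | h
          · exact absurd h hy
          · exact h)
      have h3 := sum_ind_compl W (fun y => fs P t x y ≤ T * ℓ)
      rw [← hn] at h3
      set g := ∑ y ∈ W, ind (fs P t x y ≤ T * ℓ) with hg
      set b := ∑ y ∈ W, ind (¬ fs P t x y ≤ T * ℓ) with hb
      have hg0 : 0 ≤ g := Finset.sum_nonneg fun _ _ => ind_nonneg _
      -- many vertices with small loss
      have h4 : 2 * δ * n ≤ g := by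
        have h5 : (T * ℓ + γ) * b ≤ T * ((ℓ + ε') * n) := h2.trans h1
        have hb' : b = n - g := by linarith
        rw [hb'] at h5
        have h6 : (γ - T * ε') * n ≤ (T * ℓ + γ) * g := by
          have e1 : (T * ℓ + γ) * (n - g) = T * ℓ * n + γ * n - (T * ℓ + γ) * g := by ring
          have e2 : T * ((ℓ + ε') * n) = T * ℓ * n + T * ε' * n := by ring
          rw [e1, e2] at h5
          have e3 : (γ - T * ε') * n = γ * n - T * ε' * n := by ring
          rw [e3]; linarith
        have h7 : γ / 2 * n ≤ (γ - T * ε') * n := by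
          apply mul_le_mul_of_nonneg_right _ hn0.le
          have := mul_le_mul_of_nonneg_right hTk a0.le
          linarith
        have h8 : (T * ℓ + γ) * g ≤ (k * ℓ + γ) * g := by
          apply mul_le_mul_of_nonneg_right _ hg0
          have := mul_le_mul_of_nonneg_right hTk hℓ.le
          linarith
        have h9 : (k * ℓ + γ) * (2 * δ * n) ≤ (k * ℓ + γ) * g := by
          calc (k * ℓ + γ) * (2 * δ * n) = 2 * ((k * ℓ + γ) * δ) * n := by ring
            _ = γ / 2 * n := by rw [hδ1]; ring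
            _ ≤ _ := h7.trans (h6.trans h8)
        exact le_of_mul_le_mul_left h9 hkl
      -- few bad palettes
      have h5 : g ≤ ∑ y ∈ W, ind (R t x y) +
          ∑ i ∈ univ.filter (fun i => i < t), ∑ y ∈ W, ind (¬ okp k D p (P (x i) y)) := by
        rw [Finset.sum_comm, ← Finset.sum_add_distrib, hg]
        refine Finset.sum_le_sum fun y _ => ?_
        have hnn : 0 ≤ ∑ i ∈ univ.filter (fun i => i < t), ind (¬ okp k D p (P (x i) y)) :=
          Finset.sum_nonneg fun _ _ => ind_nonneg _
        by_cases hf : fs P t x y ≤ T * ℓ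
        · rw [ind_pos hf]
          by_cases ho : ∀ i, i < t → okp k D p (P (x i) y)
          · rw [ind_pos (⟨hf, ho⟩ : R t x y)]
            linarith
          · push Not at ho
            obtain ⟨i, hi, hoi⟩ := ho
            have h6 := Finset.single_le_sum (f := fun i => ind (¬ okp k D p (P (x i) y)))
              (fun _ _ => ind_nonneg _) (by simp [hi] : i ∈ univ.filter (fun i => i < t))
            have h7 : ind (¬ okp k D p (P (x i) y)) = 1 := ind_pos hoi
            have := ind_nonneg (R t x y)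
            linarith
        · rw [ind_neg hf]
          have := ind_nonneg (R t x y)
          linarith
      have h6 : ∑ i ∈ univ.filter (fun i => i < t), ∑ y ∈ W, ind (¬ okp k D p (P (x i) y)) ≤
          T * (ε' * n) := by
        calc _ ≤ ∑ i ∈ univ.filter (fun i => i < t), ε' * n :=
              Finset.sum_le_sum fun i _ => hok _ (mem_tup.mp hx i)
          _ = _ := by
              rw [Finset.sum_const, nsmul_eq_mul]
              have : univ.filter (fun i => i < t) = Finset.Iio t := by ext; simp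
              rw [this, Fin.card_Iio]
      have h7 : T * (ε' * n) ≤ δ * n := by
        have h8 := mul_le_mul_of_nonneg_right hTk a0.le
        calc T * (ε' * n) = (T * ε') * n := by ring
          _ ≤ δ * n := mul_le_mul_of_nonneg_right (h8.trans a2') hn0.le
      have e : 2 * δ * n = δ * n + δ * n := by ring
      rw [e] at h4
      linarith)
  -- such tuples can be coloured
  have hsub : ∑ x ∈ tup k W, ind (C x ∧ ∀ j : Fin k, p + 1 ≤ j.val → j.val < k → R j x (x j)) ≤
      sc k (k.choose 2 + 1 - D) P W := by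
    unfold sc
    refine Finset.sum_le_sum fun x hx => ind_mono ?_
    rintro ⟨hC, hR⟩
    by_contra hcon
    obtain ⟨q, j, hq, hj, i, hi, hcard, _⟩ := tuple_type hO P x hcon (by
      intro j
      rcases Nat.lt_or_ge j.val (p + 1) with h | h
      · unfold fs
        rw [Finset.sum_eq_zero]
        · positivity
        · intro i hi
          have hij : i < j := by simpa using hi
          rw [hC i j hij (by omega), ls_univ]
      · exact (hR j h j.isLt).1)
    have hij : i < j := by rw [Fin.lt_def]; omega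
    have hctr := IsType.ct_lt hO hq
    have hnu : P (x i) (x j) ≠ univ := by
      intro h
      rw [h, Finset.card_univ, Fintype.card_fin] at hcard
      omega
    rcases Nat.lt_or_ge j.val (p + 1) with h | h
    · exact hnu (hC i j hij (by omega))
    · rcases (hR j h j.isLt).2 i hij with h1 | h1
      · have hpq : p ≠ q := by omega
        exact IsType.ct_ne hO ⟨p1, p2, by assumption, by assumption⟩ hq hpq (h1.symm.trans hcard)
      · exact hnu h1.2
  have hfin := (htree.trans hsub).trans hsc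
  have hkd : k - (p + 1) = d := by omega
  rw [hkd] at hfin
  have htake : ∑ x ∈ tup k W, ind (C x) = n ^ d * ∑ z ∈ tup (p + 1) W,
      ind (∀ i j, i < j → P (z i) (z j) = univ) := by
    subst hd
    rw [hn, ← tup_take (p + 1) d W (fun z => ind (∀ i j, i < j → P (z i) (z j) = univ))]
    refine Finset.sum_congr rfl fun x _ => ind_congr ?_
    constructor
    · intro hC i j hij
      exact hC (Fin.castAdd d i) (Fin.castAdd d j) (by rw [Fin.lt_def] at hij ⊢; exact hij) (by
        have h1 := j.isLt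
        have h2 : (Fin.castAdd d j).val = j.val := rfl
        rw [h2]; omega)
    · intro hC i j hij hj
      have hi : i.val < p + 1 := by rw [Fin.lt_def] at hij; omega
      exact hC ⟨i.val, hi⟩ ⟨j.val, by omega⟩ (by rw [Fin.lt_def] at hij ⊢; exact hij)
  rw [htake] at hfin
  have hnk : n ^ k = n ^ d * n ^ (p + 1) := by
    rw [← pow_add]; congr 1; omega
  have hfin2 : (δ ^ d * n ^ d) * ∑ z ∈ tup (p + 1) W, ind (∀ i j, i < j → P (z i) (z j) = univ) ≤
      (δ ^ d * n ^ d) * (ε * n ^ (p + 1)) := by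
    calc (δ ^ d * n ^ d) * ∑ z ∈ tup (p + 1) W, ind (∀ i j, i < j → P (z i) (z j) = univ)
        = δ ^ d * (n ^ d * ∑ z ∈ tup (p + 1) W, ind (∀ i j, i < j → P (z i) (z j) = univ)) := by
          ring
      _ ≤ ε' * n ^ k := hfin
      _ ≤ (δ ^ d * ε) * n ^ k := mul_le_mul_of_nonneg_right a3 (pow_nonneg hn0.le _)
      _ = _ := by rw [hnk]; ring
  exact le_of_mul_le_mul_left hfin2 (mul_pos (pow_pos hδ0 _) (pow_pos hn0 _))

/-- stability when almost all palettes are of type `p` -/
theorem stab_p (k D r : ℕ) (ℓ : ℝ) (hO : Opt k D r ℓ) (p : ℕ) (hp : IsType k D r ℓ p) (η : ℝ)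
    (hη : 0 < η) :
    ∃ ε : ℝ, 0 < ε ∧ ∃ n0 : ℕ, ∀ ε' : ℝ, ε' ≤ ε → ∀ (V : Type) (P : V → V → Finset (Fin r)),
      (∀ x y, P x y = P y x) → ∀ W : Finset V, n0 ≤ W.card →
      (∀ x ∈ W, ∑ y ∈ W, ls (P x y) ≤ (ℓ + ε') * (W.card : ℝ)) →
      (∀ x ∈ W, ∑ y ∈ W, ind (¬ okp k D p (P x y)) ≤ ε' * (W.card : ℝ)) →
      sc k (k.choose 2 + 1 - D) P W ≤ ε' * (W.card : ℝ) ^ k →
      ∃ (A : Finset (Fin r)) (cls : V → ℕ), A.card = ct k D p ∧ (∀ x, cls x < p) ∧
        (∀ i, i < p → |∑ x ∈ W, ind (cls x = i) - (W.card : ℝ) / p| ≤ η * W.card) ∧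
        ∑ x ∈ W, ∑ y ∈ W, ind (P x y ≠ if cls x = cls y then A else univ) ≤
          η * (W.card : ℝ) ^ 2 := by
  have hk := hO.hk
  have hℓ := hO.pos
  have hr3 := hO.r3
  have hp1 := hp.1
  have hpr : (1 : ℝ) ≤ p := by exact_mod_cast hp1
  have hp0 : (0 : ℝ) < p := by linarith
  -- cls and the sizes of the palettes
  have hstep : ∀ η1 : ℝ, 0 < η1 → ∃ ε : ℝ, 0 < ε ∧ ∃ n0 : ℕ, ∀ ε' : ℝ, ε' ≤ ε →
      ∀ (V : Type) (P : V → V → Finset (Fin r)),
      (∀ x y, P x y = P y x) → ∀ W : Finset V, n0 ≤ W.card →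
      (∀ x ∈ W, ∑ y ∈ W, ls (P x y) ≤ (ℓ + ε') * (W.card : ℝ)) →
      (∀ x ∈ W, ∑ y ∈ W, ind (¬ okp k D p (P x y)) ≤ ε' * (W.card : ℝ)) →
      sc k (k.choose 2 + 1 - D) P W ≤ ε' * (W.card : ℝ) ^ k →
      ∃ (cls : V → ℕ), (∀ x, cls x < p) ∧
        (∀ i, i < p → |∑ x ∈ W, ind (cls x = i) - (W.card : ℝ) / p| ≤ η1 * W.card) ∧
        ∑ x ∈ W, ∑ y ∈ W, ind (¬ (if cls x = cls y then (P x y).card = ct k D p else
          P x y = univ)) ≤ η1 * (W.card : ℝ) ^ 2 := by
    intro η1 hη1
    set η2 : ℝ := min (η1 / 2) (η1 ^ 2 / 2) with hη2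
    have hη2a : η2 ≤ η1 / 2 := min_le_left _ _
    have hη2b : η2 ≤ η1 ^ 2 / 2 := min_le_right _ _
    have hη20 : 0 < η2 := by positivity
    obtain ⟨εJ, hεJ, nJ, hJ⟩ := Pool.Agent.TH669.J647.J8_few_cliques p hp1 η2 hη20
    obtain ⟨εF, hεF, hF⟩ := few_full k D r ℓ hO p hp εJ hεJ
    refine ⟨min εF (min (η2 / 1) (min (εJ * ℓ / 4) (εJ / 4) ⊓ (η1 ^ 2 / 8) ⊓ (η1 ^ 2 * ℓ / 8))), by positivity,
      max nJ 1, ?_⟩
    set ε : ℝ := min εF (min (η2 / 1) (min (εJ * ℓ / 4) (εJ / 4) ⊓ (η1 ^ 2 / 8) ⊓ (η1 ^ 2 * ℓ / 8))) with hεd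
    have b1 : ε ≤ εF := min_le_left _ _
    have b2 : ε ≤ η2 := ((min_le_right _ _).trans (min_le_left _ _)).trans (by rw [div_one])
    have b35 : ε ≤ min (εJ * ℓ / 4) (εJ / 4) ⊓ (η1 ^ 2 / 8) ⊓ (η1 ^ 2 * ℓ / 8) :=
      (min_le_right _ _).trans (min_le_right _ _)
    have b6 : ε ≤ η1 ^ 2 * ℓ / 8 := b35.trans inf_le_right
    have b5 : ε ≤ η1 ^ 2 / 8 := b35.trans (inf_le_left.trans inf_le_right)
    have b34 : ε ≤ min (εJ * ℓ / 4) (εJ / 4) := b35.trans (inf_le_left.trans inf_le_left)
    have b3 : ε ≤ εJ * ℓ / 4 := b34.trans (min_le_left _ _)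
    have b4 : ε ≤ εJ / 4 := b34.trans (min_le_right _ _)
    intro ε' hε' V P hsymm W hWn hloss hok hsc
    set n : ℝ := (W.card : ℝ) with hn
    have hW1 : 1 ≤ W.card := (le_max_right _ _).trans hWn
    have hn0 : 0 < n := by rw [hn]; exact_mod_cast hW1
    -- monotonicity
    have hloss' : ∀ x ∈ W, ∑ y ∈ W, ls (P x y) ≤ (ℓ + ε) * n := fun x hx =>
      (hloss x hx).trans (mul_le_mul_of_nonneg_right (by linarith) hn0.le)
    have hok' : ∀ x ∈ W, ∑ y ∈ W, ind (¬ okp k D p (P x y)) ≤ ε * n := fun x hx =>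
      (hok x hx).trans (mul_le_mul_of_nonneg_right hε' hn0.le)
    have hsc' : sc k (k.choose 2 + 1 - D) P W ≤ ε * n ^ k :=
      hsc.trans (mul_le_mul_of_nonneg_right hε' (by positivity))
    -- few non-full palettes at every vertex
    have hnf : ∀ c : ℝ, 0 < c → ε ≤ c * ℓ / 4 → ε ≤ c / 4 → ∀ x ∈ W,
        ∑ y ∈ W, ind (¬ P x y = univ) ≤ (1 / p + c / 2) * n := by
      intro c hc hc1 hc2 x hx
      rcases Nat.lt_or_ge p 2 with hp2 | hp2
      · have hpe : p = 1 := by omega
        have h1 : ∑ y ∈ W, ind (¬ P x y = univ) ≤ ∑ y ∈ W, (1 : ℝ) :=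
          Finset.sum_le_sum fun y _ => ind_le_one _
        rw [Finset.sum_const, nsmul_eq_mul, mul_one, ← hn] at h1
        refine h1.trans ?_
        rw [hpe]
        have : 0 < c / 2 * n := by positivity
        push_cast
        linarith
      · have hpt : ∀ y ∈ W, (p : ℝ) * ℓ * ind (¬ P x y = univ) ≤ ls (P x y) +
            (p : ℝ) * ℓ * ind (¬ okp k D p (P x y)) := by
          intro y _
          by_cases hu : P x y = univ
          · rw [ind_neg (not_not.mpr hu)]
            have := ls_nonneg (P x y)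
            have := ind_nonneg (¬ okp k D p (P x y))
            have : 0 ≤ (p : ℝ) * ℓ * ind (¬ okp k D p (P x y)) := by positivity
            linarith
          · rw [ind_pos hu]
            by_cases ho : okp k D p (P x y)
            · rw [ind_neg (not_not.mpr ho)]
              rcases ho with ho | ho
              · have : ls (P x y) = (p : ℝ) * ℓ := by
                  unfold ls; rw [ho, hp.2.2.2]
                linarith
              · exact absurd ho.2 hu
            · rw [ind_pos ho]
              have := ls_nonneg (P x y)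
              linarith
        have hs := Finset.sum_le_sum hpt
        rw [← Finset.mul_sum, Finset.sum_add_distrib, ← Finset.mul_sum] at hs
        have h1 := hloss' x hx
        have h2 : (p : ℝ) * ℓ * ∑ y ∈ W, ind (¬ okp k D p (P x y)) ≤ (p : ℝ) * ℓ * (ε * n) :=
          mul_le_mul_of_nonneg_left (hok' x hx) (by positivity)
        have h3 : (p : ℝ) * ℓ * ∑ y ∈ W, ind (¬ P x y = univ) ≤
            (p : ℝ) * ℓ * ((1 / p + c / 2) * n) := by
          refine (hs.trans (add_le_add h1 h2)).trans ?_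
          have e1 : (p : ℝ) * ℓ * ((1 / p + c / 2) * n) = ℓ * n + p * ℓ * (c / 2) * n := by
            field_simp
          rw [e1]
          have h4 : ε * n ≤ p * (c * ℓ / 4) * n := by
            apply mul_le_mul_of_nonneg_right _ hn0.le
            have : 0 < c * ℓ / 4 := by positivity
            nlinarith
          have h5 : (p : ℝ) * ℓ * (ε * n) ≤ p * ℓ * (c / 4 * n) := by
            apply mul_le_mul_of_nonneg_left _ (by positivity)
            exact mul_le_mul_of_nonneg_right hc2 hn0.le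
          have e2 : (p : ℝ) * ℓ * (c / 2) * n = p * (c * ℓ / 4) * n + p * ℓ * (c / 4 * n) := by ring
          rw [e2]
          linarith
        exact le_of_mul_le_mul_left h3 (by positivity)
    obtain ⟨cls, hcls, hH⟩ := hJ V W (fun x y => P x y = univ) ((le_max_left _ _).trans hWn)
      (fun x y h => by rw [hsymm]; exact h)
      (by
        intro x hx
        refine (hnf εJ hεJ b3 b4 x hx).trans ?_
        apply mul_le_mul_of_nonneg_right _ hn0.le
        linarith)
      (hF V P W hW1 (fun x hx => (hloss' x hx).trans (mul_le_mul_of_nonneg_right (by linarith) hn0.le))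
        (fun x hx => (hok' x hx).trans (mul_le_mul_of_nonneg_right b1 hn0.le))
        (hsc'.trans (mul_le_mul_of_nonneg_right b1 (by positivity))))
    refine ⟨cls, hcls, ?_, ?_⟩
    · -- sizes
      have hsame : ∑ x ∈ W, ∑ y ∈ W, ind (cls x = cls y) ≤ (1 / p + η1 ^ 2 / 4) * n ^ 2 + η2 * n ^ 2 := by
        have h1 : ∑ x ∈ W, ∑ y ∈ W, ind (cls x = cls y) ≤
            ∑ x ∈ W, ∑ y ∈ W, ind (¬ P x y = univ) +
            ∑ x ∈ W, ∑ y ∈ W, ind (¬ (P x y = univ ↔ cls x ≠ cls y)) := by
          rw [← Finset.sum_add_distrib]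
          refine Finset.sum_le_sum fun x _ => sum_add_ind_le W _ _ _ ?_
          intro y _ h
          by_cases hu : P x y = univ
          · right
            intro hiff
            exact hiff.mp hu h
          · exact Or.inl hu
        have h2 : ∑ x ∈ W, ∑ y ∈ W, ind (¬ P x y = univ) ≤ (1 / p + η1 ^ 2 / 4) * n ^ 2 := by
          have h3 : ∀ x ∈ W, ∑ y ∈ W, ind (¬ P x y = univ) ≤ (1 / p + η1 ^ 2 / 4) * n := by
            intro x hx
            have := hnf (η1 ^ 2 / 2) (by positivity) (by linarith) (by linarith) x hx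
            have e : η1 ^ 2 / 2 / 2 = η1 ^ 2 / 4 := by ring
            rw [e] at this
            exact this
          refine (Finset.sum_le_sum h3).trans (le_of_eq ?_)
          rw [Finset.sum_const, nsmul_eq_mul, ← hn]; ring
        have h3 : ∑ x ∈ W, ∑ y ∈ W, ind (¬ (P x y = univ ↔ cls x ≠ cls y)) ≤ η2 * n ^ 2 := hH
        linarith
      set a : ℕ → ℝ := fun i => ∑ x ∈ W, ind (cls x = i) with ha
      have hsum1 : ∑ i ∈ range p, a i = n := by
        simp only [ha]
        rw [Finset.sum_comm]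
        have : ∀ x ∈ W, ∑ i ∈ range p, ind (cls x = i) = 1 := by
          intro x _
          rw [Finset.sum_eq_single (cls x)]
          · exact ind_pos rfl
          · intro b _ hb
            exact ind_neg hb.symm
          · intro h
            exact absurd (Finset.mem_range.mpr (hcls x)) h
        rw [Finset.sum_congr rfl this, Finset.sum_const, nsmul_eq_mul, mul_one]
      have hsum2 : ∑ i ∈ range p, a i ^ 2 = ∑ x ∈ W, ∑ y ∈ W, ind (cls x = cls y) := by
        have h1 : ∀ x ∈ W, ∀ y ∈ W, ind (cls x = cls y) =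
            ∑ i ∈ range p, ind (cls x = i) * ind (cls y = i) := by
          intro x _ y _
          rw [Finset.sum_eq_single (cls x)]
          · rw [ind_pos rfl, one_mul]
            exact ind_congr ⟨fun h => h.symm, fun h => h.symm⟩
          · intro b _ hb
            rw [ind_neg hb.symm, zero_mul]
          · intro h
            exact absurd (Finset.mem_range.mpr (hcls x)) h
        rw [Finset.sum_congr rfl fun x hx => Finset.sum_congr rfl fun y hy => h1 x hx y hy]
        calc ∑ i ∈ range p, a i ^ 2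
            = ∑ i ∈ range p, ∑ x ∈ W, ∑ y ∈ W, ind (cls x = i) * ind (cls y = i) := by
              refine Finset.sum_congr rfl fun i _ => ?_
              simp only [ha]
              rw [pow_two, Finset.sum_mul_sum]
          _ = ∑ x ∈ W, ∑ i ∈ range p, ∑ y ∈ W, ind (cls x = i) * ind (cls y = i) := Finset.sum_comm
          _ = _ := Finset.sum_congr rfl fun x _ => Finset.sum_comm
      have hdev : ∑ i ∈ range p, (a i - n / p) ^ 2 ≤ η1 ^ 2 * n ^ 2 := by
        have h1 : ∑ i ∈ range p, (a i - n / p) ^ 2 = ∑ i ∈ range p, a i ^ 2 - n ^ 2 / p := by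
          have h2 : ∀ i ∈ range p, (a i - n / p) ^ 2 = a i ^ 2 - 2 * (n / p) * a i + (n / p) ^ 2 :=
            fun i _ => by ring
          rw [Finset.sum_congr rfl h2, Finset.sum_add_distrib, Finset.sum_sub_distrib,
            ← Finset.mul_sum, hsum1, Finset.sum_const, Finset.card_range, nsmul_eq_mul]
          field_simp
          ring
        rw [h1, hsum2]
        have e : (1 / (p : ℝ) + η1 ^ 2 / 4) * n ^ 2 + η2 * n ^ 2 =
            n ^ 2 / p + (η1 ^ 2 / 4 + η2) * n ^ 2 := by ring
        rw [e] at hsame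
        have h3 : (η1 ^ 2 / 4 + η2) * n ^ 2 ≤ η1 ^ 2 * n ^ 2 := by
          apply mul_le_mul_of_nonneg_right _ (by positivity)
          have : 0 ≤ η1 ^ 2 := by positivity
          linarith
        linarith
      intro i hi
      have h1 := Finset.single_le_sum (f := fun i => (a i - n / p) ^ 2) (fun _ _ => sq_nonneg _)
        (Finset.mem_range.mpr hi)
      have h2 : (a i - n / p) ^ 2 ≤ (η1 * n) ^ 2 := by
        rw [mul_pow]; exact h1.trans hdev
      exact abs_le_of_sq_le_sq h2 (by positivity)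
    · have h1 : ∑ x ∈ W, ∑ y ∈ W, ind (¬ (if cls x = cls y then (P x y).card = ct k D p else
          P x y = univ)) ≤ ∑ x ∈ W, ∑ y ∈ W, ind (¬ (P x y = univ ↔ cls x ≠ cls y)) +
          ∑ x ∈ W, ∑ y ∈ W, ind (¬ okp k D p (P x y)) := by
        rw [← Finset.sum_add_distrib]
        refine Finset.sum_le_sum fun x _ => sum_add_ind_le W _ _ _ ?_
        intro y _ h
        by_contra hh
        push Not at hh
        obtain ⟨h2, h3⟩ := hh
        apply h
        by_cases hc : cls x = cls y
        · rw [if_pos hc]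
          rcases h3 with h3 | h3
          · exact h3
          · exact absurd hc (h2.mp h3.2)
        · rw [if_neg hc]
          exact h2.mpr hc
      have h2 : ∑ x ∈ W, ∑ y ∈ W, ind (¬ (P x y = univ ↔ cls x ≠ cls y)) ≤ η2 * n ^ 2 := hH
      have h3 : ∑ x ∈ W, ∑ y ∈ W, ind (¬ okp k D p (P x y)) ≤ η2 * n ^ 2 := by
        refine (Finset.sum_le_sum fun x hx => (hok' x hx).trans
          (mul_le_mul_of_nonneg_right b2 hn0.le)).trans (le_of_eq ?_)
        rw [Finset.sum_const, nsmul_eq_mul, ← hn]; ring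
      have h4 : (η2 + η2) * n ^ 2 ≤ η1 * n ^ 2 :=
        mul_le_mul_of_nonneg_right (by linarith) (by positivity)
      have e : (η2 + η2) * n ^ 2 = η2 * n ^ 2 + η2 * n ^ 2 := by ring
      linarith
  have hD := hO.hD
  have hDC := hO.hDC
  have hr := hO.hr
  by_cases hlast : p ≠ 1 ∧ p = k - 1
  · -- Turan type
    have hct : ct k D p = 0 := by
      rw [ct_of_two_le (by omega)]; omega
    obtain ⟨ε, hε, n0, h⟩ := hstep η hη
    refine ⟨ε, hε, n0, ?_⟩
    intro ε' hε' V P hsymm W hWn hloss hok hsc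
    obtain ⟨cls, h1, h2, h3⟩ := h ε' hε' V P hsymm W hWn hloss hok hsc
    refine ⟨∅, cls, by rw [hct]; rfl, h1, h2, ?_⟩
    refine le_trans (Finset.sum_le_sum fun x _ => Finset.sum_le_sum fun y _ => ind_mono ?_) h3
    intro hne hif
    apply hne
    rw [hct] at hif
    split_ifs at hif ⊢ with hc
    · exact Finset.card_eq_zero.mp hif
    · exact hif
  · have hct2 : 2 ≤ ct k D p ∧ ((p = 1 ∧ ct k D p + D = k.choose 2) ∨
        (2 ≤ p ∧ k ≤ 2 * p ∧ p + ct k D p + D = k)) := by
      obtain ⟨_, p2, p3, _⟩ := hp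
      rcases Nat.lt_or_ge p 2 with hp2 | hp2
      · have hpe : p = 1 := by omega
        subst hpe
        rw [ct_one]
        exact ⟨by omega, Or.inl ⟨rfl, by omega⟩⟩
      · rw [ct_of_two_le hp2] at p3 ⊢
        refine ⟨by omega, Or.inr ⟨hp2, by omega, by omega⟩⟩
    obtain ⟨ε9, hε9, n9, h9⟩ := Pool.Agent.TH75.J648.J9_pal_eq k D r p (ct k D p) hk hD hct2.1 hr
      hct2.2 η hη
    obtain ⟨ε, hε, n0, h⟩ := hstep (min ε9 (min η (1 / (2 * p)))) (by positivity)
    set η1 : ℝ := min ε9 (min η (1 / (2 * p))) with hη1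
    have c1 : η1 ≤ ε9 := min_le_left _ _
    have c2 : η1 ≤ η := (min_le_right _ _).trans (min_le_left _ _)
    have c3 : η1 ≤ 1 / (2 * p) := (min_le_right _ _).trans (min_le_right _ _)
    refine ⟨min ε ε9, by positivity, max n0 n9, ?_⟩
    intro ε' hε' V P hsymm W hWn hloss hok hsc
    obtain ⟨cls, h1, h2, h3⟩ := h ε' (hε'.trans (min_le_left _ _)) V P hsymm W
      ((le_max_left _ _).trans hWn) hloss hok hsc
    have hn0 : (0 : ℝ) ≤ (W.card : ℝ) := by positivity
    obtain ⟨A, hA, hA2⟩ := h9 V P W cls ((le_max_right _ _).trans hWn) hsymm h1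
      (by
        intro i hi
        have h4 := (abs_le.mp (h2 i hi)).1
        have h5 : η1 * (W.card : ℝ) ≤ 1 / (2 * p) * W.card := mul_le_mul_of_nonneg_right c3 hn0
        have e : (W.card : ℝ) / (2 * p) = (W.card : ℝ) / p - 1 / (2 * p) * W.card := by
          field_simp; ring
        rw [e]
        linarith)
      (h3.trans (mul_le_mul_of_nonneg_right c1 (by positivity)))
      (hsc.trans (mul_le_mul_of_nonneg_right (hε'.trans (min_le_right _ _)) (by positivity)))
    exact ⟨A, cls, hA, h1, fun i hi => (h2 i hi).trans (mul_le_mul_of_nonneg_right c2 hn0), hA2⟩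

end Pool.Agent.TH477.PA
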