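import Pool.Agent.TH477.PA.Large

/-!
Tight structures, extension of greedy tuples.
-/

set_option autoImplicit false

namespace Pool.Agent.TH477.PA

open Finset
open Pool.Agent.TH477.RB (tup)

/-- the palettes which may occur in a structure with `p` classes -/
def okp (k D : ℕ) {r : ℕ} (p : ℕ) (R : Finset (Fin r)) : Prop :=
  R.card = ct k D p ∨ (2 ≤ p ∧ R = univ)

/-- `y` has exactly one palette of size `ct k D p` to the first `p` coordinates of `x`, the other
ones are full -/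
def Fm {V : Type} {k r : ℕ} (D : ℕ) (P : V → V → Finset (Fin r)) (p : ℕ) (x : Fin k → V) (y : V) :
    Prop :=
  ∃ i : Fin k, i.val < p ∧ (P (x i) y).card = ct k D p ∧
    ∀ j : Fin k, j.val < p → j ≠ i → P (x j) y = univ

theorem ct_one (k D : ℕ) : ct k D 1 = k.choose 2 - D := by simp [ct]

theorem ct_of_two_le {k D p : ℕ} (hp : 2 ≤ p) : ct k D p = k - p - D := by
  unfold ct; rw [if_neg (by omega)]

theorem le_choose {k : ℕ} (hk : 3 ≤ k) : k ≤ k.choose 2 := by
  obtain ⟨m, rfl⟩ : ∃ m, k = m + 1 := ⟨k - 1, by omega⟩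
  rw [Nat.choose_two_right, Nat.add_sub_cancel]
  rw [Nat.le_div_iff_mul_le (by norm_num)]
  exact Nat.mul_le_mul_left _ (by omega)

theorem IsType.ct_lt {k D r p : ℕ} {ℓ : ℝ} (hO : Opt k D r ℓ) (hp : IsType k D r ℓ p) :
    ct k D p < r := by
  have h1 := hO.hr
  have h2 := hO.hk
  have h3 := le_choose h2
  have h4 := hO.hDC
  rcases Nat.lt_or_ge p 2 with h5 | h5
  · have : p = 1 := by have := hp.1; omega
    rw [this, ct_one]; omega
  · rw [ct_of_two_le h5]; omega

theorem IsType.ct_ne {k D r p q : ℕ} {ℓ : ℝ} (hO : Opt k D r ℓ) (hp : IsType k D r ℓ p)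
    (hq : IsType k D r ℓ q) (hpq : p ≠ q) : ct k D p ≠ ct k D q := by
  have h2 := hO.hk
  have h3 := le_choose h2
  have h4 := hO.hDC
  have h5 := hO.hD
  obtain ⟨p1, p2, p3, _⟩ := hp
  obtain ⟨q1, q2, q3, _⟩ := hq
  rcases Nat.lt_or_ge p 2 with hp' | hp'
  · have hp1 : p = 1 := by omega
    have hq2 : 2 ≤ q := by omega
    rw [hp1, ct_one, ct_of_two_le hq2]
    omega
  · rcases Nat.lt_or_ge q 2 with hq' | hq'
    · have hq1 : q = 1 := by omega
      rw [hq1, ct_one, ct_of_two_le hp']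
      omega
    · rw [ct_of_two_le hp'] at p3 ⊢
      rw [ct_of_two_le hq'] at q3 ⊢
      omega

/-- two different types have only the full palette in common -/
theorem okp_two {k D r p q : ℕ} {ℓ : ℝ} (hO : Opt k D r ℓ) (hp : IsType k D r ℓ p)
    (hq : IsType k D r ℓ q) (hpq : p ≠ q) (R : Finset (Fin r)) (h1 : okp k D p R)
    (h2 : okp k D q R) : R = univ := by
  rcases h1 with h1 | h1
  · rcases h2 with h2 | h2
    · exact absurd (h1.symm.trans h2) (IsType.ct_ne hO hp hq hpq)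
    · exact h2.2
  · exact h1.2

theorem fs_split {V : Type} {k r : ℕ} (P : V → V → Finset (Fin r)) (t i : Fin k) (hi : i < t)
    (x : Fin k → V) (y : V) : fs P t x y =
      ls (P (x i) y) + ∑ j ∈ (univ.filter (fun j => j < t)).erase i, ls (P (x j) y) := by
  unfold fs
  exact (Finset.add_sum_erase _ (fun j => ls (P (x j) y))
    (by simp [hi] : i ∈ univ.filter (fun j => j < t))).symm

theorem Fm_fs {V : Type} {k D r : ℕ} {ℓ : ℝ} (P : V → V → Finset (Fin r)) (p : ℕ)
    (hp : IsType k D r ℓ p) (t : Fin k) (ht : t.val = p) (x : Fin k → V) (y : V)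
    (h : Fm D P p x y) : fs P t x y = (t.val : ℝ) * ℓ := by
  obtain ⟨i, hi, hc, hj⟩ := h
  have hit : i < t := by rw [Fin.lt_def, ht]; exact hi
  rw [fs_split P t i hit x y, ht, hp.2.2.2]
  have h1 : ls (P (x i) y) = Real.log r - Real.log ((ct k D p : ℕ) : ℝ) := by
    unfold ls; rw [hc]
  have h2 : ∑ j ∈ (univ.filter (fun j => j < t)).erase i, ls (P (x j) y) = 0 := by
    apply Finset.sum_eq_zero
    intro j hj'
    rw [Finset.mem_erase] at hj'
    have h3 : j < t := by simpa using hj'.2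
    rw [hj j (by rw [Fin.lt_def, ht] at h3; exact h3) hj'.1, ls_univ]
  rw [h1, h2, add_zero]

/-- coarse form of the classification -/
theorem tuple_type {V : Type} {k D r : ℕ} {ℓ : ℝ} (hO : Opt k D r ℓ) (P : V → V → Finset (Fin r))
    (x : Fin k → V) (hx : ¬ SCol (k.choose 2 + 1 - D) (fun i j => P (x i) (x j)))
    (hg : ∀ j : Fin k, fs P j x (x j) ≤ (j.val : ℝ) * ℓ) :
    ∃ (p : ℕ) (j : Fin k), IsType k D r ℓ p ∧ j.val = p ∧ Fm D P p x (x j) := by
  have hk := hO.hk
  have hD := hO.hD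
  rcases tuple hO _ hx hg with ⟨h1, i, j, hij, hj, he, hoth⟩ | ⟨h1, U, hU, hsub⟩ |
        ⟨p, c, hkp, hpc, hc2, h4, i, j, hij, hj, hcard, hoth⟩
  · have hct : ct k D (k - 1) = 0 := by
      rw [ct_of_two_le (by omega)]; omega
    refine ⟨k - 1, j, ⟨by omega, le_rfl, Or.inr ⟨by omega, Or.inl rfl⟩, ?_⟩, hj, i, ?_, ?_, ?_⟩
    · rw [hct]; simpa using h1
    · rw [Fin.lt_def] at hij; omega
    · rw [he, hct]; simp
    · intro j' hj' hne
      exact hoth j' (by rw [Fin.lt_def]; omega) hne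
  · let j : Fin k := ⟨1, by omega⟩
    let i : Fin k := ⟨0, by omega⟩
    have hij : i < j := by simp [Fin.lt_def, i, j]
    refine ⟨1, j, ⟨le_rfl, by omega, Or.inl rfl, ?_⟩, rfl, i, by simp [i], ?_, ?_⟩
    · rw [ct_one, Nat.cast_one, one_mul]; exact h1
    · rw [ct_one, ← hU]
      apply le_antisymm (Finset.card_le_card (hsub i j hij))
      rw [hU]
      have h2 := (ls_le_fs P j i hij x (x j)).trans (hg j)
      have h3 : (j.val : ℝ) * ℓ = Real.log r - Real.log ((k.choose 2 - D : ℕ) : ℝ) := by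
        simp only [j, Nat.cast_one, one_mul]; exact h1
      rw [h3] at h2
      unfold ls at h2
      by_contra hlt
      push Not at hlt
      have hDC := hO.hDC
      rcases Nat.eq_zero_or_pos (P (x i) (x j)).card with h0 | h0
      · rw [h0] at h2
        simp only [Nat.cast_zero, Real.log_zero, sub_zero] at h2
        have := Real.log_pos (by exact_mod_cast (by omega : 1 < k.choose 2 - D) :
          (1 : ℝ) < ((k.choose 2 - D : ℕ) : ℝ))
        linarith
      · have := log_lt h0 hlt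
        linarith
    · intro j' hj' hne
      exfalso
      apply hne
      apply Fin.ext
      simp only [i]
      omega
  · have hp2 : 2 ≤ p := by omega
    have hct : ct k D p = c := by
      rw [ct_of_two_le hp2]; omega
    refine ⟨p, j, ⟨by omega, by omega, Or.inr ⟨hkp, Or.inr (by omega)⟩, ?_⟩, hj, i, ?_, ?_, ?_⟩
    · rw [hct]; exact h4
    · rw [Fin.lt_def] at hij; omega
    · rw [hct]; exact hcard
    · intro j' hj' hne
      exact hoth j' (by rw [Fin.lt_def]; omega) hne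

/-- rule for the choice of the coordinate `j` -/
def Rr {V : Type} {k r : ℕ} (D : ℕ) (ℓ : ℝ) (P : V → V → Finset (Fin r)) (j : Fin k)
    (x : Fin k → V) (y : V) : Prop :=
  fs P j x y ≤ (j.val : ℝ) * ℓ ∧ ∀ p, IsType k D r ℓ p → j.val = p → ¬ Fm D P p x y

theorem Fm_update {V : Type} {k r D : ℕ} (P : V → V → Finset (Fin r)) (p : ℕ)
    (x : Fin k → V) (t : Fin k) (y z : V) (hpt : p ≤ t.val) :
    Fm D P p (Function.update x t y) z ↔ Fm D P p x z := by
  have h : ∀ i : Fin k, i.val < p → Function.update x t y i = x i := by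
    intro i hi
    apply Function.update_of_ne
    intro h; rw [h] at hi; omega
  unfold Fm
  constructor
  · rintro ⟨i, hi, hc, hj⟩
    rw [h i hi] at hc
    exact ⟨i, hi, hc, fun j hj' hne => by rw [← h j hj']; exact hj j hj' hne⟩
  · rintro ⟨i, hi, hc, hj⟩
    refine ⟨i, hi, by rw [h i hi]; exact hc, fun j hj' hne => by rw [h j hj']; exact hj j hj' hne⟩

theorem Rr_update {V : Type} {k r D : ℕ} {ℓ : ℝ} (P : V → V → Finset (Fin r)) (j : Fin k)
    (x : Fin k → V) (t : Fin k) (y z : V) (hjt : j ≤ t) :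
    Rr D ℓ P j (Function.update x t y) z ↔ Rr D ℓ P j x z := by
  unfold Rr
  rw [fs_update P j x t y z hjt]
  rw [Fin.le_def] at hjt
  constructor
  · rintro ⟨h1, h2⟩
    exact ⟨h1, fun p hp hj hF => h2 p hp hj ((Fm_update P p x t y z (by omega)).mpr hF)⟩
  · rintro ⟨h1, h2⟩
    exact ⟨h1, fun p hp hj hF => h2 p hp hj ((Fm_update P p x t y z (by omega)).mp hF)⟩

/-- tuples following the rule can be coloured -/
theorem scol_of_Rr {V : Type} {k D r : ℕ} {ℓ : ℝ} (hO : Opt k D r ℓ) (P : V → V → Finset (Fin r))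
    (x : Fin k → V) (h : ∀ j : Fin k, 1 ≤ j.val → Rr D ℓ P j x (x j)) :
    SCol (k.choose 2 + 1 - D) (fun i j => P (x i) (x j)) := by
  by_contra hcon
  obtain ⟨p, j, hp, hj, hF⟩ := tuple_type hO P x hcon (by
    intro j
    rcases Nat.eq_zero_or_pos j.val with h0 | h0
    · rw [fs_zero P j h0, h0]; simp
    · exact (h j h0).1)
  exact (h j (by rw [hj]; exact hp.1)).2 p hp hj hF

theorem fs_gap (k r : ℕ) (ℓ : ℝ) : ∃ γ : ℝ, 0 < γ ∧ ∀ (V : Type)
    (P : V → V → Finset (Fin r)) (j : Fin k) (x : Fin k → V) (y : V),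
    fs P j x y ≤ (j.val : ℝ) * ℓ ∨ (j.val : ℝ) * ℓ + γ ≤ fs P j x y := by
  obtain ⟨γ, hγ, h⟩ := finite_gap (ι := Fin k × (Fin k → Fin (r + 1)))
    (fun p => ∑ i ∈ univ.filter (fun i => i < p.1), (Real.log r - Real.log ((p.2 i).val : ℝ)) -
      (p.1.val : ℝ) * ℓ)
  refine ⟨γ, hγ, ?_⟩
  intro V P j x y
  have hc : ∀ i, (P (x i) y).card < r + 1 := by
    intro i
    have := Finset.card_le_univ (P (x i) y)
    rw [Fintype.card_fin] at this
    omega
  have h1 := h (j, fun i => ⟨(P (x i) y).card, hc i⟩)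
  simp only at h1
  have h2 : fs P j x y =
      ∑ i ∈ univ.filter (fun i => i < j), (Real.log r - Real.log ((P (x i) y).card : ℝ)) := rfl
  rw [h2]
  rcases h1 with h1 | h1
  · left; linarith
  · right; linarith

/-- extension of tuples following the rule -/
theorem ext_rule {V : Type} {k D r : ℕ} {ℓ : ℝ} (hO : Opt k D r ℓ) (γ ε3 ε6 δ : ℝ) (hγ : 0 < γ)
    (hδ0 : 0 < δ)
    (hδ : (k * ℓ + γ) * δ ≤ γ * ε6 / 2) (hε6 : ε6 ≤ 1) (hε3 : k * ε3 < γ * ε6 / 2) (hε30 : 0 ≤ ε3)
    (P : V → V → Finset (Fin r)) (W : Finset V) (hW : 1 ≤ W.card)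
    (t : Fin k) (x : Fin k → V)
    (hgap : ∀ y, fs P t x y ≤ (t.val : ℝ) * ℓ ∨ (t.val : ℝ) * ℓ + γ ≤ fs P t x y)
    (hloss : ∀ i, ∑ y ∈ W, ls (P (x i) y) ≤ (ℓ + ε3) * (W.card : ℝ))
    (hbad : ∀ p, IsType k D r ℓ p → t.val = p → ε6 * (W.card : ℝ) ≤ ∑ y ∈ W, ind (¬ Fm D P p x y)) :
    δ * (W.card : ℝ) ≤ ∑ y ∈ W, ind (Rr D ℓ P t x y) := by
  have hℓ := hO.pos
  set n : ℝ := (W.card : ℝ) with hn
  have hn0 : 0 < n := by rw [hn]; exact_mod_cast hW
  set T : ℝ := (t.val : ℝ) with hT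
  have hT0 : 0 ≤ T := by positivity
  have hTk : T ≤ k := by rw [hT]; exact_mod_cast t.isLt.le
  have h1 : ∑ y ∈ W, fs P t x y ≤ T * ((ℓ + ε3) * n) := sum_fs P t x W _ (fun i _ => hloss i)
  set g := ∑ y ∈ W, ind (Rr D ℓ P t x y) with hg
  have hg0 : 0 ≤ g := Finset.sum_nonneg fun _ _ => ind_nonneg _
  -- main inequality
  have hmain : γ * (ε6 * n) ≤ T * ε3 * n + (T * ℓ + γ) * g := by
    by_cases htype : IsType k D r ℓ t.val
    · have hb := hbad t.val htype rfl
      have hpt : ∀ y ∈ W, T * ℓ + γ * ind (¬ Fm D P t.val x y) - (T * ℓ + γ) *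
          ind (Rr D ℓ P t x y) ≤ fs P t x y := by
        intro y _
        by_cases hF : Fm D P t.val x y
        · have hR : ¬ Rr D ℓ P t x y := fun h => h.2 t.val htype rfl hF
          have h2 : fs P t x y = T * ℓ := Fm_fs P t.val htype t rfl x y hF
          rw [ind_neg (not_not.mpr hF), ind_neg hR, h2]
          linarith
        · by_cases hR : Rr D ℓ P t x y
          · rw [ind_pos hF, ind_pos hR]
            have := fs_nonneg P t x y
            linarith
          · rw [ind_pos hF, ind_neg hR]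
            rcases hgap y with h2 | h2
            · exfalso
              apply hR
              refine ⟨h2, ?_⟩
              intro p hp htp hFp
              rw [← htp] at hFp
              exact hF hFp
            · linarith
      have hsum := Finset.sum_le_sum hpt
      rw [Finset.sum_sub_distrib, Finset.sum_add_distrib, Finset.sum_const, nsmul_eq_mul,
        ← Finset.mul_sum, ← Finset.mul_sum] at hsum
      have h3 : γ * (ε6 * n) ≤ γ * ∑ y ∈ W, ind (¬ Fm D P t.val x y) :=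
        mul_le_mul_of_nonneg_left hb hγ.le
      have e1 : T * ((ℓ + ε3) * n) = n * (T * ℓ) + T * ε3 * n := by ring
      rw [e1] at h1
      linarith
    · have hpt : ∀ y ∈ W, (T * ℓ + γ) - (T * ℓ + γ) * ind (Rr D ℓ P t x y) ≤ fs P t x y := by
        intro y _
        by_cases hR : Rr D ℓ P t x y
        · rw [ind_pos hR]
          have := fs_nonneg P t x y
          linarith
        · rw [ind_neg hR]
          rcases hgap y with h2 | h2
          · exfalso
            apply hR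
            refine ⟨h2, ?_⟩
            intro p hp htp _
            rw [htp] at htype
            exact htype hp
          · linarith
      have hsum := Finset.sum_le_sum hpt
      rw [Finset.sum_sub_distrib, Finset.sum_const, nsmul_eq_mul, ← Finset.mul_sum] at hsum
      have e1 : T * ((ℓ + ε3) * n) = n * (T * ℓ) + T * ε3 * n := by ring
      rw [e1] at h1
      have h3 : γ * (ε6 * n) ≤ γ * (1 * n) := by
        apply mul_le_mul_of_nonneg_left _ hγ.le
        exact mul_le_mul_of_nonneg_right hε6 hn0.le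
      linarith
  have h2 : T * ε3 * n ≤ γ * ε6 / 2 * n := by
    apply mul_le_mul_of_nonneg_right _ hn0.le
    exact (mul_le_mul_of_nonneg_right hTk hε30).trans hε3.le
  have h3 : (T * ℓ + γ) * g ≤ (k * ℓ + γ) * g := by
    apply mul_le_mul_of_nonneg_right _ hg0
    have := mul_le_mul_of_nonneg_right hTk hℓ.le
    linarith
  have h4 : (k * ℓ + γ) * (δ * n) ≤ (k * ℓ + γ) * g := by
    calc (k * ℓ + γ) * (δ * n) = ((k * ℓ + γ) * δ) * n := by ring
      _ ≤ (γ * ε6 / 2) * n := mul_le_mul_of_nonneg_right hδ hn0.le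
      _ ≤ (k * ℓ + γ) * g := by
        have e : γ * (ε6 * n) = γ * ε6 / 2 * n + γ * ε6 / 2 * n := by ring
        rw [e] at hmain
        linarith
  exact le_of_mul_le_mul_left h4 (by positivity)

/-- few tuples satisfy a condition on the first `t0` coordinates that prevents structure -/
theorem tree_bad {V : Type} {k D r : ℕ} {ℓ : ℝ} (hO : Opt k D r ℓ) (γ ε3 ε6 δ : ℝ) (hγ : 0 < γ)
    (hδ0 : 0 < δ)
    (hδ : (k * ℓ + γ) * δ ≤ γ * ε6 / 2) (hε6 : ε6 ≤ 1) (hε3 : k * ε3 < γ * ε6 / 2) (hε30 : 0 ≤ ε3)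
    (P : V → V → Finset (Fin r)) (W : Finset V) (hW : 1 ≤ W.card)
    (hgap : ∀ (t : Fin k) (x : Fin k → V) (y : V), fs P t x y ≤ (t.val : ℝ) * ℓ ∨
      (t.val : ℝ) * ℓ + γ ≤ fs P t x y)
    (hloss : ∀ x ∈ W, ∑ y ∈ W, ls (P x y) ≤ (ℓ + ε3) * (W.card : ℝ))
    (t0 : ℕ) (ht0k : t0 ≤ k) (C : (Fin k → V) → Prop)
    (hC : ∀ x (t : Fin k) y, t0 ≤ t.val → (C (Function.update x t y) ↔ C x))
    (hbad : ∀ x ∈ tup k W, C x → ∀ p, IsType k D r ℓ p → t0 ≤ p →
      ε6 * (W.card : ℝ) ≤ ∑ y ∈ W, ind (¬ Fm D P p x y))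
    (hstart : ∀ x ∈ tup k W, C x → ∀ j : Fin k, 1 ≤ j.val → j.val < t0 → Rr D ℓ P j x (x j)) :
    δ ^ (k - t0) * ∑ x ∈ tup k W, ind (C x) ≤ sc k (k.choose 2 + 1 - D) P W := by
  have htree := tree_ind (J := k) W t0 C (fun j x y => Rr D ℓ P j x y) δ hδ0.le hC
    (fun j x t y z hjt => Rr_update P j x t y z hjt) k ht0k le_rfl (by
      intro x hx hCx t ht0 _ _
      apply ext_rule hO γ ε3 ε6 δ hγ hδ0 hδ hε6 hε3 hε30 P W hW t x (hgap t x)
        (fun i => hloss (x i) (mem_tup.mp hx i))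
      intro p hp htp
      exact hbad x hx hCx p hp (by omega))
  refine htree.trans ?_
  unfold sc
  refine Finset.sum_le_sum fun x hx => ind_mono ?_
  rintro ⟨hCx, hR⟩
  apply scol_of_Rr hO
  intro j hj
  rcases Nat.lt_or_ge j.val t0 with h | h
  · exact hstart x hx hCx j hj h
  · exact hR j h j.isLt

end Pool.Agent.TH477.PA
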